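import Pool.Agent.Helper859.LpOp

set_option autoImplicit false

namespace Pool.Agent.Helper859

open scoped ENNReal

section BP
set_option linter.unusedSectionVars false
set_option linter.unusedVariables false

variable {B : Type*} [NormedRing B] [NormedAlgebra ℂ B] [CompleteSpace B] [NormOneClass B]

/-- the space `ℓ¹(ℝ; B)` -/
def Z1 (B : Type*) [NormedRing B] : Type _ := lp (fun _ : ℝ => B) 1

noncomputable instance : NormedAddCommGroup (Z1 B) :=
  inferInstanceAs (NormedAddCommGroup (lp (fun _ : ℝ => B) 1))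
noncomputable instance : NormedSpace ℂ (Z1 B) :=
  inferInstanceAs (NormedSpace ℂ (lp (fun _ : ℝ => B) 1))
instance : CompleteSpace (Z1 B) := inferInstanceAs (CompleteSpace (lp (fun _ : ℝ => B) 1))

/-- coordinates of an element of `ℓ¹(ℝ; B)` -/
def Z1.co (z : Z1 B) (x : ℝ) : B := (show lp (fun _ : ℝ => B) 1 from z) x

lemma Z1.ext {z w : Z1 B} (h : ∀ x, z.co x = w.co x) : z = w :=
  lp.ext (funext h)

/-- coordinate as a continuous linear map -/
noncomputable def Z1.ev (β : ℝ) : Z1 B →L[ℂ] B := lp.evalCLM ℂ (fun _ : ℝ => B) 1 β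

lemma Z1.ev_apply (β : ℝ) (z : Z1 B) : Z1.ev β z = z.co β := rfl

lemma one_toReal_pos : 0 < (1 : ℝ≥0∞).toReal := by simp

lemma inj_sub (γ : ℝ) : ∀ a b i : ℝ, (some (a - γ) : Option ℝ) = some i → some (b - γ) = some i →
    a = b := by
  intro a b i h1 h2
  have h1' := Option.some_injective _ h1
  have h2' := Option.some_injective _ h2
  linarith

/-- `(A γ b z) β = b * z (β - γ)` -/
noncomputable def opA (γ : ℝ) (b : B) : Z1 B →L[ℂ] Z1 B :=
  lpOp 1 one_toReal_pos (fun β => some (β - γ)) (inj_sub γ)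
    (fun _ => ContinuousLinearMap.mul ℂ B b) ‖b‖ (norm_nonneg _)
    (fun _ => ContinuousLinearMap.opNorm_mul_apply_le _ _ _)

/-- `(R γ b z) β = z (β - γ) * b` -/
noncomputable def opR (γ : ℝ) (b : B) : Z1 B →L[ℂ] Z1 B :=
  lpOp 1 one_toReal_pos (fun β => some (β - γ)) (inj_sub γ)
    (fun _ => (ContinuousLinearMap.mul ℂ B).flip b) ‖b‖ (norm_nonneg _)
    (fun _ => by
      apply ContinuousLinearMap.opNorm_le_bound _ (norm_nonneg _)
      intro x
      simp only [ContinuousLinearMap.flip_apply, ContinuousLinearMap.mul_apply']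
      rw [mul_comm ‖b‖]
      exact norm_mul_le _ _)

@[simp] lemma opA_apply (γ : ℝ) (b : B) (z : Z1 B) (β : ℝ) :
    (opA γ b z).co β = b * z.co (β - γ) := rfl
@[simp] lemma opR_apply (γ : ℝ) (b : B) (z : Z1 B) (β : ℝ) :
    (opR γ b z).co β = z.co (β - γ) * b := rfl

lemma norm_opA_le (γ : ℝ) (b : B) : ‖opA γ b‖ ≤ ‖b‖ := norm_lpOp_le _ _ _ _ _ _ _ _
lemma norm_opR_le (γ : ℝ) (b : B) : ‖opR γ b‖ ≤ ‖b‖ := norm_lpOp_le _ _ _ _ _ _ _ _

lemma opA_opR (γ x : ℝ) (b c : B) : opA γ b * opR x c = opR x c * opA γ b := by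
  ext z
  apply Z1.ext
  intro β
  change b * (z.co (β - γ - x) * c) = (b * z.co (β - x - γ)) * c
  rw [mul_assoc, sub_right_comm]

lemma opA_one_comm (γ α : ℝ) (b : B) : opA γ 1 * opA α b = opA α b * opA γ 1 := by
  ext z
  apply Z1.ext
  intro β
  change 1 * (b * z.co (β - γ - α)) = b * (1 * z.co (β - α - γ))
  rw [one_mul, one_mul, sub_right_comm]

lemma opA_mul (γ α : ℝ) (b c : B) : opA γ b * opA α c = opA (γ + α) (b * c) := by
  ext z
  apply Z1.ext
  intro β
  change b * (c * z.co (β - γ - α)) = (b * c) * z.co (β - (γ + α))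
  rw [mul_assoc, sub_sub]

lemma opA_zero_one : opA 0 (1 : B) = 1 := by
  ext z
  apply Z1.ext
  intro β
  change 1 * z.co (β - 0) = z.co β
  simp

lemma opA_smul (γ : ℝ) (c : ℂ) (b : B) : opA γ (c • b) = c • opA γ b := by
  ext z
  apply Z1.ext
  intro β
  change (c • b) * z.co (β - γ) = c • (b * z.co (β - γ))
  rw [smul_mul_assoc]

lemma norm_eq_tsum (z : Z1 B) : ‖z‖ = ∑' x, ‖z.co x‖ := by
  have h := lp.norm_eq_tsum_rpow one_toReal_pos (show lp (fun _ : ℝ => B) 1 from z)
  simp only [ENNReal.toReal_one, Real.rpow_one, div_one] at h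
  exact h

lemma summable_norm_coe (z : Z1 B) : Summable (fun x => ‖z.co x‖) := by
  have h := (lp.memℓp (show lp (fun _ : ℝ => B) 1 from z)).summable one_toReal_pos
  simp only [ENNReal.toReal_one, Real.rpow_one] at h
  exact h

lemma summable_opA {e : ℝ → B} (he : Summable (fun x => ‖e x‖)) :
    Summable (fun γ => opA γ (e γ)) :=
  Summable.of_norm_bounded he (fun γ => norm_opA_le _ _)

lemma summable_opR {e : ℝ → B} (he : Summable (fun x => ‖e x‖)) :
    Summable (fun γ => opR γ (e γ)) :=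
  Summable.of_norm_bounded he (fun γ => norm_opR_le _ _)

/-- left convolution by `e` -/
noncomputable def opV (e : Z1 B) : Z1 B →L[ℂ] Z1 B := ∑' γ, opA γ (e.co γ)

lemma norm_opV_le (e : Z1 B) : ‖opV e‖ ≤ ‖e‖ := by
  rw [norm_eq_tsum]
  exact tsum_of_norm_bounded (summable_norm_coe e).hasSum (fun γ => norm_opA_le _ _)

lemma hasSum_apply {ι : Type*} {T : ι → (Z1 B →L[ℂ] Z1 B)} (h : Summable T) (z : Z1 B) :
    HasSum (fun i => T i z) ((∑' i, T i) z) :=
  (ContinuousLinearMap.apply ℂ (Z1 B) z).hasSum h.hasSum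

/-- the unit of convolution -/
noncomputable def one1 : Z1 B := (lp.single 1 0 1 : lp (fun _ : ℝ => B) 1)

lemma one1_apply (β : ℝ) : (one1 : Z1 B).co β = if β = 0 then 1 else 0 := by
  change (lp.single 1 0 1 : lp (fun _ : ℝ => B) 1) β = _
  by_cases h : β = 0
  · subst h; simp
  · simp [h]

lemma opV_one (e : Z1 B) : opV e one1 = e := by
  apply Z1.ext
  intro β
  have h := hasSum_apply (summable_opA (summable_norm_coe e)) (one1 : Z1 B)
  have h2 := (Z1.ev β).hasSum h
  have h3 : HasSum (fun γ => e.co γ * (one1 : Z1 B).co (β - γ)) (e.co β) := by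
    have : (fun γ => e.co γ * (one1 : Z1 B).co (β - γ)) = fun γ => if γ = β then e.co γ else 0 := by
      funext γ
      rw [one1_apply]
      by_cases hγ : γ = β
      · simp [hγ]
      · have : β - γ ≠ 0 := fun h => hγ (by linarith)
        simp [hγ, this]
    rw [this]
    convert hasSum_ite_eq β (e.co β) using 2 with γ
    split_ifs with h
    · rw [h]
    · rfl
  exact h2.unique h3

lemma norm_one1 : ‖(one1 : Z1 B)‖ = 1 := by
  change ‖(lp.single 1 0 1 : lp (fun _ : ℝ => B) 1)‖ = 1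
  rw [lp.norm_single (by norm_num)]
  exact norm_one

lemma mem_of_hasSum {K : Submodule ℂ (Z1 B)} (hK : IsClosed (K : Set (Z1 B))) {ι : Type*}
    {f : ι → Z1 B} {a : Z1 B} (h : HasSum f a) (hf : ∀ i, f i ∈ K) : a ∈ K :=
  hK.mem_of_tendsto h (Filter.Eventually.of_forall (fun s => K.sum_mem (fun i _ => hf i)))

/-- invariance under left multiplications and translations -/
def Inv (K : Submodule ℂ (Z1 B)) : Prop := ∀ (γ : ℝ) (b : B) (z : Z1 B), z ∈ K → opA γ b z ∈ K

lemma Inv.opV_mem {K : Submodule ℂ (Z1 B)} (hK : IsClosed (K : Set (Z1 B))) (hI : Inv K)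
    (e : Z1 B) {z : Z1 B} (hz : z ∈ K) : opV e z ∈ K :=
  mem_of_hasSum hK (hasSum_apply (summable_opA (summable_norm_coe e)) z) (fun γ => hI γ _ z hz)

/-- the inverse of `1 - V e` -/
noncomputable def opW (e : Z1 B) (he : ‖e‖ < 1) : Z1 B →L[ℂ] Z1 B :=
  ((Units.oneSub (opV e) ((norm_opV_le e).trans_lt he))⁻¹ : (Z1 B →L[ℂ] Z1 B)ˣ)

lemma opW_mul (e : Z1 B) (he : ‖e‖ < 1) : opW e he * (1 - opV e) = 1 :=
  Units.inv_mul (Units.oneSub (opV e) ((norm_opV_le e).trans_lt he))

lemma Inv.opW_mem {K : Submodule ℂ (Z1 B)} (hK : IsClosed (K : Set (Z1 B))) (hI : Inv K)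
    (e : Z1 B) (he : ‖e‖ < 1) {z : Z1 B} (hz : z ∈ K) : opW e he z ∈ K := by
  have hn : ‖opV e‖ < 1 := (norm_opV_le e).trans_lt he
  have h1 : opW e he = ∑' n : ℕ, (opV e) ^ n := rfl
  have hs : Summable (fun n : ℕ => (opV e) ^ n) := summable_geometric_of_norm_lt_one hn
  rw [h1]
  refine mem_of_hasSum hK (hasSum_apply hs z) (fun n => ?_)
  induction n with
  | zero => simpa using hz
  | succ n ih =>
    rw [pow_succ']
    exact hI.opV_mem hK e ih

lemma opW_comm (e : Z1 B) (he : ‖e‖ < 1) {C : Z1 B →L[ℂ] Z1 B} (hC : C * opV e = opV e * C) :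
    C * opW e he = opW e he * C := by
  have h : Commute C (Units.oneSub (opV e) ((norm_opV_le e).trans_lt he) : (Z1 B →L[ℂ] Z1 B)) := by
    change C * (1 - opV e) = (1 - opV e) * C
    rw [mul_sub, sub_mul, hC, mul_one, one_mul]
  exact h.units_inv_right

lemma comm_opV {C : Z1 B →L[ℂ] Z1 B} (hC : ∀ γ b, C * opA γ b = opA γ b * C) (e : Z1 B) :
    C * opV e = opV e * C := by
  unfold opV
  have hs := summable_opA (summable_norm_coe e)
  rw [← hs.tsum_mul_left, ← hs.tsum_mul_right]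
  exact tsum_congr (fun γ => hC _ _)

/-- if `k` is close to the unit then the unit is `W k` -/
lemma one_eq_opW (k : Z1 B) (hk : ‖one1 - k‖ < 1) : opW (one1 - k) hk k = one1 := by
  have h1 : (1 - opV (one1 - k)) (one1 : Z1 B) = k := by
    change one1 - opV (one1 - k) one1 = k
    rw [opV_one]; abel
  have h2 := opW_mul (one1 - k) hk
  calc opW (one1 - k) hk k = opW (one1 - k) hk ((1 - opV (one1 - k)) (one1 : Z1 B)) := by rw [h1]
    _ = ((opW (one1 - k) hk * (1 - opV (one1 - k)) : Z1 B →L[ℂ] Z1 B)) (one1 : Z1 B) := rfl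
    _ = one1 := by rw [h2]; rfl

structure Good (K : Submodule ℂ (Z1 B)) : Prop where
  inv : Inv K
  far : ∀ k ∈ K, 1 ≤ ‖one1 - k‖

lemma Good.closure {K : Submodule ℂ (Z1 B)} (h : Good K) : Good K.topologicalClosure := by
  constructor
  · intro γ b z hz
    have hm : Set.MapsTo (opA γ b) (K : Set (Z1 B)) (K : Set (Z1 B)) := fun z hz => h.inv γ b z hz
    exact hm.closure (opA γ b).continuous hz
  · intro k hk
    have hcl : IsClosed {k : Z1 B | 1 ≤ ‖one1 - k‖} :=
      isClosed_le continuous_const (by fun_prop)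
    exact closure_minimal (fun k hk => h.far k hk) hcl hk

lemma exists_maximal {K₀ : Submodule ℂ (Z1 B)} (h0 : Good K₀) :
    ∃ K : Submodule ℂ (Z1 B), K₀ ≤ K ∧ Good K ∧ IsClosed (K : Set (Z1 B)) ∧
      ∀ K' : Submodule ℂ (Z1 B), Good K' → K ≤ K' → K' ≤ K := by
  obtain ⟨K, hK0, hK⟩ := zorn_le_nonempty₀ {K : Submodule ℂ (Z1 B) | Good K} (by
    intro c hc hchain y hy
    refine ⟨sSup c, ?_, fun z hz => le_sSup hz⟩
    have hne : c.Nonempty := ⟨y, hy⟩
    have hmem : ∀ z, z ∈ sSup c ↔ ∃ K ∈ c, z ∈ K := fun z =>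
      Submodule.mem_sSup_of_directed hne hchain.directedOn
    constructor
    · intro γ b z hz
      obtain ⟨K, hKc, hzK⟩ := (hmem z).mp hz
      exact (hmem _).mpr ⟨K, hKc, (hc hKc).inv γ b z hzK⟩
    · intro k hk
      obtain ⟨K, hKc, hkK⟩ := (hmem k).mp hk
      exact (hc hKc).far k hkK) K₀ h0
  have hcl : K.topologicalClosure ≤ K := hK.2 hK.1.closure K.le_topologicalClosure
  refine ⟨K, hK0, hK.1, ?_, fun K' hK' hle => hK.2 hK' hle⟩
  have : K = K.topologicalClosure := le_antisymm K.le_topologicalClosure hcl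
  rw [this]
  exact K.isClosed_topologicalClosure

/-- translations act as scalars modulo a maximal good closed submodule -/
lemma exists_scalar {K : Submodule ℂ (Z1 B)} (hG : Good K) (hcl : IsClosed (K : Set (Z1 B)))
    (hmax : ∀ K' : Submodule ℂ (Z1 B), Good K' → K ≤ K' → K' ≤ K) (γ : ℝ) :
    ∃ c : ℂ, ∀ z : Z1 B, opA γ 1 z - c • z ∈ K := by
  have : IsClosed (K : Set (Z1 B)) := hcl
  have hone : (one1 : Z1 B) ∉ K := by
    intro h
    have := hG.far one1 h
    simp at this
    linarith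
  have : Nontrivial (Z1 B ⧸ K) := by
    refine ⟨⟨K.mkQ one1, 0, ?_⟩⟩
    intro h
    exact hone ((Submodule.Quotient.mk_eq_zero K).mp h)
  -- the induced operator
  have hker : K ≤ (K.mkQL ∘L (opA γ 1 : Z1 B →L[ℂ] Z1 B)).ker := by
    intro z hz
    rw [LinearMap.mem_ker]
    exact (Submodule.Quotient.mk_eq_zero K).mpr (hG.inv γ 1 z hz)
  set T : (Z1 B ⧸ K) →L[ℂ] (Z1 B ⧸ K) := K.liftQL (K.mkQL ∘L (opA γ 1 : Z1 B →L[ℂ] Z1 B)) hker
    with hT
  have hTapp : ∀ z, T (K.mkQ z) = K.mkQ (opA γ 1 z) := fun z => rfl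
  obtain ⟨c, hc⟩ := spectrum.nonempty T
  refine ⟨c, ?_⟩
  by_contra hcon
  push Not at hcon
  -- the operator A = U - c
  set A : Z1 B →L[ℂ] Z1 B := opA γ 1 - c • ContinuousLinearMap.id ℂ (Z1 B) with hA
  have hAapp : ∀ z, A z = opA γ 1 z - c • z := fun z => rfl
  have hAcomm : ∀ α b, A * opA α b = opA α b * A := by
    intro α b
    ext z
    change opA γ 1 (opA α b z) - c • opA α b z = opA α b (opA γ 1 z - c • z)
    rw [map_sub, map_smul]
    have := congrArg (fun C : Z1 B →L[ℂ] Z1 B => C z) (opA_one_comm γ α b)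
    exact congrArg (fun w => w - c • opA α b z) this
  have hAK : ∀ z ∈ K, A z ∈ K := fun z hz => by
    rw [hAapp]; exact K.sub_mem (hG.inv γ 1 z hz) (K.smul_mem c hz)
  have hTA : ∀ z, (T - c • ContinuousLinearMap.id ℂ (Z1 B ⧸ K)) (K.mkQ z) = K.mkQ (A z) := by
    intro z
    change T (K.mkQ z) - c • K.mkQ z = K.mkQ (A z)
    rw [hTapp, hAapp, map_sub, map_smul]
  -- surjectivity
  have hsurj : ∀ w : Z1 B, ∃ z : Z1 B, ∃ k ∈ K, w = k + A z := by
    by_contra hns
    have hgood : Good (K ⊔ (A : Z1 B →ₗ[ℂ] Z1 B).range) := by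
      constructor
      · intro α b z hz
        obtain ⟨k, hk, y, ⟨x, rfl⟩, rfl⟩ := Submodule.mem_sup.mp hz
        rw [map_add]
        refine Submodule.add_mem_sup (hG.inv α b k hk) ⟨opA α b x, ?_⟩
        exact congrArg (fun C : Z1 B →L[ℂ] Z1 B => C x) (hAcomm α b)
      · intro z hz
        obtain ⟨k, hk, y, ⟨x, rfl⟩, rfl⟩ := Submodule.mem_sup.mp hz
        by_contra hlt
        push Not at hlt
        apply hns
        intro w
        have h1 := one_eq_opW _ hlt
        set e := (one1 : Z1 B) - (k + (A : Z1 B →ₗ[ℂ] Z1 B) x) with he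
        have hAV : A * opV e = opV e * A := comm_opV hAcomm e
        have hAW := opW_comm e hlt hAV
        have hAVw : A * opV w = opV w * A := comm_opV hAcomm w
        have h2 : w = opV w (opW e hlt k) + A (opV w (opW e hlt x)) := by
          have e1 : A (opW e hlt x) = opW e hlt (A x) :=
            congrArg (fun C : Z1 B →L[ℂ] Z1 B => C x) hAW
          have e2 : A (opV w (opW e hlt x)) = opV w (A (opW e hlt x)) :=
            congrArg (fun C : Z1 B →L[ℂ] Z1 B => C (opW e hlt x)) hAVw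
          rw [e2, e1, ← map_add, ← map_add]
          have e3 : opW e hlt (k + A x) = one1 := h1
          rw [e3, opV_one]
        exact ⟨opV w (opW e hlt x), opV w (opW e hlt k),
          hG.inv.opV_mem hcl w (hG.inv.opW_mem hcl e hlt hk), h2⟩
    have hle := hmax _ hgood le_sup_left
    obtain ⟨z, hz⟩ := hcon
    exact hz (hle (Submodule.mem_sup_right ⟨z, rfl⟩))
  -- injectivity
  have hinj : ∀ z : Z1 B, A z ∈ K → z ∈ K := by
    by_contra hni
    set K2 : Submodule ℂ (Z1 B) := K.comap (A : Z1 B →ₗ[ℂ] Z1 B) with hK2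
    have hK2cl : IsClosed (K2 : Set (Z1 B)) := hcl.preimage A.continuous
    have hK2inv : Inv K2 := by
      intro α b z hz
      change A (opA α b z) ∈ K
      have e1 : A (opA α b z) = opA α b (A z) :=
        congrArg (fun C : Z1 B →L[ℂ] Z1 B => C z) (hAcomm α b)
      rw [e1]
      exact hG.inv α b _ hz
    have hgood : Good K2 := by
      refine ⟨hK2inv, fun k hk => ?_⟩
      by_contra hlt
      push Not at hlt
      have h1 := one_eq_opW _ hlt
      have h2 : (one1 : Z1 B) ∈ K2 := by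
        rw [← h1]
        exact hK2inv.opW_mem hK2cl _ hlt hk
      obtain ⟨z, hz⟩ := hcon
      apply hz
      have h3 : opV z one1 ∈ K2 := hK2inv.opV_mem hK2cl z h2
      rw [opV_one] at h3
      exact h3
    apply hni
    intro z hz
    exact hmax K2 hgood (fun k hk => hAK k hk) hz
  -- conclusion
  apply hc
  have hbij : Function.Bijective (T - c • ContinuousLinearMap.id ℂ (Z1 B ⧸ K)) := by
    constructor
    · rw [injective_iff_map_eq_zero]
      intro q hq
      obtain ⟨z, rfl⟩ := K.mkQ_surjective q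
      rw [hTA] at hq
      exact (Submodule.Quotient.mk_eq_zero K).mpr
        (hinj z ((Submodule.Quotient.mk_eq_zero K).mp hq))
    · intro q
      obtain ⟨w, rfl⟩ := K.mkQ_surjective q
      obtain ⟨z, k, hk, hw⟩ := hsurj w
      refine ⟨K.mkQ z, ?_⟩
      rw [hTA, hw, map_add]
      have : K.mkQ k = 0 := (Submodule.Quotient.mk_eq_zero K).mpr hk
      rw [this, zero_add]
  have hu : IsUnit (T - c • ContinuousLinearMap.id ℂ (Z1 B ⧸ K)) :=
    ContinuousLinearMap.isUnit_iff_bijective.mpr hbij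
  have : algebraMap ℂ ((Z1 B ⧸ K) →L[ℂ] (Z1 B ⧸ K)) c - T
      = -(T - c • ContinuousLinearMap.id ℂ (Z1 B ⧸ K)) := by
    rw [neg_sub]; rfl
  change IsUnit (algebraMap ℂ ((Z1 B ⧸ K) →L[ℂ] (Z1 B ⧸ K)) c - T)
  rw [this]
  exact hu.neg

/-- Bochner-Phillips theorem for `ℓ¹(ℝ; B)`, left inverses -/
theorem bochner_phillips (d : ℝ → B) (hd : Summable (fun x => ‖d x‖))
    (hχ : ∀ χ : ℝ → ℂ, χ 0 = 1 → (∀ x y, χ (x + y) = χ x * χ y) → (∀ x, ‖χ x‖ = 1) →
      ∃ c : B, c * ∑' x, χ x • d x = 1) :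
    ∃ g : ℝ → B, Summable (fun x => ‖g x‖) ∧
      ∀ β, HasSum (fun x => g (β - x) * d x) (if β = 0 then 1 else 0) := by
  have hsR := summable_opR hd
  set R : Z1 B →L[ℂ] Z1 B := ∑' x, opR x (d x) with hR
  have hRcomm : ∀ γ b, R * opA γ b = opA γ b * R := by
    intro γ b
    ext z
    change R (opA γ b z) = opA γ b (R z)
    have h1 := hasSum_apply hsR (opA γ b z)
    have h2 := (opA γ b).hasSum (hasSum_apply hsR z)
    refine h1.unique ?_
    convert h2 using 2 with x
    exact (congrArg (fun C : Z1 B →L[ℂ] Z1 B => C z) (opA_opR γ x b (d x))).symm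
  -- it is enough to approximate the unit
  suffices hap : ∃ g : Z1 B, ‖one1 - R g‖ < 1 by
    obtain ⟨g, hg⟩ := hap
    have h1 := one_eq_opW _ hg
    set e := (one1 : Z1 B) - R g with he
    have hRW := opW_comm e hg (comm_opV hRcomm e)
    have h2 : R (opW e hg g) = one1 := by
      rw [← h1]
      exact congrArg (fun C : Z1 B →L[ℂ] Z1 B => C g) hRW
    refine ⟨(opW e hg g).co, summable_norm_coe _, fun β => ?_⟩
    have h3 := (Z1.ev β).hasSum (hasSum_apply hsR (opW e hg g))
    rw [← hR, h2, Z1.ev_apply, one1_apply] at h3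
    exact h3
  by_contra hno
  push Not at hno
  have hG0 : Good ((R : Z1 B →ₗ[ℂ] Z1 B).range) := by
    constructor
    · rintro γ b z ⟨y, rfl⟩
      exact ⟨opA γ b y, congrArg (fun C : Z1 B →L[ℂ] Z1 B => C y) (hRcomm γ b)⟩
    · rintro k ⟨y, rfl⟩
      exact hno y
  obtain ⟨K, hK0, hG, hcl, hmax⟩ := exists_maximal hG0
  choose χ hχK using exists_scalar hG hcl hmax
  have hone : (one1 : Z1 B) ∉ K := by
    intro h
    have := hG.far one1 h
    simp at this
    linarith
  have hscal : ∀ c : ℂ, c • (one1 : Z1 B) ∈ K → c = 0 := by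
    intro c hc
    by_contra h0
    apply hone
    have := K.smul_mem c⁻¹ hc
    rwa [smul_smul, inv_mul_cancel₀ h0, one_smul] at this
  have h0 : χ 0 = 1 := by
    have h := hχK 0 one1
    rw [opA_zero_one] at h
    have h' : (1 - χ 0) • (one1 : Z1 B) ∈ K := by
      rw [sub_smul, one_smul]; exact h
    have := hscal _ h'
    linear_combination -this
  have hmul : ∀ x y, χ (x + y) = χ x * χ y := by
    intro x y
    have h1 := hχK (x + y) one1
    have h2 := hχK x (opA y 1 one1)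
    have h3 := K.smul_mem (χ x) (hχK y one1)
    have e1 : opA x 1 (opA y 1 (one1 : Z1 B)) = opA (x + y) 1 one1 := by
      have := congrArg (fun C : Z1 B →L[ℂ] Z1 B => C one1) (opA_mul x y (1 : B) 1)
      rw [mul_one] at this
      exact this
    rw [e1] at h2
    have h4 := K.sub_mem (K.add_mem h2 h3) h1
    have h5 : (χ (x + y) - χ x * χ y) • (one1 : Z1 B) ∈ K := by
      convert h4 using 1
      rw [sub_smul, smul_sub, smul_smul]
      abel
    have := hscal _ h5
    linear_combination this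
  have hle : ∀ x, ‖χ x‖ ≤ 1 := by
    intro x
    by_contra hlt
    push Not at hlt
    have h := hχK x one1
    have hx0 : χ x ≠ 0 := by
      intro h0; rw [h0] at hlt; simp at hlt; linarith
    have h2 := K.smul_mem (-(χ x)⁻¹) h
    have h3 : (one1 : Z1 B) - (χ x)⁻¹ • opA x 1 one1 ∈ K := by
      convert h2 using 1
      rw [smul_sub, smul_smul, neg_mul, inv_mul_cancel₀ hx0]
      simp only [neg_smul, one_smul]
      abel
    have h4 := hG.far _ h3
    rw [sub_sub_cancel, norm_smul, norm_inv] at h4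
    have h5 : ‖opA x (1 : B) one1‖ ≤ 1 := by
      calc ‖opA x (1 : B) one1‖ ≤ ‖opA x (1 : B)‖ * ‖(one1 : Z1 B)‖ :=
            ContinuousLinearMap.le_opNorm _ _
        _ ≤ 1 * 1 := by
            apply mul_le_mul _ norm_one1.le (norm_nonneg _) zero_le_one
            exact (norm_opA_le _ _).trans norm_one.le
        _ = 1 := one_mul 1
    have h6 : ‖χ x‖⁻¹ < 1 := inv_lt_one_of_one_lt₀ hlt
    have h7 : ‖χ x‖⁻¹ * ‖opA x (1 : B) one1‖ < 1 := by
      calc ‖χ x‖⁻¹ * ‖opA x (1 : B) one1‖ ≤ ‖χ x‖⁻¹ * 1 := by gcongr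
        _ < 1 := by rw [mul_one]; exact h6
    linarith
  have hnorm : ∀ x, ‖χ x‖ = 1 := by
    intro x
    have h1 := hmul x (-x)
    rw [add_neg_cancel, h0] at h1
    have h2 : ‖χ x‖ * ‖χ (-x)‖ = 1 := by rw [← norm_mul, ← h1]; simp
    have h3 := hle x
    have h4 := hle (-x)
    nlinarith [norm_nonneg (χ x), norm_nonneg (χ (-x))]
  obtain ⟨c, hc⟩ := hχ χ h0 hmul hnorm
  have hs1 : Summable (fun x => χ x • d x) := by
    refine Summable.of_norm_bounded hd (fun x => ?_)
    rw [norm_smul, hnorm, one_mul]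
  -- R one1 is in K
  have hR1 : R one1 ∈ K := hK0 ⟨one1, rfl⟩
  have hsum1 := hasSum_apply hsR (one1 : Z1 B)
  rw [← hR] at hsum1
  have hRA : ∀ x, opR x (d x) (one1 : Z1 B) = opA x 1 (opA 0 (d x) one1) := by
    intro x
    apply Z1.ext
    intro β
    change (one1 : Z1 B).co (β - x) * d x = 1 * (d x * (one1 : Z1 B).co (β - x - 0))
    rw [one1_apply, one1_apply]
    split_ifs with h1 h2 h2 <;> simp_all
  have hs2 : HasSum (fun x => opA 0 (χ x • d x) (one1 : Z1 B)) (opA 0 (∑' x, χ x • d x) one1) := by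
    have hL : ∃ L : B →L[ℂ] Z1 B, ∀ b, L b = opA 0 b one1 := by
      refine ⟨LinearMap.mkContinuous
        { toFun := fun b => opA 0 b (one1 : Z1 B)
          map_add' := ?_
          map_smul' := ?_ } 1 ?_, fun b => rfl⟩
      · intro a b
        apply Z1.ext
        intro β
        change (a + b) * (one1 : Z1 B).co (β - 0)
          = a * (one1 : Z1 B).co (β - 0) + b * (one1 : Z1 B).co (β - 0)
        rw [add_mul]
      · intro r b
        rw [opA_smul]; rfl
      · intro b
        calc ‖opA 0 b (one1 : Z1 B)‖ ≤ ‖opA 0 b‖ * ‖(one1 : Z1 B)‖ :=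
              ContinuousLinearMap.le_opNorm _ _
          _ ≤ ‖b‖ * 1 := by
              rw [norm_one1]; gcongr; exact norm_opA_le _ _
          _ = 1 * ‖b‖ := by ring
    obtain ⟨L, hL⟩ := hL
    simp only [← hL]
    exact L.hasSum hs1.hasSum
  have hdiff := hsum1.sub hs2
  have hmemdiff : R one1 - opA 0 (∑' x, χ x • d x) one1 ∈ K := by
    refine mem_of_hasSum hcl hdiff (fun x => ?_)
    rw [hRA, opA_smul]
    exact hχK x (opA 0 (d x) one1)
  have h8 : opA 0 (∑' x, χ x • d x) (one1 : Z1 B) ∈ K := by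
    have := K.sub_mem hR1 hmemdiff
    rwa [sub_sub_cancel] at this
  have h9 := hG.inv 0 c _ h8
  have e2 : opA 0 c (opA 0 (∑' x, χ x • d x) (one1 : Z1 B)) = one1 := by
    have := congrArg (fun C : Z1 B →L[ℂ] Z1 B => C one1) (opA_mul 0 0 c (∑' x, χ x • d x))
    rw [hc, add_zero, opA_zero_one] at this
    exact this
  rw [e2] at h9
  exact hone h9

end BP

end Pool.Agent.Helper859
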