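import Pool.Agent.Helper859.Gl

set_option autoImplicit false

namespace Pool.Agent.Helper859

open scoped ENNReal InnerProductSpace FourierTransform SchwartzMap
open Filter Topology MeasureTheory

section Combine
set_option linter.unusedSectionVars false
set_option linter.unusedVariables false

variable {E : Type} [NormedAddCommGroup E] [InnerProductSpace ℂ E] [CompleteSpace E]

/-- right multiplication family -/
noncomputable def rm (K : ℝ → E →L[ℂ] E) (t : ℝ) : (E →L[ℂ] E) →L[ℂ] (E →L[ℂ] E) :=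
  (ContinuousLinearMap.mul ℂ (E →L[ℂ] E)).flip (K t)

lemma rm_apply (K : ℝ → E →L[ℂ] E) (t : ℝ) (T : E →L[ℂ] E) : rm K t T = T * K t := rfl

lemma WS.clm {V W : Type*} [NormedAddCommGroup V] [NormedSpace ℂ V] [NormedAddCommGroup W]
    [NormedSpace ℂ W] {s : ℝ} {a : ℝ → V} (ha : WS s a) (T : V →L[ℂ] W) :
    WS s (fun x => T (a x)) :=
  ha.of_norm_le ‖T‖ (fun x => T.le_opNorm _)

lemma WS.lm {s : ℝ} {a : ℝ → E →L[ℂ] E} (ha : WS s a) : WS s (lm a) := ha.clm _
lemma WS.rm {s : ℝ} {a : ℝ → E →L[ℂ] E} (ha : WS s a) : WS s (rm a) := ha.clm _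

lemma trd_lm {a : ℝ → E →L[ℂ] E} (ha : Summable (fun x => ‖a x‖)) (ω : ℝ) (T : E →L[ℂ] E) :
    trd (lm a) ω T = trd a ω * T := by
  have h1 : trd (lm a) ω = ContinuousLinearMap.mul ℂ (E →L[ℂ] E) (trd a ω) := by
    unfold trd
    have h := (summable_ek ha ω).hasSum.mapL (ContinuousLinearMap.mul ℂ (E →L[ℂ] E))
    rw [← h.tsum_eq]
    congr 1
  rw [h1]; rfl

lemma trd_rm {a : ℝ → E →L[ℂ] E} (ha : Summable (fun x => ‖a x‖)) (ω : ℝ) (T : E →L[ℂ] E) :
    trd (rm a) ω T = T * trd a ω := by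
  have h1 : trd (rm a) ω = (ContinuousLinearMap.mul ℂ (E →L[ℂ] E)).flip (trd a ω) := by
    unfold trd
    have h := (summable_ek ha ω).hasSum.mapL (ContinuousLinearMap.mul ℂ (E →L[ℂ] E)).flip
    rw [← h.tsum_eq]
    congr 1
    funext x
    rw [map_smul]; rfl
  rw [h1]; rfl

lemma star_trf (f a : ℝ → E →L[ℂ] E) (ω : ℝ) :
    star (trf f a ω) = trf (fun t => star (f (-t))) (fun x => star (a (-x))) ω := by
  rw [trf_eq, trf_eq, star_add, star_trd]
  congr 1
  exact lt_star f ω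

lemma lm_neg {a : ℝ → E →L[ℂ] E} (ha : ∀ x < 0, a x = 0) : ∀ x < 0, lm a x = 0 := by
  intro x hx
  apply ContinuousLinearMap.ext
  intro T
  rw [lm_apply, ha x hx, zero_mul]; rfl

lemma rm_neg {a : ℝ → E →L[ℂ] E} (ha : ∀ x < 0, a x = 0) : ∀ x < 0, rm a x = 0 := by
  intro x hx
  apply ContinuousLinearMap.ext
  intro T
  rw [rm_apply, ha x hx, mul_zero]; rfl

variable [FiniteDimensional ℂ E] [Nontrivial E]

/-- spectral factorization at the operator level -/
theorem op_factor {f a : ℝ → E →L[ℂ] E} {σ ε : ℝ} (hσ : 0 < σ) (hε : 0 < ε) (hf : WI σ f)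
    (ha : WS σ a) (hsa : ∀ ω, star (trf f a ω) = trf f a ω)
    (hpos : ∀ (ω : ℝ) (v : E), ε * ‖v‖ ^ 2 ≤ (⟪v, trf f a ω v⟫_ℂ).re) :
    ∃ s : ℝ, 0 < s ∧ s ≤ σ ∧ ∃ g p g' p' : ℝ → E →L[ℂ] E,
      WI s g ∧ WS s p ∧ (∀ t < 0, g t = 0) ∧ (∀ t < 0, p t = 0) ∧
      WI s g' ∧ WS s p' ∧ (∀ t < 0, g' t = 0) ∧ (∀ t < 0, p' t = 0) ∧
      ∀ ω, trf g p ω * trf g' p' ω = 1 ∧ trf g' p' ω * trf g p ω = 1 ∧
        trf f a ω = star (trf g p ω) * trf g p ω := by
  have hfi : Integrable f := hf.integrable hσ.le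
  have ha0 : Summable (fun x => ‖a x‖) := ha.summable hσ.le
  have hsym : ∀ x, a (-x) = star (a x) := by
    have h1 : (fun x => star (a (-x))) = a := by
      apply trf_coeff_unique ((hf.star_neg).integrable hσ.le) _ hfi ha0
        (f := fun t => star (f (-t)))
      · intro ω; rw [← star_trf, hsa]
      · have := (ha.neg).summable hσ.le
        simpa only [norm_star] using this
    intro x
    have h2 : star (a (-x)) = a x := congrFun h1 x
    rw [← h2, star_star]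
  obtain ⟨s1, hs1, hs1σ, X, Xi, hXneg, hXineg, hX, hXi, hfac⟩ := disc_factor hfi hσ ha hsym hε hpos
  have hX0 := hX.summable hs1.le
  have hXi0 := hXi.summable hs1.le
  set Xs : ℝ → E →L[ℂ] E := fun x => star (X (-x)) with hXs
  have hXsW : WS s1 Xs := (hX.neg).of_norm_le 1 (fun x => by
    rw [one_mul, hXs]; simp only [norm_star]; exact le_rfl)
  have hXs0 := hXsW.summable hs1.le
  have hfs : WI s1 f := hf.mono hs1σ
  obtain ⟨hK1, hK1t⟩ := gl_main hs1.le hXsW.lm hfs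
  obtain ⟨hK, hKt⟩ := gl_main hs1.le hX.rm hK1
  set K := gl (rm X) (gl (lm Xs) f) with hKdef
  have hKt' : ∀ ω, lt K ω = star (trd X ω) * lt f ω * trd X ω := by
    intro ω
    rw [hKt, trd_rm hX0, hK1t, trd_lm hXs0, star_trd]
  have hG : ∀ ω, 1 + lt K ω = star (trd X ω) * trf f a ω * trd X ω := by
    intro ω
    rw [hKt', ← (hfac ω).2.2, trf_eq]
    change _ = star (trd X ω) * (lt f ω + trd a ω) * trd X ω
    noncomm_ring
  have hKsa : ∀ ω, star (lt K ω) = lt K ω := by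
    intro ω
    have h1 : star (1 + lt K ω) = 1 + lt K ω := by
      rw [hG, star_mul, star_mul, star_star, hsa, mul_assoc]
    rw [star_add, star_one] at h1
    exact add_left_cancel h1
  set B := (∑' x, ‖Xi x‖) + 1 with hB
  have hBpos : 0 < B := by
    have : 0 ≤ ∑' x, ‖Xi x‖ := tsum_nonneg (fun x => norm_nonneg _)
    linarith
  have hKpos : ∀ (ω : ℝ) (v : E), ε / B ^ 2 * ‖v‖ ^ 2 ≤ (⟪(1 + lt K ω) v, v⟫_ℂ).re := by
    intro ω v
    have h1 : ⟪(1 + lt K ω) v, v⟫_ℂ = ⟪trf f a ω (trd X ω v), trd X ω v⟫_ℂ := by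
      rw [hG, mul_apply_eq_comp, mul_apply_eq_comp, ContinuousLinearMap.star_eq_adjoint,
        ContinuousLinearMap.adjoint_inner_left]
    have h2 : (⟪trf f a ω (trd X ω v), trd X ω v⟫_ℂ).re
        = (⟪trd X ω v, trf f a ω (trd X ω v)⟫_ℂ).re := by
      rw [← inner_conj_symm, Complex.conj_re]
    rw [h1, h2]
    refine le_trans ?_ (hpos ω (trd X ω v))
    have h3 : ‖v‖ ≤ B * ‖trd X ω v‖ := by
      have e : trd Xi ω (trd X ω v) = v := by
        rw [← mul_apply_eq_comp, (hfac ω).1]; rfl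
      calc ‖v‖ = ‖trd Xi ω (trd X ω v)‖ := by rw [e]
        _ ≤ ‖trd Xi ω‖ * ‖trd X ω v‖ := ContinuousLinearMap.le_opNorm _ _
        _ ≤ B * ‖trd X ω v‖ := by
            gcongr
            exact (norm_trd_le hXi0 ω).trans (by linarith)
    calc ε / B ^ 2 * ‖v‖ ^ 2 ≤ ε / B ^ 2 * (B * ‖trd X ω v‖) ^ 2 := by gcongr
      _ = ε * ‖trd X ω v‖ ^ 2 := by field_simp
  obtain ⟨s, hs, hss1, n, z, hn, hz, hnneg, hzneg, hfac2⟩ :=
    cont_factor hs1 (by positivity : 0 < ε / B ^ 2) hK hKsa hKpos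
  have hXss : WS s X := hX.mono hss1
  have hXiss : WS s Xi := hXi.mono hss1
  obtain ⟨hg, hgt⟩ := gl_main hs.le hXiss.rm hz
  obtain ⟨hg', hg't⟩ := gl_main hs.le hXss.lm hn
  have hgt' : ∀ ω, lt (gl (rm Xi) z) ω = lt z ω * trd Xi ω := fun ω => by
    rw [hgt, trd_rm hXi0]
  have hg't' : ∀ ω, lt (gl (lm X) n) ω = trd X ω * lt n ω := fun ω => by
    rw [hg't, trd_lm hX0]
  have hR : ∀ ω, trf (gl (rm Xi) z) Xi ω = (1 + lt z ω) * trd Xi ω := by
    intro ω
    rw [trf_eq]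
    change lt (gl (rm Xi) z) ω + trd Xi ω = _
    rw [hgt', add_mul, one_mul, add_comm]
  have hR' : ∀ ω, trf (gl (lm X) n) X ω = trd X ω * (1 + lt n ω) := by
    intro ω
    rw [trf_eq]
    change lt (gl (lm X) n) ω + trd X ω = _
    rw [hg't', mul_add, mul_one, add_comm]
  refine ⟨s, hs, hss1.trans hs1σ, gl (rm Xi) z, Xi, gl (lm X) n, X, hg, hXiss,
    fun t ht => gl_causal (rm_neg hXineg) hzneg ht, hXineg, hg', hXss,
    fun t ht => gl_causal (lm_neg hXneg) hnneg ht, hXneg, fun ω => ?_⟩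
  obtain ⟨h1, h2, h3⟩ := hfac ω
  obtain ⟨h4, h5, h6⟩ := hfac2 ω
  have e1 : trf (gl (rm Xi) z) Xi ω * trf (gl (lm X) n) X ω = 1 := by
    rw [hR, hR']
    calc (1 + lt z ω) * trd Xi ω * (trd X ω * (1 + lt n ω))
        = (1 + lt z ω) * (trd Xi ω * trd X ω) * (1 + lt n ω) := by simp only [mul_assoc]
      _ = 1 := by rw [h1, mul_one, h4]
  have e2 : trf (gl (lm X) n) X ω * trf (gl (rm Xi) z) Xi ω = 1 := clm_mul_eq_one_comm e1
  refine ⟨e1, e2, ?_⟩
  have e3 : star (trf (gl (lm X) n) X ω) * trf f a ω * trf (gl (lm X) n) X ω = 1 := by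
    rw [hR', star_mul]
    calc star (1 + lt n ω) * star (trd X ω) * trf f a ω * (trd X ω * (1 + lt n ω))
        = star (1 + lt n ω) * (star (trd X ω) * trf f a ω * trd X ω) * (1 + lt n ω) := by
          simp only [mul_assoc]
      _ = 1 := by rw [← hG, h6]
  set R := trf (gl (rm Xi) z) Xi ω with hRdef
  set R' := trf (gl (lm X) n) X ω with hR'def
  have e4 : star R * star R' = 1 := by rw [← star_mul, e2, star_one]
  calc trf f a ω = (star R * star R') * trf f a ω * (R' * R) := by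
        rw [e4, e2, one_mul, mul_one]
    _ = star R * (star R' * trf f a ω * R') * R := by simp only [mul_assoc]
    _ = star R * R := by rw [e3, mul_one]

end Combine

end Pool.Agent.Helper859
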