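import Pool.Agent.Helper859.Solve2

set_option autoImplicit false

namespace Pool.Agent.Helper859

open scoped ENNReal InnerProductSpace FourierTransform SchwartzMap
open Filter Topology MeasureTheory

section ContFact
set_option linter.unusedSectionVars false
set_option linter.unusedVariables false

variable {E : Type} [NormedAddCommGroup E] [InnerProductSpace ℂ E] [CompleteSpace E]

lemma lt_star (c : ℝ → E →L[ℂ] E) (ω : ℝ) : star (lt c ω) = lt (fun t => star (c (-t))) ω := by
  unfold lt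
  have h1 : star (∫ t, ek ω t • c t) = ∫ t, star (ek ω t • c t) :=
    ((starL' ℝ : (E →L[ℂ] E) ≃L[ℝ] (E →L[ℂ] E)).integral_comp_comm (fun t => ek ω t • c t)).symm
  rw [h1, ← integral_neg_eq_self]
  congr 1
  funext t
  rw [star_smul]
  congr 1
  exact (conj_ek ω (-t)).trans (by rw [neg_neg])

lemma WI.star_neg {s : ℝ} {c : ℝ → E →L[ℂ] E} (hc : WI s c) :
    WI s (fun t => star (c (-t))) := by
  have hqm : Measure.QuasiMeasurePreserving (fun t : ℝ => -t) volume volume :=
    (Measure.measurePreserving_neg (volume : Measure ℝ)).quasiMeasurePreserving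
  refine ⟨?_, ?_⟩
  · exact (hc.1.comp_quasiMeasurePreserving hqm).star
  · have := hc.2.comp_neg
    refine this.congr (Eventually.of_forall (fun t => ?_))
    simp only [norm_star, abs_neg]

/-- left multiplication kernel -/
noncomputable def lm (K : ℝ → E →L[ℂ] E) (t : ℝ) : (E →L[ℂ] E) →L[ℂ] (E →L[ℂ] E) :=
  ContinuousLinearMap.mul ℂ (E →L[ℂ] E) (K t)

lemma lm_apply (K : ℝ → E →L[ℂ] E) (t : ℝ) (T : E →L[ℂ] E) : lm K t T = K t * T := rfl

lemma WI.lm {s : ℝ} {K : ℝ → E →L[ℂ] E} (hK : WI s K) : WI s (lm K) := hK.clm _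

lemma lt_lm {K : ℝ → E →L[ℂ] E} (hK : Integrable K) (ω : ℝ) (T : E →L[ℂ] E) :
    lt (lm K) ω T = lt K ω * T := by
  have : lt (lm K) ω = ContinuousLinearMap.mul ℂ (E →L[ℂ] E) (lt K ω) := lt_clm hK _ ω
  rw [this]; rfl

lemma lt_prod {K n : ℝ → E →L[ℂ] E} {s : ℝ} (hs : 0 ≤ s) (hK : WI s K) (hn : WI s n) (ω : ℝ) :
    lt (cv (lm K) n) ω = lt K ω * lt n ω := by
  rw [lt_cv (hK.lm.integrable hs) (hn.integrable hs), lt_lm (hK.integrable hs)]

/-- `1 + K + n + K * n` at kernel level -/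
noncomputable def pk (K n : ℝ → E →L[ℂ] E) (t : ℝ) : E →L[ℂ] E :=
  K t + n t + cv (lm K) n t

lemma WI.pk {K n : ℝ → E →L[ℂ] E} {s : ℝ} (hs : 0 ≤ s) (hK : WI s K) (hn : WI s n) :
    WI s (pk K n) :=
  (hK.add hn).add (hK.lm.cv hs hn)

lemma lt_pk {K n : ℝ → E →L[ℂ] E} {s : ℝ} (hs : 0 ≤ s) (hK : WI s K) (hn : WI s n) (ω : ℝ) :
    1 + lt (pk K n) ω = (1 + lt K ω) * (1 + lt n ω) := by
  have h1 := lt_add ((hK.add hn).integrable hs) ((hK.lm.cv hs hn).integrable hs) ω
  have h2 := lt_add (hK.integrable hs) (hn.integrable hs) ω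
  have h3 := lt_prod hs hK hn ω
  have h4 : lt (pk K n) ω = lt K ω + lt n ω + lt K ω * lt n ω := by
    rw [← h3, ← h2, ← h1]; rfl
  rw [h4]
  noncomm_ring

lemma cv_causal {V W : Type*} [NormedAddCommGroup V] [NormedSpace ℂ V] [NormedAddCommGroup W]
    [NormedSpace ℂ W] {k : ℝ → V →L[ℂ] W} {y : ℝ → V} (hk : ∀ t < 0, k t = 0)
    (hy : ∀ t < 0, y t = 0) {t : ℝ} (ht : t < 0) : cv k y t = 0 := by
  unfold cv
  rw [← integral_zero (μ := (volume : Measure ℝ)) (α := ℝ) (G := W)]
  congr 1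
  funext u
  rcases lt_or_ge u 0 with hu | hu
  · rw [hk u hu]; rfl
  · rw [hy (t - u) (by linarith), map_zero]

variable [FiniteDimensional ℂ E]

lemma clm_mul_eq_one_comm {S T : E →L[ℂ] E} (h : S * T = 1) : T * S = 1 := by
  have h2 := congrArg (fun T : E →L[ℂ] E => (T : E →ₗ[ℂ] E)) h
  have h3 : (S : E →ₗ[ℂ] E) * (T : E →ₗ[ℂ] E) = 1 := h2
  have h4 := mul_eq_one_comm.mp h3
  ext v
  exact congrArg (fun T : E →ₗ[ℂ] E => T v) h4

/-- factorization of `1 + K^` -/
theorem cont_factor {K : ℝ → E →L[ℂ] E} {s0 ε : ℝ} (hs0 : 0 < s0) (hε : 0 < ε) (hK : WI s0 K)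
    (hsa : ∀ ω, star (lt K ω) = lt K ω)
    (hpos : ∀ (ω : ℝ) (v : E), ε * ‖v‖ ^ 2 ≤ (⟪(1 + lt K ω) v, v⟫_ℂ).re) :
    ∃ s : ℝ, 0 < s ∧ s ≤ s0 ∧ ∃ n z : ℝ → E →L[ℂ] E, WI s n ∧ WI s z ∧ (∀ t < 0, n t = 0) ∧
      (∀ t < 0, z t = 0) ∧ ∀ ω, (1 + lt z ω) * (1 + lt n ω) = 1 ∧
        (1 + lt n ω) * (1 + lt z ω) = 1 ∧
        star (1 + lt n ω) * (1 + lt K ω) * (1 + lt n ω) = 1 := by
  have hpos' : ∀ (ω : ℝ) (v : E),
      ε * ‖v‖ ^ 2 ≤ ‖v‖ ^ 2 + (⟪(∫ t, ek ω t • K t) v, v⟫_ℂ).re := by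
    intro ω v
    have h := hpos ω v
    rw [add_apply, one_apply_eq_self, inner_add_left, Complex.add_re] at h
    have : (⟪v, v⟫_ℂ).re = ‖v‖ ^ 2 := by
      rw [inner_self_eq_norm_sq_to_K]; norm_cast
    rw [this] at h
    exact h
  obtain ⟨s, hs, hss, H⟩ := wh_solve hs0 hε hK hpos'
  choose nv hn1 hn2 hn3 using H
  have hKs : WI s K := hK.mono hss
  set b := stdOrthonormalBasis ℂ E with hb
  set n : ℝ → E →L[ℂ] E := fun t => ∑ i, (ContinuousLinearMap.smulRightL ℂ E E
    (innerSL ℂ (b i))) (nv (b i) t) with hn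
  have hnW : WI s n := WI.finset_sum _ (fun i _ => (hn1 (b i)).clm _)
  have hnneg : ∀ t < 0, n t = 0 := by
    intro t ht
    simp only [hn]
    apply Finset.sum_eq_zero
    intro i _
    rw [hn2 (b i) t ht, map_zero]
  have hnb : ∀ t j, n t (b j) = nv (b j) t := by
    intro t j
    simp only [hn]
    rw [sum_apply, Finset.sum_eq_single j]
    · simp [ContinuousLinearMap.smulRightL_apply_apply]
    · intro i _ hij
      have : ⟪b i, b j⟫_ℂ = 0 := b.orthonormal.2 hij
      simp [ContinuousLinearMap.smulRightL_apply_apply, this]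
    · intro h; exact absurd (Finset.mem_univ _) h
  set c := pk K n with hc
  have hcW : WI s c := WI.pk hs.le hKs hnW
  have hKi : Integrable K := hKs.integrable hs.le
  have hni : Integrable n := hnW.integrable hs.le
  have hc0 : ∀ᵐ t, 0 ≤ t → c t = 0 := by
    have h1 : ∀ᵐ t, ∀ j, 0 ≤ t → nv (b j) t + cv K (nv (b j)) t + K t (b j) = 0 := by
      rw [ae_all_iff]; intro j; exact hn3 (b j)
    have h2 := (young_one (hKs.lm.integrable hs.le) (memLp_one_iff_integrable.mpr hni)).1
    filter_upwards [h1, h2] with t h3 h4 ht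
    apply ContinuousLinearMap.coe_injective
    apply b.toBasis.ext
    intro j
    have h5 : (cv (lm K) n t) (b j) = cv K (nv (b j)) t := by
      unfold cv
      rw [ContinuousLinearMap.integral_apply h4]
      congr 1
      funext u
      rw [lm_apply, mul_apply_eq_comp, hnb]
    have h6 := h3 j ht
    simp only [hc, pk, OrthonormalBasis.coe_toBasis, ContinuousLinearMap.coe_coe,
      add_apply, h5, hnb, zero_apply]
    rw [← h6]
    abel
  -- the adjoint kernel
  set z : ℝ → E →L[ℂ] E := (Set.Ici (0 : ℝ)).indicator (fun t => star (c (-t))) with hz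
  have hzc : z =ᵐ[volume] fun t => star (c (-t)) := by
    have hqm : Measure.QuasiMeasurePreserving (fun t : ℝ => -t) volume volume :=
      (Measure.measurePreserving_neg (volume : Measure ℝ)).quasiMeasurePreserving
    filter_upwards [hqm.ae hc0] with t ht
    by_cases h0 : 0 ≤ t
    · rw [hz, Set.indicator_of_mem (Set.mem_Ici.mpr h0)]
    · rw [hz, Set.indicator_of_notMem (by simpa using h0), ht (by linarith), star_zero]
  have hzW : WI s z := hcW.star_neg.congr hzc.symm
  have hzneg : ∀ t < 0, z t = 0 := by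
    intro t ht
    rw [hz, Set.indicator_of_notMem (by simpa using ht)]
  have hltz : ∀ ω, lt z ω = star (lt c ω) := by
    intro ω
    rw [lt_star]
    exact lt_congr hzc ω
  have h1z : ∀ ω, 1 + lt z ω = star (1 + lt n ω) * (1 + lt K ω) := by
    intro ω
    have h1 : 1 + lt z ω = star (1 + lt c ω) := by rw [hltz, star_add, star_one]
    rw [h1, hc, lt_pk hs.le hKs hnW, star_mul]
    congr 1
    rw [star_add, star_one, hsa]
  -- product is self-adjoint and causal
  set m := pk z n with hm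
  have hmW : WI s m := WI.pk hs.le hzW hnW
  have hmi : Integrable m := hmW.integrable hs.le
  have h1m : ∀ ω, 1 + lt m ω = star (1 + lt n ω) * (1 + lt K ω) * (1 + lt n ω) := by
    intro ω
    rw [hm, lt_pk hs.le hzW hnW, h1z]
  have hsam : ∀ ω, star (lt m ω) = lt m ω := by
    intro ω
    have h1 : star (1 + lt m ω) = 1 + lt m ω := by
      rw [h1m, star_mul, star_mul, star_star, star_add 1 (lt K ω), star_one, hsa]
      rw [mul_assoc]
    rw [star_add, star_one] at h1
    exact add_left_cancel h1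
  have hmneg : ∀ t < 0, m t = 0 := by
    intro t ht
    simp only [hm, pk]
    rw [hzneg t ht, hnneg t ht, cv_causal _ hnneg ht, add_zero, add_zero]
    intro u hu
    apply ContinuousLinearMap.ext
    intro T
    rw [lm_apply, hzneg u hu, zero_mul, zero_apply]
  have hm0 : m =ᵐ[volume] 0 := by
    have hq : Integrable (fun t => (-1 : ℂ) • star (m (-t))) :=
      (hmW.star_neg.integrable hs.le).smul (-1 : ℂ)
    have h1 := lt_injective (m := fun t => m t + (-1 : ℂ) • star (m (-t)))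
      (hmi.add hq) (by
        intro ω
        rw [lt_add hmi hq]
        have h2 : lt (fun t => (-1 : ℂ) • star (m (-t))) ω = (-1 : ℂ) • star (lt m ω) := by
          rw [lt_star]
          unfold lt
          rw [← integral_smul]
          congr 1
          funext t
          rw [smul_comm]
        rw [h2, hsam, neg_smul, one_smul, add_neg_cancel])
    have h3 : ∀ᵐ t : ℝ, t ≠ 0 := by
      rw [ae_iff]
      simp
    filter_upwards [h1, h3] with t ht ht0
    simp only [Pi.zero_apply] at ht ⊢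
    rcases lt_or_gt_of_ne ht0 with h4 | h4
    · exact hmneg t h4
    · rw [hmneg (-t) (by linarith), star_zero, smul_zero, add_zero] at ht
      exact ht
  have hltm : ∀ ω, lt m ω = 0 := by
    intro ω
    rw [lt_congr hm0]
    unfold lt
    simp
  refine ⟨s, hs, hss, n, z, hnW, hzW, hnneg, hzneg, fun ω => ?_⟩
  have h3 : star (1 + lt n ω) * (1 + lt K ω) * (1 + lt n ω) = 1 := by
    rw [← h1m, hltm, add_zero]
  have h4 : (1 + lt z ω) * (1 + lt n ω) = 1 := by rw [h1z, h3]
  exact ⟨h4, clm_mul_eq_one_comm h4, h3⟩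

end ContFact

end Pool.Agent.Helper859
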