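import Pool.Agent.Helper859.Mean

set_option autoImplicit false

namespace Pool.Agent.Helper859

open Filter Topology MeasureTheory

section Conv
set_option linter.unusedSectionVars false
set_option linter.unusedVariables false

variable {R : Type*} [NormedRing R] [NormedAlgebra ℂ R] [CompleteSpace R]

/-- discrete transform -/
noncomputable def trd {V : Type*} [NormedAddCommGroup V] [NormedSpace ℂ V] (a : ℝ → V) (ω : ℝ) : V :=
  ∑' x, ek ω x • a x

/-- convolution of coefficient functions on the discrete real line -/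
noncomputable def dconv (a b : ℝ → R) (u : ℝ) : R := ∑' x, a (u - x) * b x

/-- the shear `(u, x) ↦ (u - x, x)` -/
def shear : ℝ × ℝ ≃ ℝ × ℝ where
  toFun p := (p.1 - p.2, p.2)
  invFun p := (p.1 + p.2, p.2)
  left_inv p := by simp
  right_inv p := by simp

/-- weighted summability -/
def WS {V : Type*} [NormedAddCommGroup V] (s : ℝ) (a : ℝ → V) : Prop :=
  Summable (fun x => ‖a x‖ * Real.exp (s * |x|))

lemma WS.summable {V : Type*} [NormedAddCommGroup V] {s : ℝ} (hs : 0 ≤ s) {a : ℝ → V}
    (h : WS s a) : Summable (fun x => ‖a x‖) := by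
  refine Summable.of_nonneg_of_le (fun _ => norm_nonneg _) (fun x => ?_) h
  have h2 : 1 ≤ Real.exp (s * |x|) := Real.one_le_exp (by positivity)
  nlinarith [norm_nonneg (a x)]

lemma WS.mono {V : Type*} [NormedAddCommGroup V] {s s' : ℝ} (hs : s' ≤ s) {a : ℝ → V}
    (h : WS s a) : WS s' a := by
  refine Summable.of_nonneg_of_le (fun _ => by positivity) (fun x => ?_) h
  apply mul_le_mul_of_nonneg_left _ (norm_nonneg _)
  exact Real.exp_le_exp.mpr (mul_le_mul_of_nonneg_right hs (abs_nonneg _))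

lemma WS.neg {V : Type*} [NormedAddCommGroup V] {s : ℝ} {a : ℝ → V}
    (h : WS s a) : WS s (fun x => a (-x)) := by
  have := h.comp_injective neg_injective
  unfold WS
  simpa [Function.comp_def] using this

lemma WS.of_norm_le {V W : Type*} [NormedAddCommGroup V] [NormedAddCommGroup W] {s : ℝ}
    {a : ℝ → V} {b : ℝ → W} (h : WS s a) (C : ℝ) (hb : ∀ x, ‖b x‖ ≤ C * ‖a x‖) : WS s b := by
  refine Summable.of_nonneg_of_le (fun _ => by positivity) (fun x => ?_) (h.mul_left C)
  calc ‖b x‖ * Real.exp (s * |x|) ≤ (C * ‖a x‖) * Real.exp (s * |x|) :=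
        mul_le_mul_of_nonneg_right (hb x) (Real.exp_pos _).le
    _ = C * (‖a x‖ * Real.exp (s * |x|)) := by ring

/-- weighted norms are summable over the product -/
lemma summable_shear {s : ℝ} (hs : 0 ≤ s) {a b : ℝ → R} (ha : WS s a) (hb : WS s b) :
    Summable (fun p : ℝ × ℝ => ‖a (p.1 - p.2) * b p.2‖ * Real.exp (s * |p.1|)) := by
  have h1 : Summable (fun p : ℝ × ℝ => (‖a p.1‖ * Real.exp (s * |p.1|)) *
      (‖b p.2‖ * Real.exp (s * |p.2|))) :=
    Summable.mul_of_nonneg ha hb (fun _ => by positivity) (fun _ => by positivity)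
  have h2 := (shear.summable_iff (f := fun p : ℝ × ℝ => (‖a p.1‖ * Real.exp (s * |p.1|)) *
      (‖b p.2‖ * Real.exp (s * |p.2|)))).mpr h1
  refine Summable.of_nonneg_of_le (fun _ => by positivity) (fun p => ?_) h2
  simp only [Function.comp, shear, Equiv.coe_fn_mk]
  have h3 : Real.exp (s * |p.1|) ≤ Real.exp (s * |p.1 - p.2|) * Real.exp (s * |p.2|) := by
    rw [← Real.exp_add, ← mul_add]
    apply Real.exp_le_exp.mpr
    apply mul_le_mul_of_nonneg_left _ hs
    calc |p.1| = |(p.1 - p.2) + p.2| := by ring_nf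
      _ ≤ _ := abs_add_le _ _
  calc ‖a (p.1 - p.2) * b p.2‖ * Real.exp (s * |p.1|)
      ≤ (‖a (p.1 - p.2)‖ * ‖b p.2‖) * (Real.exp (s * |p.1 - p.2|) * Real.exp (s * |p.2|)) := by
        gcongr
        exact norm_mul_le _ _
    _ = _ := by ring

lemma summable_shear' {a b : ℝ → R} (ha : Summable (fun x => ‖a x‖))
    (hb : Summable (fun x => ‖b x‖)) :
    Summable (fun p : ℝ × ℝ => a (p.1 - p.2) * b p.2) := by
  have h := summable_shear le_rfl (s := 0) (a := a) (b := b) (by simpa [WS] using ha)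
    (by simpa [WS] using hb)
  simp only [zero_mul, Real.exp_zero, mul_one] at h
  exact h.of_norm

lemma dconv_WS {s : ℝ} (hs : 0 ≤ s) {a b : ℝ → R} (ha : WS s a) (hb : WS s b) :
    WS s (dconv a b) := by
  have h := summable_shear hs ha hb
  have h1 := h.prod
  refine Summable.of_nonneg_of_le (fun _ => by positivity) (fun u => ?_) h1
  change ‖dconv a b u‖ * Real.exp (s * |u|)
    ≤ ∑' c : ℝ, ‖a (u - c) * b c‖ * Real.exp (s * |u|)
  rw [tsum_mul_right]
  apply mul_le_mul_of_nonneg_right _ (Real.exp_pos _).le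
  unfold dconv
  apply norm_tsum_le_tsum_norm
  have h2 := h.prod_factor u
  have h3 : (fun x => ‖a (u - x) * b x‖ * Real.exp (s * |u|)) = fun x =>
    (fun y => ‖a (u - y) * b y‖) x * Real.exp (s * |u|) := rfl
  simp only at h2
  rw [h3] at h2
  exact (summable_mul_right_iff (Real.exp_pos _).ne').mp h2

lemma dconv_hasSum {a b : ℝ → R} (ha : Summable (fun x => ‖a x‖))
    (hb : Summable (fun x => ‖b x‖)) (u : ℝ) :
    HasSum (fun x => a (u - x) * b x) (dconv a b u) :=
  ((summable_shear' ha hb).prod_factor u).hasSum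

lemma trd_dconv {a b : ℝ → R} (ha : Summable (fun x => ‖a x‖))
    (hb : Summable (fun x => ‖b x‖)) (ω : ℝ) :
    trd (dconv a b) ω = trd a ω * trd b ω := by
  have ha' : Summable (fun x => ‖ek ω x • a x‖) := by
    simpa only [norm_smul, norm_ek, one_mul] using ha
  have hb' : Summable (fun x => ‖ek ω x • b x‖) := by
    simpa only [norm_smul, norm_ek, one_mul] using hb
  unfold trd
  rw [tsum_mul_tsum_of_summable_norm ha' hb']
  have h1 : Summable (fun p : ℝ × ℝ => ek ω (p.1 - p.2) • a (p.1 - p.2) * ek ω p.2 • b p.2) :=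
    summable_shear' (a := fun x => ek ω x • a x) (b := fun x => ek ω x • b x) ha' hb'
  have h2 : ∑' z : ℝ × ℝ, ek ω z.1 • a z.1 * ek ω z.2 • b z.2
      = ∑' p : ℝ × ℝ, ek ω (p.1 - p.2) • a (p.1 - p.2) * ek ω p.2 • b p.2 := by
    rw [← shear.tsum_eq]
    rfl
  rw [h2, h1.tsum_prod]
  congr 1
  funext u
  rw [← (dconv_hasSum ha hb u).tsum_eq, ← tsum_const_smul'']
  congr 1
  funext x
  rw [smul_mul_smul_comm, ← ek_add]
  congr 2
  ring

end Conv

end Pool.Agent.Helper859
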