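import Mathlib

set_option autoImplicit false

namespace Pool.Agent.Helper859

open MeasureTheory Filter Topology
open scoped Interval

section Mean
set_option linter.unusedSectionVars false
set_option linter.unusedVariables false

/-- the exponential `exp (-i ω t)` -/
noncomputable def ek (ω t : ℝ) : ℂ := Complex.exp (-((ω : ℂ) * (t : ℂ) * Complex.I))

lemma ek_def (ω t : ℝ) : ek ω t = Complex.exp (-((ω : ℂ) * (t : ℂ) * Complex.I)) := rfl

lemma norm_ek (ω t : ℝ) : ‖ek ω t‖ = 1 := by
  have : ek ω t = Complex.exp (((-(ω * t) : ℝ) : ℂ) * Complex.I) := by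
    rw [ek_def]; push_cast; ring_nf
  rw [this, Complex.norm_exp_ofReal_mul_I]

lemma ek_add (ω s t : ℝ) : ek ω (s + t) = ek ω s * ek ω t := by
  simp only [ek_def]; rw [← Complex.exp_add]; push_cast; ring_nf

@[simp] lemma ek_zero (ω : ℝ) : ek ω 0 = 1 := by simp [ek_def]

lemma ek_neg (ω t : ℝ) : ek ω (-t) = (starRingEnd ℂ) (ek ω t) := by
  simp only [ek_def]
  rw [← Complex.exp_conj]
  simp

lemma conj_ek (ω t : ℝ) : (starRingEnd ℂ) (ek ω t) = ek ω (-t) := (ek_neg ω t).symm

lemma ek_mul_neg (ω t : ℝ) : ek ω t * ek ω (-t) = 1 := by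
  rw [← ek_add, add_neg_cancel, ek_zero]

lemma continuous_ek_right (ω : ℝ) : Continuous (fun t => ek ω t) := by
  unfold ek; fun_prop

lemma continuous_ek_left (t : ℝ) : Continuous (fun ω => ek ω t) := by
  unfold ek; fun_prop

lemma continuous_ek : Continuous (fun q : ℝ × ℝ => ek q.1 q.2) := by
  unfold ek; fun_prop

variable {V : Type*} [NormedAddCommGroup V] [NormedSpace ℂ V] [CompleteSpace V]

/-- mean value over `[0, ∞)` -/
def HasMean (g : ℝ → V) (m : V) : Prop :=
  Tendsto (fun L : ℝ => (L⁻¹ : ℝ) • ∫ ω in (0 : ℝ)..L, g ω) atTop (𝓝 m)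

/-- averages of exponentials -/
noncomputable def kap (L t : ℝ) : ℂ := (L⁻¹ : ℝ) • ∫ ω in (0 : ℝ)..L, ek ω t

lemma norm_kap_le {L : ℝ} (hL : 0 < L) (t : ℝ) : ‖kap L t‖ ≤ 1 := by
  unfold kap
  rw [norm_smul, Real.norm_of_nonneg (by positivity)]
  have : ‖∫ ω in (0 : ℝ)..L, ek ω t‖ ≤ 1 * |L - 0| :=
    intervalIntegral.norm_integral_le_of_norm_le_const (fun x _ => (norm_ek x t).le)
  rw [sub_zero, abs_of_pos hL, one_mul] at this
  calc L⁻¹ * ‖∫ ω in (0 : ℝ)..L, ek ω t‖ ≤ L⁻¹ * L := by gcongr
    _ = 1 := inv_mul_cancel₀ hL.ne'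

lemma mean_ek (t : ℝ) : Tendsto (fun L : ℝ => kap L t) atTop (𝓝 (if t = 0 then 1 else 0)) := by
  by_cases ht : t = 0
  · subst ht
    simp only [if_true]
    apply tendsto_const_nhds.congr'
    filter_upwards [eventually_gt_atTop 0] with L hL
    simp [kap, hL.ne']
  · simp only [if_neg ht]
    rw [tendsto_zero_iff_norm_tendsto_zero]
    have hb : ∀ᶠ L : ℝ in atTop, ‖kap L t‖ ≤ (2 / |t|) * L⁻¹ := by
      filter_upwards [eventually_gt_atTop 0] with L hL
      have hc : (-((t : ℂ) * Complex.I)) ≠ 0 := by
        simp [ht]
      have h1 : ∫ ω in (0 : ℝ)..L, ek ω t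
          = (Complex.exp (-((t : ℂ) * Complex.I) * L) - Complex.exp (-((t : ℂ) * Complex.I) * (0 : ℝ)))
            / (-((t : ℂ) * Complex.I)) := by
        rw [← integral_exp_mul_complex hc]
        congr 1
        funext ω
        rw [ek_def]; ring_nf
      unfold kap
      rw [h1, norm_smul, norm_div, Real.norm_of_nonneg (by positivity)]
      have h2 : ‖(-((t : ℂ) * Complex.I))‖ = |t| := by simp
      have h3 : ‖Complex.exp (-((t : ℂ) * Complex.I) * L)
          - Complex.exp (-((t : ℂ) * Complex.I) * (0 : ℝ))‖ ≤ 2 := by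
        refine (norm_sub_le _ _).trans ?_
        have e1 : ‖Complex.exp (-((t : ℂ) * Complex.I) * L)‖ = 1 := by
          have := norm_ek L t
          rw [ek_def] at this
          rw [← this]; ring_nf
        have e2 : ‖Complex.exp (-((t : ℂ) * Complex.I) * (0 : ℝ))‖ = 1 := by simp
        rw [e1, e2]; norm_num
      rw [h2, mul_comm]
      gcongr
    refine squeeze_zero' (Eventually.of_forall fun _ => norm_nonneg _) hb ?_
    have := tendsto_inv_atTop_zero (𝕜 := ℝ)
    simpa using this.const_mul (2 / |t|)

lemma countable_supp {a : ℝ → V} (ha : Summable (fun x => ‖a x‖)) :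
    (Function.support a).Countable := by
  have h := ha.countable_support
  have e : Function.support (fun x => ‖a x‖) = Function.support a := by
    ext x; simp
  rwa [e] at h

lemma summable_ek {a : ℝ → V} (ha : Summable (fun x => ‖a x‖)) (ω : ℝ) :
    Summable (fun x => ek ω x • a x) :=
  Summable.of_norm_bounded ha (fun x => by rw [norm_smul, norm_ek, one_mul])

/-- almost periodic part -/
lemma mean_sum {a : ℝ → V} (ha : Summable (fun x => ‖a x‖)) (v : ℝ) :
    HasMean (fun ω => ek ω (-v) • ∑' x, ek ω x • a x) (a v) := by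
  have hcount : (Function.support a).Countable := countable_supp ha
  have : Countable (Function.support a) := hcount.to_subtype
  have haS : Summable (fun x : Function.support a => ‖a x‖) := ha.subtype _
  have h1 : ∀ L : ℝ, 0 < L → (L⁻¹ : ℝ) • ∫ ω in (0 : ℝ)..L, ek ω (-v) • ∑' x, ek ω x • a x
      = ∑' x : Function.support a, kap L (x - v) • a x := by
    intro L hL
    have h2 : HasSum (fun x : Function.support a => ∫ ω in (0 : ℝ)..L, ek ω (x - v) • a x)
        (∫ ω in (0 : ℝ)..L, ek ω (-v) • ∑' x, ek ω x • a x) := by
      apply intervalIntegral.hasSum_integral_of_dominated_convergence (ι := Function.support a)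
        (F := fun (x : Function.support a) ω => ek ω (x - v) • a x)
        (bound := fun x _ => ‖a x‖)
      · intro x
        exact ((continuous_ek_left _).smul continuous_const).aestronglyMeasurable
      · intro x
        refine Eventually.of_forall (fun ω _ => ?_)
        rw [norm_smul, norm_ek, one_mul]
      · exact Eventually.of_forall (fun ω _ => haS)
      · exact intervalIntegrable_const
      · refine Eventually.of_forall (fun ω _ => ?_)
        have h3 : HasSum (fun x : Function.support a => ek ω x • a x) (∑' x, ek ω x • a x) := by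
          have h3' := (hasSum_subtype_iff_of_support_subset
            (f := fun x : ℝ => ek ω x • a x) (a := ∑' x, ek ω x • a x)
            (s := Function.support a) (by
              intro x hx
              simp only [Function.mem_support] at hx ⊢
              intro h0; apply hx; rw [h0, smul_zero])).mpr (summable_ek ha ω).hasSum
          exact h3'
        have h4 := h3.const_smul (ek ω (-v))
        convert h4 using 2 with x
        rw [smul_smul, sub_eq_neg_add, ek_add]
    have h5 := h2.const_smul (L⁻¹ : ℝ)
    rw [← h5.tsum_eq]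
    congr 1
    funext x
    rw [intervalIntegral.integral_smul_const, kap, smul_assoc]
  have h6 : Tendsto (fun L : ℝ => ∑' x : Function.support a, kap L (x - v) • a x) atTop
      (𝓝 (∑' x : Function.support a, (if (x : ℝ) - v = 0 then (1 : ℂ) else 0) • a x)) := by
    apply tendsto_tsum_of_dominated_convergence haS
    · intro x
      exact (mean_ek ((x : ℝ) - v)).smul_const (a x)
    · filter_upwards [eventually_gt_atTop 0] with L hL x
      rw [norm_smul]
      calc ‖kap L (x - v)‖ * ‖a x‖ ≤ 1 * ‖a x‖ := by gcongr; exact norm_kap_le hL _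
        _ = ‖a x‖ := one_mul _
  have h7 : ∑' x : Function.support a, (if (x : ℝ) - v = 0 then (1 : ℂ) else 0) • a x = a v := by
    rw [tsum_subtype_eq_of_support_subset (f := fun x : ℝ => (if x - v = 0 then (1 : ℂ) else 0) • a x)]
    · rw [tsum_eq_single v]
      · simp
      · intro b hb
        have : b - v ≠ 0 := sub_ne_zero.mpr hb
        simp [this]
    · intro x hx
      simp only [Function.mem_support] at hx ⊢
      intro h0; apply hx; rw [h0, smul_zero]
  rw [h7] at h6
  unfold HasMean
  refine h6.congr' ?_
  filter_upwards [eventually_gt_atTop 0] with L hL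
  rw [h1 L hL]

/-- absolutely continuous part -/
lemma mean_int {f : ℝ → V} (hf : Integrable f) (v : ℝ) :
    HasMean (fun ω => ek ω (-v) • ∫ t, ek ω t • f t) 0 := by
  have h1 : ∀ L : ℝ, 0 < L → (L⁻¹ : ℝ) • ∫ ω in (0 : ℝ)..L, ek ω (-v) • ∫ t, ek ω t • f t
      = ∫ t, kap L (t - v) • f t := by
    intro L hL
    have h2 : ∫ ω in (0 : ℝ)..L, ek ω (-v) • ∫ t, ek ω t • f t
        = ∫ ω in (0 : ℝ)..L, ∫ t, ek ω (t - v) • f t := by
      congr 1
      funext ω
      rw [← integral_smul]
      congr 1
      funext t
      rw [smul_smul, sub_eq_neg_add, ek_add]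
    rw [h2, intervalIntegral_integral_swap]
    · rw [← integral_smul]
      congr 1
      funext t
      rw [intervalIntegral.integral_smul_const, kap, smul_assoc]
    · have hfm : IsFiniteMeasure (volume.restrict (Set.uIoc (0 : ℝ) L)) := by
        rw [Set.uIoc]; infer_instance
      have hi : Integrable (fun q : ℝ × ℝ => f q.2)
          ((volume.restrict (Set.uIoc 0 L)).prod volume) := hf.comp_snd _
      refine hi.mono ?_ ?_
      · apply AEStronglyMeasurable.smul _ hi.aestronglyMeasurable
        apply Continuous.aestronglyMeasurable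
        unfold ek; fun_prop
      · refine Eventually.of_forall (fun q => ?_)
        simp only [Function.uncurry, norm_smul, norm_ek, one_mul, le_refl]
  have h3 : Tendsto (fun L : ℝ => ∫ t, kap L (t - v) • f t) atTop (𝓝 (∫ t : ℝ, (0 : V))) := by
    apply tendsto_integral_filter_of_dominated_convergence (fun t => ‖f t‖)
    · refine Eventually.of_forall (fun L => ?_)
      apply AEStronglyMeasurable.smul _ hf.aestronglyMeasurable
      apply Continuous.aestronglyMeasurable
      unfold kap
      have hc : Continuous (fun t : ℝ => ∫ ω in (0 : ℝ)..L, ek ω (t - v)) := by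
        apply intervalIntegral.continuous_parametric_intervalIntegral_of_continuous'
        unfold ek; simp only [Function.uncurry_def]; fun_prop
      exact (continuous_const (y := (L⁻¹ : ℝ))).smul hc
    · filter_upwards [eventually_gt_atTop 0] with L hL
      refine Eventually.of_forall (fun t => ?_)
      rw [norm_smul]
      calc ‖kap L (t - v)‖ * ‖f t‖ ≤ 1 * ‖f t‖ := by gcongr; exact norm_kap_le hL _
        _ = ‖f t‖ := one_mul _
    · exact hf.norm
    · have hne : ∀ᵐ t : ℝ, t ≠ v := by
        rw [ae_iff]; simp
      filter_upwards [hne] with t ht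
      have h := (mean_ek (t - v)).smul_const (f t)
      rw [if_neg (sub_ne_zero.mpr ht), zero_smul] at h
      exact h
  rw [integral_zero] at h3
  unfold HasMean
  refine h3.congr' ?_
  filter_upwards [eventually_gt_atTop 0] with L hL
  rw [h1 L hL]

/-- the transform of `f dt + Σ a_x δ_x` -/
noncomputable def trf (f : ℝ → V) (a : ℝ → V) (ω : ℝ) : V :=
  (∫ t, ek ω t • f t) + ∑' x, ek ω x • a x

lemma integrable_ek {f : ℝ → V} (hf : Integrable f) (ω : ℝ) :
    Integrable (fun t => ek ω t • f t) := by
  refine hf.mono ?_ ?_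
  · exact (continuous_ek_right ω).aestronglyMeasurable.smul hf.aestronglyMeasurable
  · exact Eventually.of_forall (fun t => by rw [norm_smul, norm_ek, one_mul])

lemma continuous_trf {f a : ℝ → V} (hf : Integrable f) (ha : Summable (fun x => ‖a x‖)) :
    Continuous (trf f a) := by
  unfold trf
  apply Continuous.add
  · apply continuous_of_dominated (bound := fun t => ‖f t‖)
    · intro ω; exact (integrable_ek hf ω).aestronglyMeasurable
    · intro ω; exact Eventually.of_forall (fun t => by rw [norm_smul, norm_ek, one_mul])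
    · exact hf.norm
    · exact Eventually.of_forall (fun t => (continuous_ek_left t).smul continuous_const)
  · apply continuous_tsum (u := fun x => ‖a x‖)
    · intro x; exact (continuous_ek_left x).smul continuous_const
    · exact ha
    · intro x ω; rw [norm_smul, norm_ek, one_mul]

lemma HasMean.add {g h : ℝ → V} {m n : V} (hg : HasMean g m) (hh : HasMean h n)
    (cg : Continuous g) (ch : Continuous h) : HasMean (fun ω => g ω + h ω) (m + n) := by
  unfold HasMean at *
  refine (Tendsto.add hg hh).congr (fun L => ?_)
  rw [intervalIntegral.integral_add (cg.intervalIntegrable _ _) (ch.intervalIntegrable _ _),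
    smul_add]

lemma mean_trf {f a : ℝ → V} (hf : Integrable f) (ha : Summable (fun x => ‖a x‖)) (v : ℝ) :
    HasMean (fun ω => ek ω (-v) • trf f a ω) (a v) := by
  have h0 : ∀ x : ℝ → V, (fun y => ‖(0 : ℝ → V) y‖) = fun _ => 0 := by intro x; simp
  have hc1 : Continuous (fun ω => ∫ t, ek ω t • f t) := by
    have := continuous_trf hf (a := fun _ => (0 : V)) (by simp)
    unfold trf at this
    simpa using this
  have hc2 : Continuous (fun ω => ∑' x, ek ω x • a x) := by
    have := continuous_trf (f := fun _ => (0 : V)) (by simp) ha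
    unfold trf at this
    simpa using this
  have h := (mean_int hf v).add (mean_sum ha v) ((continuous_ek_left _).smul hc1)
    ((continuous_ek_left _).smul hc2)
  rw [zero_add] at h
  simp only [← smul_add] at h
  exact h

lemma HasMean.comp_clm {W : Type*} [NormedAddCommGroup W] [NormedSpace ℂ W] [CompleteSpace W]
    {g : ℝ → V} {m : V} (hg : HasMean g m) (cg : Continuous g) (T : V →L[ℂ] W) :
    HasMean (fun ω => T (g ω)) (T m) := by
  unfold HasMean at *
  refine ((T.continuous.tendsto m).comp hg).congr (fun L => ?_)
  simp only [Function.comp]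
  rw [T.intervalIntegral_comp_comm (cg.intervalIntegrable _ _)]
  exact T.map_smul_of_tower _ _

lemma HasMean.unique {g : ℝ → V} {m n : V} (h1 : HasMean g m) (h2 : HasMean g n) : m = n :=
  tendsto_nhds_unique h1 h2

lemma HasMean.finset_sum {ι : Type*} (s : Finset ι) {g : ι → ℝ → V} {m : ι → V}
    (hg : ∀ i ∈ s, HasMean (g i) (m i)) (cg : ∀ i ∈ s, Continuous (g i)) :
    HasMean (fun ω => ∑ i ∈ s, g i ω) (∑ i ∈ s, m i) := by
  classical
  induction s using Finset.induction_on with
  | empty => simp [HasMean]
  | insert i s hi ih =>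
    simp only [Finset.sum_insert hi]
    apply HasMean.add (hg i (Finset.mem_insert_self _ _))
      (ih (fun j hj => hg j (Finset.mem_insert_of_mem hj))
        (fun j hj => cg j (Finset.mem_insert_of_mem hj)))
      (cg i (Finset.mem_insert_self _ _))
    exact continuous_finsetSum _ (fun j hj => cg j (Finset.mem_insert_of_mem hj))

/-- uniqueness of the discrete coefficients -/
lemma trf_coeff_unique {f a g b : ℝ → V} (hf : Integrable f) (ha : Summable (fun x => ‖a x‖))
    (hg : Integrable g) (hb : Summable (fun x => ‖b x‖)) (h : ∀ ω, trf f a ω = trf g b ω) :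
    a = b := by
  funext v
  have h1 := mean_trf hf ha v
  have h2 := mean_trf hg hb v
  simp only [h] at h1
  exact h1.unique h2

end Mean

end Pool.Agent.Helper859
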