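import Pool.Agent.Helper859.BP
import Pool.Agent.Helper859.Mean

set_option autoImplicit false

namespace Pool.Agent.Helper859

open scoped ENNReal InnerProductSpace
open Filter Topology MeasureTheory

section Disc
set_option linter.unusedSectionVars false
set_option linter.unusedVariables false

/-- nonnegative reals as an index set -/
abbrev Nn : Type := {x : ℝ // 0 ≤ x}

variable {E : Type} [NormedAddCommGroup E] [InnerProductSpace ℂ E] [CompleteSpace E]

/-- the Hilbert space `ℓ²([0,∞); E)` (discrete index) -/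
def HH (E : Type) [NormedAddCommGroup E] : Type := lp (fun _ : Nn => E) 2

noncomputable instance : NormedAddCommGroup (HH E) :=
  inferInstanceAs (NormedAddCommGroup (lp (fun _ : Nn => E) 2))
noncomputable instance : InnerProductSpace ℂ (HH E) :=
  inferInstanceAs (InnerProductSpace ℂ (lp (fun _ : Nn => E) 2))
instance : CompleteSpace (HH E) := inferInstanceAs (CompleteSpace (lp (fun _ : Nn => E) 2))

/-- coordinates -/
def HH.co (y : HH E) (t : Nn) : E := (show lp (fun _ : Nn => E) 2 from y) t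

lemma HH.ext {y z : HH E} (h : ∀ t, y.co t = z.co t) : y = z := lp.ext (funext h)

/-- coordinate functional -/
noncomputable def HH.ev (t : Nn) : HH E →L[ℂ] E := lp.evalCLM ℂ (fun _ : Nn => E) 2 t

lemma HH.ev_apply (t : Nn) (y : HH E) : HH.ev t y = y.co t := rfl

lemma HH.norm_ev_le (t : Nn) : ‖(HH.ev t : HH E →L[ℂ] E)‖ ≤ 1 := by
  apply ContinuousLinearMap.opNorm_le_bound _ zero_le_one
  intro y
  rw [one_mul]
  exact lp.norm_apply_le_norm (by norm_num) (show lp (fun _ : Nn => E) 2 from y) t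

/-- inclusion of a coordinate -/
noncomputable def HH.sg (t : Nn) : E →L[ℂ] HH E :=
  lp.singleContinuousLinearMap ℂ (fun _ : Nn => E) 2 t

lemma HH.sg_co_self (t : Nn) (v : E) : (HH.sg t v).co t = v :=
  lp.single_apply_self (E := fun _ : Nn => E) 2 t v

lemma HH.sg_co_ne {t t' : Nn} (v : E) (h : t' ≠ t) : (HH.sg t v).co t' = 0 :=
  lp.single_apply_ne (E := fun _ : Nn => E) 2 t v h

lemma HH.norm_sg_le (t : Nn) : ‖(HH.sg t : E →L[ℂ] HH E)‖ ≤ 1 := by
  apply ContinuousLinearMap.opNorm_le_bound _ zero_le_one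
  intro y
  rw [one_mul]
  exact (lp.norm_single (E := fun _ : Nn => E) (p := 2) (by norm_num) t y).le

lemma HH.inner_sg_left (t : Nn) (v : E) (y : HH E) : ⟪HH.sg t v, y⟫_ℂ = ⟪v, y.co t⟫_ℂ :=
  lp.inner_single_left t v (show lp (fun _ : Nn => E) 2 from y)

lemma HH.hasSum_inner (y z : HH E) : HasSum (fun t => ⟪y.co t, z.co t⟫_ℂ) ⟪y, z⟫_ℂ :=
  lp.hasSum_inner (show lp (fun _ : Nn => E) 2 from y) (show lp (fun _ : Nn => E) 2 from z)

lemma HH.hasSum_sg (y : HH E) : HasSum (fun t => HH.sg t (y.co t)) y :=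
  lp.hasSum_single (by norm_num) (show lp (fun _ : Nn => E) 2 from y)

lemma two_toReal_pos : 0 < (2 : ℝ≥0∞).toReal := by simp

/-- truncated shift index map -/
noncomputable def shi (x : ℝ) (t : Nn) : Option Nn :=
  open Classical in if h : 0 ≤ t.1 - x then some ⟨t.1 - x, h⟩ else none

lemma shi_inj (x : ℝ) (a b i : Nn) (h1 : shi x a = some i) (h2 : shi x b = some i) : a = b := by
  unfold shi at h1 h2
  split_ifs at h1 h2 with h3 h4
  have e1 := Option.some_injective _ h1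
  have e2 := Option.some_injective _ h2
  have e1' : a.1 - x = i.1 := congrArg Subtype.val e1
  have e2' : b.1 - x = i.1 := congrArg Subtype.val e2
  exact Subtype.ext (by linarith)

/-- truncated shift by `x` composed with `A` -/
noncomputable def Dop (x : ℝ) (A : E →L[ℂ] E) : HH E →L[ℂ] HH E :=
  lpOp 2 two_toReal_pos (shi x) (shi_inj x) (fun _ => A) ‖A‖ (norm_nonneg _) (fun _ => le_rfl)

lemma norm_Dop_le (x : ℝ) (A : E →L[ℂ] E) : ‖Dop x A‖ ≤ ‖A‖ := norm_lpOp_le _ _ _ _ _ _ _ _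

lemma Dop_co_of_nonneg (x : ℝ) (A : E →L[ℂ] E) (y : HH E) (t : Nn) (h : 0 ≤ t.1 - x) :
    (Dop x A y).co t = A (y.co ⟨t.1 - x, h⟩) := by
  have : (Dop x A y).co t = A (pull (shi x) y.co t) := rfl
  rw [this, pull, shi, dif_pos h]; rfl

lemma Dop_co_of_neg (x : ℝ) (A : E →L[ℂ] E) (y : HH E) (t : Nn) (h : ¬ 0 ≤ t.1 - x) :
    (Dop x A y).co t = 0 := by
  have : (Dop x A y).co t = A (pull (shi x) y.co t) := rfl
  rw [this, pull, shi, dif_neg h]
  exact map_zero A

lemma Dop_smul (x : ℝ) (c : ℂ) (A : E →L[ℂ] E) : Dop x (c • A) = c • Dop x A := by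
  ext y
  apply HH.ext
  intro t
  change (c • A) (pull (shi x) y.co t) = c • A (pull (shi x) y.co t)
  rfl

/-- a shifted coordinate vector -/
lemma Dop_sg_of_nonneg (x : ℝ) (A : E →L[ℂ] E) (t : Nn) (v : E) (h : 0 ≤ t.1 + x) :
    Dop x A (HH.sg t v) = HH.sg ⟨t.1 + x, h⟩ (A v) := by
  apply HH.ext
  intro s
  by_cases hs : 0 ≤ s.1 - x
  · rw [Dop_co_of_nonneg x A _ s hs]
    by_cases hst : s.1 = t.1 + x
    · have e1 : (⟨s.1 - x, hs⟩ : Nn) = t := Subtype.ext (show s.1 - x = t.1 by linarith)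
      have e2 : s = ⟨t.1 + x, h⟩ := Subtype.ext hst
      rw [e1, HH.sg_co_self, e2, HH.sg_co_self]
    · have e1 : (⟨s.1 - x, hs⟩ : Nn) ≠ t := by
        intro h'
        apply hst
        have := congrArg Subtype.val h'
        simp only at this
        linarith
      have e2 : s ≠ ⟨t.1 + x, h⟩ := fun h' => hst (congrArg Subtype.val h')
      rw [HH.sg_co_ne _ e1, HH.sg_co_ne _ e2, map_zero]
  · rw [Dop_co_of_neg x A _ s hs, HH.sg_co_ne]
    intro h'
    apply hs
    have := congrArg Subtype.val h'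
    simp only at this
    have ht := t.2
    linarith

lemma Dop_sg_of_neg (x : ℝ) (A : E →L[ℂ] E) (t : Nn) (v : E) (h : ¬ 0 ≤ t.1 + x) :
    Dop x A (HH.sg t v) = 0 := by
  apply HH.ext
  intro s
  have h0 : (0 : HH E).co s = 0 := rfl
  rw [h0]
  by_cases hs : 0 ≤ s.1 - x
  · rw [Dop_co_of_nonneg x A _ s hs, HH.sg_co_ne, map_zero]
    intro h'
    apply h
    have := congrArg Subtype.val h'
    simp only at this
    have hs' := s.2
    linarith
  · rw [Dop_co_of_neg x A _ s hs]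

/-- modulation -/
noncomputable def Mop (χ : ℝ → ℂ) (hχ : ∀ x, ‖χ x‖ ≤ 1) : HH E →L[ℂ] HH E :=
  lpOp 2 two_toReal_pos (fun t => some t) (by
    intro a b i h1 h2
    exact (Option.some_injective _ h1).trans (Option.some_injective _ h2).symm)
    (fun t => χ t.1 • ContinuousLinearMap.id ℂ E) 1 zero_le_one (fun t => by
      apply ContinuousLinearMap.opNorm_le_bound _ zero_le_one
      intro v
      simp only [smul_apply, ContinuousLinearMap.id_apply, norm_smul]
      gcongr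
      exact hχ _)

lemma Mop_co (χ : ℝ → ℂ) (hχ : ∀ x, ‖χ x‖ ≤ 1) (y : HH E) (t : Nn) :
    (Mop χ hχ y).co t = χ t.1 • y.co t := rfl

lemma summable_Dop {a : ℝ → E →L[ℂ] E} (ha : Summable (fun x => ‖a x‖)) :
    Summable (fun x => Dop x (a x)) :=
  Summable.of_norm_bounded ha (fun x => norm_Dop_le _ _)

/-- the Toeplitz operator with discrete symbol -/
noncomputable def Top (a : ℝ → E →L[ℂ] E) : HH E →L[ℂ] HH E := ∑' x, Dop x (a x)

lemma Top_hasSum {a : ℝ → E →L[ℂ] E} (ha : Summable (fun x => ‖a x‖)) (y : HH E) :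
    HasSum (fun x => Dop x (a x) y) (Top a y) := by
  have h := (summable_Dop ha).hasSum
  exact h.mapL (ContinuousLinearMap.apply ℂ (HH E) y)

lemma Top_sg_co {a : ℝ → E →L[ℂ] E} (ha : Summable (fun x => ‖a x‖)) (t t' : Nn) (v : E) :
    (Top a (HH.sg t v)).co t' = a (t'.1 - t.1) v := by
  have h1 := (Top_hasSum ha (HH.sg t v)).mapL (HH.ev t')
  have h2 : (fun x => HH.ev t' (Dop x (a x) (HH.sg t v)))
      = fun x => if x = t'.1 - t.1 then a x v else 0 := by
    funext x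
    rw [HH.ev_apply]
    by_cases hs : 0 ≤ t.1 + x
    · rw [Dop_sg_of_nonneg x _ t v hs]
      by_cases hx : x = t'.1 - t.1
      · have : (⟨t.1 + x, hs⟩ : Nn) = t' := Subtype.ext (by simp [hx])
        rw [this, HH.sg_co_self, if_pos hx]
      · rw [HH.sg_co_ne, if_neg hx]
        intro h'
        apply hx
        have := congrArg Subtype.val h'
        simp only at this
        linarith
    · rw [Dop_sg_of_neg x _ t v hs, if_neg]
      · rfl
      · intro hx
        apply hs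
        have := t'.2
        linarith
  rw [h2] at h1
  have h3 : HasSum (fun x => if x = t'.1 - t.1 then a x v else 0) (a (t'.1 - t.1) v) := by
    convert hasSum_ite_eq (t'.1 - t.1) (a (t'.1 - t.1) v) using 2 with x
    split_ifs with h
    · rw [h]
    · rfl
  exact h1.unique h3

/-- positivity of a finite Toeplitz form from positivity of the symbol -/
lemma finite_pos {f a : ℝ → E →L[ℂ] E} (hf : Integrable f) (ha : Summable (fun x => ‖a x‖))
    (hpos : ∀ (ω : ℝ) (v : E), 0 ≤ (⟪v, trf f a ω v⟫_ℂ).re) (s : Finset Nn) (y : Nn → E) :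
    0 ≤ (∑ t' ∈ s, ∑ t ∈ s, ⟪y t', a (t'.1 - t.1) (y t)⟫_ℂ).re := by
  -- the test function
  set yh : ℝ → E := fun ω => ∑ t ∈ s, ek ω t.1 • y t with hyh
  have hexp : ∀ ω, ⟪yh ω, trf f a ω (yh ω)⟫_ℂ
      = ∑ t' ∈ s, ∑ t ∈ s, ⟪y t', (ek ω (-(t'.1 - t.1)) • trf f a ω) (y t)⟫_ℂ := by
    intro ω
    simp only [hyh]
    rw [sum_inner]
    refine Finset.sum_congr rfl (fun t' _ => ?_)
    rw [map_sum, inner_sum]
    refine Finset.sum_congr rfl (fun t _ => ?_)
    rw [map_smul, inner_smul_left, inner_smul_right, smul_apply, inner_smul_right, conj_ek,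
      ← mul_assoc, ← ek_add]
    congr 2
    ring
  have hcont : ∀ v : ℝ, Continuous (fun ω => ek ω (-v) • trf f a ω) := fun v =>
    (continuous_ek_left _).smul (continuous_trf hf ha)
  -- mean of each term
  have hterm : ∀ t' ∈ s, ∀ t ∈ s,
      HasMean (fun ω => ⟪y t', (ek ω (-(t'.1 - t.1)) • trf f a ω) (y t)⟫_ℂ)
        ⟪y t', a (t'.1 - t.1) (y t)⟫_ℂ := by
    intro t' _ t _
    have h1 := mean_trf hf ha (t'.1 - t.1)
    exact h1.comp_clm (hcont _)
      ((innerSL ℂ (y t')) ∘L (ContinuousLinearMap.apply ℂ E (y t)))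
  have hc : ∀ t' ∈ s, ∀ t ∈ s,
      Continuous (fun ω => ⟪y t', (ek ω (-(t'.1 - t.1)) • trf f a ω) (y t)⟫_ℂ) := by
    intro t' _ t _
    exact ((innerSL ℂ (y t')) ∘L (ContinuousLinearMap.apply ℂ E (y t))).continuous.comp (hcont _)
  have hmean : HasMean (fun ω => ⟪yh ω, trf f a ω (yh ω)⟫_ℂ)
      (∑ t' ∈ s, ∑ t ∈ s, ⟪y t', a (t'.1 - t.1) (y t)⟫_ℂ) := by
    simp only [hexp]
    apply HasMean.finset_sum
    · intro t' ht'
      apply HasMean.finset_sum
      · intro t ht; exact hterm t' ht' t ht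
      · intro t ht; exact hc t' ht' t ht
    · intro t' ht'
      exact continuous_finsetSum _ (fun t ht => hc t' ht' t ht)
  have hcont2 : Continuous (fun ω => ⟪yh ω, trf f a ω (yh ω)⟫_ℂ) := by
    simp only [hexp]
    exact continuous_finsetSum _ (fun t' ht' => continuous_finsetSum _ (fun t ht => hc t' ht' t ht))
  have hre : Tendsto (fun L : ℝ => ((L⁻¹ : ℝ) • ∫ ω in (0 : ℝ)..L, ⟪yh ω, trf f a ω (yh ω)⟫_ℂ).re)
      atTop (𝓝 (∑ t' ∈ s, ∑ t ∈ s, ⟪y t', a (t'.1 - t.1) (y t)⟫_ℂ).re) :=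
    (Complex.continuous_re.tendsto _).comp hmean
  refine ge_of_tendsto hre ?_
  filter_upwards [eventually_gt_atTop 0] with L hL
  rw [Complex.real_smul, Complex.re_ofReal_mul]
  apply mul_nonneg (by positivity)
  have h5 : (∫ ω in (0 : ℝ)..L, ⟪yh ω, trf f a ω (yh ω)⟫_ℂ).re
      = ∫ ω in (0 : ℝ)..L, (⟪yh ω, trf f a ω (yh ω)⟫_ℂ).re := by
    have := Complex.reCLM.intervalIntegral_comp_comm (hcont2.intervalIntegrable (μ := volume) 0 L)
    exact this.symm
  rw [h5]
  exact intervalIntegral.integral_nonneg hL.le (fun ω _ => hpos ω _)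

lemma summable_sub_single {a : ℝ → E →L[ℂ] E} (ha : Summable (fun x => ‖a x‖)) (c : E →L[ℂ] E) :
    Summable (fun x => ‖a x - (if x = 0 then c else 0)‖) := by
  have h1 : Summable (fun x : ℝ => ‖(if x = 0 then c else (0 : E →L[ℂ] E))‖) := by
    apply summable_of_ne_finset_zero (s := {0})
    intro b hb
    have : b ≠ 0 := by simpa using hb
    simp [this]
  exact Summable.of_nonneg_of_le (fun _ => norm_nonneg _) (fun x => norm_sub_le _ _) (ha.add h1)

lemma trf_sub_single {f a : ℝ → E →L[ℂ] E} (ha : Summable (fun x => ‖a x‖)) (c : E →L[ℂ] E)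
    (ω : ℝ) : trf f (fun x => a x - (if x = 0 then c else 0)) ω = trf f a ω - c := by
  unfold trf
  have h1 : HasSum (fun x : ℝ => ek ω x • (if x = 0 then c else (0 : E →L[ℂ] E))) c := by
    convert hasSum_ite_eq (0 : ℝ) c using 2 with x
    split_ifs with h
    · rw [h, ek_zero, one_smul]
    · rw [smul_zero]
  have h2 := (summable_ek ha ω).hasSum.sub h1
  simp only [← smul_sub] at h2
  rw [h2.tsum_eq]
  abel

/-- coercivity of the Toeplitz operator -/
lemma Top_coercive {f a : ℝ → E →L[ℂ] E} (hf : Integrable f) (ha : Summable (fun x => ‖a x‖))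
    {ε : ℝ} (hpos : ∀ (ω : ℝ) (v : E), ε * ‖v‖ ^ 2 ≤ (⟪v, trf f a ω v⟫_ℂ).re) (y : HH E) :
    ε * ‖y‖ ^ 2 ≤ (⟪y, Top a y⟫_ℂ).re := by
  set c : E →L[ℂ] E := (ε : ℂ) • ContinuousLinearMap.id ℂ E with hc
  have hin : ∀ v : E, (⟪v, c v⟫_ℂ).re = ε * ‖v‖ ^ 2 := by
    intro v
    rw [hc, smul_apply, ContinuousLinearMap.id_apply, inner_smul_right,
      inner_self_eq_norm_sq_to_K]
    rw [Complex.re_ofReal_mul]
    congr 1
    norm_cast
  have h1 : ∀ s : Finset Nn, 0 ≤ (⟪∑ t ∈ s, HH.sg t (y.co t), Top a (∑ t ∈ s, HH.sg t (y.co t))⟫_ℂ).re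
      - ε * (∑ t ∈ s, ⟪y.co t, y.co t⟫_ℂ).re := by
    intro s
    have h2 := finite_pos hf (summable_sub_single ha c) (by
      intro ω v
      rw [trf_sub_single ha c ω, sub_apply, inner_sub_right, Complex.sub_re, hin]
      linarith [hpos ω v]) s y.co
    have h3 : (⟪∑ t ∈ s, HH.sg t (y.co t), Top a (∑ t ∈ s, HH.sg t (y.co t))⟫_ℂ)
        = ∑ t' ∈ s, ∑ t ∈ s, ⟪y.co t', a (t'.1 - t.1) (y.co t)⟫_ℂ := by
      rw [sum_inner]
      refine Finset.sum_congr rfl (fun t' _ => ?_)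
      rw [map_sum, inner_sum]
      refine Finset.sum_congr rfl (fun t _ => ?_)
      rw [HH.inner_sg_left, Top_sg_co ha]
    have h4 : ∑ t' ∈ s, ∑ t ∈ s,
        ⟪y.co t', (a (t'.1 - t.1) - (if t'.1 - t.1 = 0 then c else 0)) (y.co t)⟫_ℂ
        = ∑ t' ∈ s, ∑ t ∈ s, ⟪y.co t', a (t'.1 - t.1) (y.co t)⟫_ℂ
          - ∑ t ∈ s, ⟪y.co t, c (y.co t)⟫_ℂ := by
      rw [← Finset.sum_sub_distrib]
      refine Finset.sum_congr rfl (fun t' ht' => ?_)
      have h5 : ⟪y.co t', c (y.co t')⟫_ℂ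
          = ∑ t ∈ s, ⟪y.co t', (if t'.1 - t.1 = 0 then c else 0) (y.co t)⟫_ℂ := by
        rw [Finset.sum_eq_single t']
        · simp
        · intro b _ hb
          have : t'.1 - b.1 ≠ 0 := by
            intro h
            apply hb
            exact Subtype.ext (by linarith)
          rw [if_neg this]
          simp
        · intro h; exact absurd ht' h
      rw [h5, ← Finset.sum_sub_distrib]
      refine Finset.sum_congr rfl (fun t _ => ?_)
      rw [sub_apply, inner_sub_right]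
    rw [h4, ← h3, Complex.sub_re] at h2
    have h6 : (∑ t ∈ s, ⟪y.co t, c (y.co t)⟫_ℂ).re = ε * (∑ t ∈ s, ⟪y.co t, y.co t⟫_ℂ).re := by
      rw [Complex.re_sum, Complex.re_sum, Finset.mul_sum]
      refine Finset.sum_congr rfl (fun t _ => ?_)
      rw [hin, inner_self_eq_norm_sq_to_K]
      norm_cast
    rw [h6] at h2
    exact h2
  have hy : Tendsto (fun s : Finset Nn => ∑ t ∈ s, HH.sg t (y.co t)) atTop (𝓝 y) := HH.hasSum_sg y
  have ht1 : Tendsto (fun s : Finset Nn =>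
      (⟪∑ t ∈ s, HH.sg t (y.co t), Top a (∑ t ∈ s, HH.sg t (y.co t))⟫_ℂ).re) atTop
      (𝓝 (⟪y, Top a y⟫_ℂ).re) :=
    (Complex.continuous_re.tendsto _).comp (hy.inner (((Top a).continuous.tendsto _).comp hy))
  have ht2 : Tendsto (fun s : Finset Nn => (∑ t ∈ s, ⟪y.co t, y.co t⟫_ℂ).re) atTop
      (𝓝 (⟪y, y⟫_ℂ).re) := (Complex.continuous_re.tendsto _).comp (HH.hasSum_inner y y)
  have h7 := ge_of_tendsto (ht1.sub (ht2.const_mul ε)) (Eventually.of_forall h1)
  have h8 : (⟪y, y⟫_ℂ).re = ‖y‖ ^ 2 := by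
    rw [inner_self_eq_norm_sq_to_K]; norm_cast
  rw [h8] at h7
  linarith

/-- coercivity is preserved by modulation -/
lemma Top_mod_coercive {a : ℝ → E →L[ℂ] E} (ha : Summable (fun x => ‖a x‖)) {ε : ℝ}
    (hco : ∀ y : HH E, ε * ‖y‖ ^ 2 ≤ (⟪y, Top a y⟫_ℂ).re)
    (χ : ℝ → ℂ) (hmul : ∀ x y, χ (x + y) = χ x * χ y) (h0 : χ 0 = 1)
    (hn : ∀ x, ‖χ x‖ = 1) (y : HH E) :
    ε * ‖y‖ ^ 2 ≤ (⟪y, Top (fun x => χ x • a x) y⟫_ℂ).re := by
  have hχ' : ∀ x, ‖χ x‖ ≤ 1 := fun x => (hn x).le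
  have hχc : ∀ x, ‖(starRingEnd ℂ) (χ x)‖ ≤ 1 := fun x => by rw [RCLike.norm_conj]; exact hχ' x
  set M := Mop (E := E) χ hχ' with hM
  set N := Mop (E := E) (fun x => (starRingEnd ℂ) (χ x)) hχc with hN
  have hmn : ∀ x, χ x * (starRingEnd ℂ) (χ x) = 1 := by
    intro x
    rw [Complex.mul_conj, Complex.normSq_eq_norm_sq, hn]; simp
  have hinn : ∀ u w : HH E, ⟪u, M w⟫_ℂ = ⟪N u, w⟫_ℂ := by
    intro u w
    have h1 := HH.hasSum_inner u (M w)
    have h2 := HH.hasSum_inner (N u) w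
    refine h1.unique ?_
    convert h2 using 2 with t
    rw [Mop_co, Mop_co, inner_smul_right, inner_smul_left, Complex.conj_conj]
  have hnorm : ‖N y‖ ^ 2 = ‖y‖ ^ 2 := by
    have h1 : ⟪N y, N y⟫_ℂ = ⟪y, y⟫_ℂ := by
      rw [← hinn]
      congr 1
      apply HH.ext
      intro t
      rw [Mop_co, Mop_co, smul_smul, hmn, one_smul]
    have h2 : ∀ z : HH E, (⟪z, z⟫_ℂ).re = ‖z‖ ^ 2 := fun z => by
      rw [inner_self_eq_norm_sq_to_K]; norm_cast
    rw [← h2, ← h2, h1]
  have hna : Summable (fun x => ‖χ x • a x‖) := by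
    simpa only [norm_smul, hn, one_mul] using ha
  have hconj : Top (fun x => χ x • a x) y = M (Top a (N y)) := by
    have h1 := Top_hasSum hna y
    have h2 := (Top_hasSum ha (N y)).mapL M
    refine h1.unique ?_
    convert h2 using 2 with x
    apply HH.ext
    intro t
    rw [Mop_co]
    by_cases hs : 0 ≤ t.1 - x
    · rw [Dop_co_of_nonneg _ _ _ _ hs, Dop_co_of_nonneg _ _ _ _ hs, Mop_co, map_smul, smul_smul,
        smul_apply]
      congr 1
      have e1 : χ t.1 = χ x * χ (t.1 - x) := by rw [← hmul]; congr 1; ring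
      rw [e1, mul_assoc, hmn, mul_one]
    · rw [Dop_co_of_neg _ _ _ _ hs, Dop_co_of_neg _ _ _ _ hs, smul_zero]
  rw [hconj, hinn, ← hnorm]
  exact hco (N y)

lemma Dop_sub (x : ℝ) (A A' : E →L[ℂ] E) : Dop x (A - A') = Dop x A - Dop x A' := by
  ext y
  apply HH.ext
  intro t
  change (A - A') (pull (shi x) y.co t) = A (pull (shi x) y.co t) - A' (pull (shi x) y.co t)
  rfl

lemma norm_Top_sub_le {a b : ℝ → E →L[ℂ] E} (ha : Summable (fun x => ‖a x‖))
    (hb : Summable (fun x => ‖b x‖)) : ‖Top a - Top b‖ ≤ ∑' x, ‖a x - b x‖ := by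
  have hab : Summable (fun x => ‖a x - b x‖) :=
    Summable.of_nonneg_of_le (fun _ => norm_nonneg _) (fun x => norm_sub_le _ _) (ha.add hb)
  have h1 : HasSum (fun x => Dop x (a x - b x)) (Top a - Top b) := by
    have h2 := (summable_Dop ha).hasSum.sub (summable_Dop hb).hasSum
    simp only [← Dop_sub] at h2
    exact h2
  rw [← h1.tsum_eq]
  exact tsum_of_norm_bounded hab.hasSum (fun x => norm_Dop_le _ _)

/-- small exponential weights -/
lemma exists_weight {a : ℝ → E →L[ℂ] E} {σ : ℝ} (hσ : 0 < σ)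
    (ha : Summable (fun x => ‖a x‖ * Real.exp (σ * |x|))) {δ : ℝ} (hδ : 0 < δ) :
    ∃ s : ℝ, 0 < s ∧ s ≤ σ ∧ Summable (fun x => ‖((Real.exp (-s * x) : ℝ) : ℂ) • a x‖) ∧
      ∑' x, ‖a x‖ * |Real.exp (-s * x) - 1| ≤ δ := by
  have hbd : ∀ s : ℝ, 0 ≤ s → s ≤ σ → ∀ x : ℝ, Real.exp (-s * x) ≤ Real.exp (σ * |x|) := by
    intro s hs hsσ x
    apply Real.exp_le_exp.mpr
    calc -s * x ≤ |(-s) * x| := le_abs_self _
      _ = s * |x| := by rw [abs_mul, abs_neg, abs_of_nonneg hs]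
      _ ≤ σ * |x| := by gcongr
  have hbd2 : ∀ s : ℝ, 0 ≤ s → s ≤ σ → ∀ x : ℝ, |Real.exp (-s * x) - 1| ≤ Real.exp (σ * |x|) := by
    intro s hs hsσ x
    have h1 := hbd s hs hsσ x
    have h2 : 1 ≤ Real.exp (σ * |x|) := Real.one_le_exp (by positivity)
    have h3 := Real.exp_pos (-s * x)
    rw [abs_le]
    constructor <;> linarith
  have hlim : Tendsto (fun s : ℝ => ∑' x, ‖a x‖ * |Real.exp (-s * x) - 1|) (𝓝[>] 0)
      (𝓝 (∑' x : ℝ, (0 : ℝ))) := by
    apply tendsto_tsum_of_dominated_convergence ha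
    · intro x
      have h1 : Tendsto (fun s : ℝ => ‖a x‖ * |Real.exp (-s * x) - 1|) (𝓝 0)
          (𝓝 (‖a x‖ * |Real.exp (-0 * x) - 1|)) := by
        apply Continuous.tendsto
        fun_prop
      simp only [neg_zero, zero_mul, Real.exp_zero, sub_self, abs_zero, mul_zero] at h1
      exact h1.mono_left nhdsWithin_le_nhds
    · have hev : ∀ᶠ s : ℝ in 𝓝[>] 0, s ≤ σ := by
        have : ∀ᶠ s : ℝ in 𝓝 0, s < σ := (continuous_id.tendsto (0 : ℝ)).eventually (gt_mem_nhds hσ)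
        exact (this.filter_mono nhdsWithin_le_nhds).mono (fun _ h => h.le)
      filter_upwards [hev, self_mem_nhdsWithin] with s hs hs0 x
      rw [norm_mul, norm_norm, Real.norm_eq_abs, abs_abs]
      gcongr
      exact hbd2 s (le_of_lt hs0) hs x
  rw [tsum_zero] at hlim
  have hev : ∀ᶠ s : ℝ in 𝓝[>] 0, s ≤ σ := by
    have : ∀ᶠ s : ℝ in 𝓝 0, s < σ := (continuous_id.tendsto (0 : ℝ)).eventually (gt_mem_nhds hσ)
    exact (this.filter_mono nhdsWithin_le_nhds).mono (fun _ h => h.le)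
  obtain ⟨s, hs1, hs2, hs3⟩ := ((hlim.eventually (gt_mem_nhds hδ)).and
    (hev.and self_mem_nhdsWithin)).exists
  have hs3' : 0 < s := hs3
  refine ⟨s, hs3', hs2, ?_, hs1.le⟩
  refine Summable.of_nonneg_of_le (fun _ => norm_nonneg _) (fun x => ?_) ha
  rw [norm_smul, Complex.norm_real, Real.norm_of_nonneg (Real.exp_pos _).le, mul_comm]
  exact mul_le_mul_of_nonneg_left (hbd s hs3'.le hs2 x) (norm_nonneg _)

/-- solution of the discrete Toeplitz equation in weighted `ℓ¹` -/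
theorem disc_solve [Nontrivial E] {f a : ℝ → E →L[ℂ] E} (hf : Integrable f) {σ : ℝ} (hσ : 0 < σ)
    (ha : Summable (fun x => ‖a x‖ * Real.exp (σ * |x|))) {ε : ℝ} (hε : 0 < ε)
    (hpos : ∀ (ω : ℝ) (v : E), ε * ‖v‖ ^ 2 ≤ (⟪v, trf f a ω v⟫_ℂ).re) :
    ∃ s : ℝ, 0 < s ∧ s ≤ σ ∧ ∃ Y : ℝ → E →L[ℂ] E, (∀ r, r < 0 → Y r = 0) ∧
      Summable (fun x => ‖Y x‖ * Real.exp (s * |x|)) ∧
      ∀ t, 0 ≤ t → HasSum (fun x => Y (t + x) * a x) (if t = 0 then 1 else 0) := by
  have ha0 : Summable (fun x => ‖a x‖) := by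
    refine Summable.of_nonneg_of_le (fun _ => norm_nonneg _) (fun x => ?_) ha
    have h2 : 1 ≤ Real.exp (σ * |x|) := Real.one_le_exp (by positivity)
    nlinarith [norm_nonneg (a x)]
  obtain ⟨s, hs0, hsσ, hsum, hsmall⟩ := exists_weight hσ ha (half_pos hε)
  have : Nontrivial (HH E) := by
    obtain ⟨v, hv⟩ := exists_ne (0 : E)
    refine ⟨⟨HH.sg ⟨0, le_rfl⟩ v, 0, fun h => hv ?_⟩⟩
    have := congrArg (fun y : HH E => y.co ⟨0, le_rfl⟩) h
    simp only [HH.sg_co_self] at this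
    exact this
  set b : ℝ → E →L[ℂ] E := fun x => ((Real.exp (-s * x) : ℝ) : ℂ) • a x with hb
  have hco := Top_coercive hf ha0 hpos
  -- Bochner-Phillips
  obtain ⟨g, hg, hgs⟩ := bochner_phillips (B := HH E →L[ℂ] HH E) (fun x => Dop x (b x))
    (Summable.of_nonneg_of_le (fun _ => norm_nonneg _) (fun x => norm_Dop_le _ _) hsum) (by
      intro χ h0 hmul hn
      have hco' := Top_mod_coercive ha0 hco χ hmul h0 hn
      have hna : Summable (fun x => ‖χ x • a x‖) := by
        simpa only [norm_smul, hn, one_mul] using ha0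
      have hnb : Summable (fun x => ‖χ x • b x‖) := by
        simpa only [norm_smul (χ _), hn, one_mul] using hsum
      have hT : ∑' x, χ x • Dop x (b x) = Top (fun x => χ x • b x) := by
        unfold Top
        simp only [Dop_smul]
      have hdiff : ‖Top (fun x => χ x • b x) - Top (fun x => χ x • a x)‖ ≤ ε / 2 := by
        refine (norm_Top_sub_le hnb hna).trans ?_
        have : (fun x => ‖χ x • b x - χ x • a x‖) = fun x => ‖a x‖ * |Real.exp (-s * x) - 1| := by
          funext x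
          rw [← smul_sub, norm_smul, hn, one_mul, hb]
          have e1 : ((Real.exp (-s * x) : ℝ) : ℂ) • a x - a x
              = (((Real.exp (-s * x) - 1 : ℝ)) : ℂ) • a x := by
            push_cast
            rw [sub_smul, one_smul]
          simp only [e1]
          rw [norm_smul, Complex.norm_real, Real.norm_eq_abs, mul_comm]
        rw [this]
        exact hsmall
      have hunit : IsUnit (Top (fun x => χ x • b x)) := by
        apply ContinuousLinearMap.isUnit_of_forall_le_norm_inner_map _ (c := ⟨ε / 2, by positivity⟩)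
        · exact (by positivity : (0 : ℝ) < ε / 2)
        · intro y
          have h1 := hco' y
          have h2 : (⟪y, (Top (fun x => χ x • b x) - Top (fun x => χ x • a x)) y⟫_ℂ).re
              ≥ - (ε / 2 * ‖y‖ ^ 2) := by
            have h3 : ‖⟪y, (Top (fun x => χ x • b x) - Top (fun x => χ x • a x)) y⟫_ℂ‖
                ≤ ε / 2 * ‖y‖ ^ 2 := by
              calc _ ≤ ‖y‖ * ‖(Top (fun x => χ x • b x) - Top (fun x => χ x • a x)) y‖ :=
                    norm_inner_le_norm _ _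
                _ ≤ ‖y‖ * (ε / 2 * ‖y‖) := by
                    gcongr
                    exact (ContinuousLinearMap.le_opNorm _ _).trans (by gcongr)
                _ = ε / 2 * ‖y‖ ^ 2 := by ring
            have h4 := (Complex.abs_re_le_norm _).trans h3
            exact (abs_le.mp h4).1
          rw [sub_apply, inner_sub_right, Complex.sub_re] at h2
          have h5 : ε / 2 * ‖y‖ ^ 2 ≤ (⟪y, Top (fun x => χ x • b x) y⟫_ℂ).re := by linarith
          calc ‖y‖ ^ 2 * (ε / 2) = ε / 2 * ‖y‖ ^ 2 := by ring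
            _ ≤ (⟪y, Top (fun x => χ x • b x) y⟫_ℂ).re := h5
            _ ≤ ‖⟪y, Top (fun x => χ x • b x) y⟫_ℂ‖ := (le_abs_self _).trans (Complex.abs_re_le_norm _)
            _ = ‖⟪Top (fun x => χ x • b x) y, y⟫_ℂ‖ := norm_inner_symm _ _
      obtain ⟨u, hu⟩ := hunit
      refine ⟨((u⁻¹ : (HH E →L[ℂ] HH E)ˣ) : HH E →L[ℂ] HH E), ?_⟩
      rw [hT, ← hu]
      exact u.inv_mul)
  -- the solution
  set Y0 : ℝ → E →L[ℂ] E := fun r => open Classical in
    if h : 0 ≤ r then (HH.ev ⟨0, le_rfl⟩ ∘L g (-r)) ∘L HH.sg ⟨r, h⟩ else 0 with hY0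
  have hY0norm : ∀ r, ‖Y0 r‖ ≤ ‖g (-r)‖ := by
    intro r
    simp only [hY0]
    split_ifs with h
    · calc ‖(HH.ev ⟨0, le_rfl⟩ ∘L g (-r)) ∘L HH.sg ⟨r, h⟩‖
          ≤ ‖(HH.ev ⟨0, le_rfl⟩ ∘L g (-r) : HH E →L[ℂ] E)‖ * ‖(HH.sg ⟨r, h⟩ : E →L[ℂ] HH E)‖ :=
            ContinuousLinearMap.opNorm_comp_le _ _
        _ ≤ (‖(HH.ev ⟨0, le_rfl⟩ : HH E →L[ℂ] E)‖ * ‖g (-r)‖) * ‖(HH.sg ⟨r, h⟩ : E →L[ℂ] HH E)‖ := by
            gcongr
            exact ContinuousLinearMap.opNorm_comp_le _ _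
        _ ≤ (1 * ‖g (-r)‖) * 1 := by
            gcongr
            · exact HH.norm_ev_le _
            · exact HH.norm_sg_le _
        _ = ‖g (-r)‖ := by ring
    · rw [norm_zero]; exact norm_nonneg _
  have hgneg : Summable (fun r => ‖g (-r)‖) := hg.comp_injective neg_injective
  have hY0sum : Summable (fun r => ‖Y0 r‖) :=
    Summable.of_nonneg_of_le (fun _ => norm_nonneg _) hY0norm hgneg
  have hY0eq : ∀ t, 0 ≤ t → HasSum (fun x => Y0 (t + x) * b x) (if t = 0 then 1 else 0) := by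
    intro t ht
    have h1 := hgs (-t)
    set Φ : (HH E →L[ℂ] HH E) →L[ℂ] (E →L[ℂ] E) :=
      (ContinuousLinearMap.compL ℂ (E) (HH E) E (HH.ev ⟨0, le_rfl⟩)) ∘L
        ((ContinuousLinearMap.compL ℂ E (HH E) (HH E)).flip (HH.sg ⟨t, ht⟩)) with hΦ
    have hΦapp : ∀ T : HH E →L[ℂ] HH E, ∀ v : E, Φ T v = (T (HH.sg ⟨t, ht⟩ v)).co ⟨0, le_rfl⟩ :=
      fun T v => rfl
    have h2 := h1.mapL Φ
    have h3 : Φ (if -t = 0 then 1 else 0) = if t = 0 then 1 else 0 := by
      by_cases h : t = 0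
      · subst h
        simp only [neg_zero, if_true]
        ext v
        rw [hΦapp]
        change (HH.sg ⟨0, ht⟩ v).co ⟨0, le_rfl⟩ = v
        exact HH.sg_co_self _ _
      · have h' : -t ≠ 0 := neg_ne_zero.mpr h
        simp only [if_neg h, if_neg h', map_zero]
    rw [h3] at h2
    convert h2 using 2 with x
    ext v
    rw [hΦapp]
    change Y0 (t + x) (b x v) = (g (-t - x) (Dop x (b x) (HH.sg ⟨t, ht⟩ v))).co ⟨0, le_rfl⟩
    by_cases hx : 0 ≤ t + x
    · rw [Dop_sg_of_nonneg x _ ⟨t, ht⟩ v hx]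
      simp only [hY0]
      rw [dif_pos hx]
      have : -t - x = -(t + x) := by ring
      rw [this]
      rfl
    · rw [Dop_sg_of_neg x _ ⟨t, ht⟩ v hx, map_zero]
      simp only [hY0]
      rw [dif_neg hx]
      rfl
  refine ⟨s, hs0, hsσ, fun r => ((Real.exp (-s * r) : ℝ) : ℂ) • Y0 r, ?_, ?_, ?_⟩
  · intro r hr
    have : Y0 r = 0 := by
      simp only [hY0]
      rw [dif_neg (not_le.mpr hr)]
    simp only [this, smul_zero]
  · refine hY0sum.congr (fun r => ?_)
    rw [norm_smul, Complex.norm_real, Real.norm_of_nonneg (Real.exp_pos _).le]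
    by_cases hr : 0 ≤ r
    · rw [abs_of_nonneg hr, mul_comm (Real.exp _), mul_assoc, ← Real.exp_add]
      simp
    · have : Y0 r = 0 := by
        simp only [hY0]
        rw [dif_neg hr]
      simp [this]
  · intro t ht
    have h1 := (hY0eq t ht).const_smul ((Real.exp (-s * t) : ℝ) : ℂ)
    have h2 : ((Real.exp (-s * t) : ℝ) : ℂ) • (if t = 0 then (1 : E →L[ℂ] E) else 0)
        = if t = 0 then 1 else 0 := by
      split_ifs with h
      · rw [h]; simp
      · rw [smul_zero]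
    rw [h2] at h1
    convert h1 using 2 with x
    simp only [hb]
    rw [mul_smul_comm, smul_smul, smul_mul_assoc]
    congr 1
    rw [← Complex.ofReal_mul, ← Real.exp_add]
    congr 2
    ring

end Disc

end Pool.Agent.Helper859
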