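import Pool.Agent.Helper859.Disc
import Pool.Agent.Helper859.Conv

set_option autoImplicit false

namespace Pool.Agent.Helper859

open scoped ENNReal InnerProductSpace
open Filter Topology MeasureTheory

section Fact
set_option linter.unusedSectionVars false
set_option linter.unusedVariables false

variable {E : Type} [NormedAddCommGroup E] [InnerProductSpace ℂ E] [CompleteSpace E]

lemma star_trd (a : ℝ → E →L[ℂ] E) (ω : ℝ) :
    star (trd a ω) = trd (fun x => star (a (-x))) ω := by
  unfold trd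
  rw [tsum_star]
  rw [← (Equiv.neg ℝ).tsum_eq]
  congr 1
  funext x
  simp only [Equiv.neg_apply]
  rw [star_smul]
  congr 1
  exact conj_ek ω (-x) |>.trans (by rw [neg_neg])

/-- Riemann-Lebesgue -/
lemma tendsto_int_ek {V : Type*} [NormedAddCommGroup V] [NormedSpace ℂ V] (f : ℝ → V) :
    Tendsto (fun ω : ℝ => ∫ t, ek ω t • f t) atTop (𝓝 0) := by
  have h := Real.tendsto_integral_exp_smul_cocompact f
  have h1 : Tendsto (fun ω : ℝ => ω / (2 * Real.pi)) atTop (cocompact ℝ) := by
    refine Tendsto.mono_right ?_ atTop_le_cocompact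
    exact tendsto_id.atTop_div_const (by positivity)
  refine (h.comp h1).congr (fun ω => ?_)
  simp only [Function.comp]
  congr 1
  funext t
  rw [Circle.smul_def]
  congr 1
  rw [Real.fourierChar_apply, ek_def]
  have hpi : (Real.pi : ℂ) ≠ 0 := by exact_mod_cast Real.pi_ne_zero
  congr 1
  push_cast
  field_simp

lemma trf_eq {V : Type*} [NormedAddCommGroup V] [NormedSpace ℂ V] (f a : ℝ → V) (ω : ℝ) :
    trf f a ω = (∫ t, ek ω t • f t) + trd a ω := rfl

lemma trd_eq_trf {V : Type*} [NormedAddCommGroup V] [NormedSpace ℂ V] (a : ℝ → V) (ω : ℝ) :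
    trd a ω = trf (fun _ => 0) a ω := by
  rw [trf_eq]; simp

lemma HasMean.zero_of_eventually {V : Type*} [NormedAddCommGroup V] [NormedSpace ℂ V]
    [CompleteSpace V] {g : ℝ → V} (cg : Continuous g) (h : ∀ᶠ ω in atTop, g ω = 0) :
    HasMean g 0 := by
  obtain ⟨M, hM⟩ := (h.and (eventually_ge_atTop 0)).exists_forall_of_atTop
  have hM0 : 0 ≤ M := (hM M le_rfl).2
  have h1 : Tendsto (fun L : ℝ => (L⁻¹ : ℝ) • ∫ ω in (0 : ℝ)..M, g ω) atTop
      (𝓝 ((0 : ℝ) • ∫ ω in (0 : ℝ)..M, g ω)) :=
    tendsto_inv_atTop_zero.smul_const _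
  rw [zero_smul] at h1
  refine h1.congr' ?_
  filter_upwards [eventually_ge_atTop M] with L hL
  congr 1
  rw [← intervalIntegral.integral_add_adjacent_intervals (cg.intervalIntegrable 0 M)
    (cg.intervalIntegrable M L)]
  have h2 : ∫ ω in M..L, g ω = 0 := by
    rw [intervalIntegral.integral_congr (g := fun _ => (0 : V))]
    · simp
    · intro ω hω
      rw [Set.uIcc_of_le hL] at hω
      exact (hM ω hω.1).1
  rw [h2, add_zero]

lemma norm_trd_le {V : Type*} [NormedAddCommGroup V] [NormedSpace ℂ V] {a : ℝ → V}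
    (ha : Summable (fun x => ‖a x‖)) (ω : ℝ) : ‖trd a ω‖ ≤ ∑' x, ‖a x‖ :=
  tsum_of_norm_bounded ha.hasSum (fun x => by rw [norm_smul, norm_ek, one_mul])

lemma trd_single (c : E →L[ℂ] E) (ω : ℝ) : trd (fun x => if x = 0 then c else 0) ω = c := by
  unfold trd
  rw [tsum_eq_single 0]
  · simp
  · intro b hb; simp [hb]

lemma trd_mul_const {a : ℝ → E →L[ℂ] E} (ha : Summable (fun x => ‖a x‖)) (c : E →L[ℂ] E) (ω : ℝ) :
    trd (fun x => a x * c) ω = trd a ω * c := by
  unfold trd
  rw [← (summable_ek ha ω).tsum_mul_right]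
  simp only [smul_mul_assoc]

lemma trd_const_mul {a : ℝ → E →L[ℂ] E} (ha : Summable (fun x => ‖a x‖)) (c : E →L[ℂ] E) (ω : ℝ) :
    trd (fun x => c * a x) ω = c * trd a ω := by
  unfold trd
  rw [← (summable_ek ha ω).tsum_mul_left]
  simp only [mul_smul_comm]

/-- factorization of the discrete part -/
theorem disc_factor [FiniteDimensional ℂ E] [Nontrivial E] {f a : ℝ → E →L[ℂ] E}
    (hf : Integrable f) {σ : ℝ} (hσ : 0 < σ) (ha : WS σ a) (hsym : ∀ x, a (-x) = star (a x))
    {ε : ℝ} (hε : 0 < ε)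
    (hpos : ∀ (ω : ℝ) (v : E), ε * ‖v‖ ^ 2 ≤ (⟪v, trf f a ω v⟫_ℂ).re) :
    ∃ s : ℝ, 0 < s ∧ s ≤ σ ∧ ∃ X Xi : ℝ → E →L[ℂ] E, (∀ r, r < 0 → X r = 0) ∧
      (∀ r, r < 0 → Xi r = 0) ∧ WS s X ∧ WS s Xi ∧
      ∀ ω, trd Xi ω * trd X ω = 1 ∧ trd X ω * trd Xi ω = 1 ∧
        star (trd X ω) * trd a ω * trd X ω = 1 := by
  obtain ⟨s, hs0, hsσ, Y, hYneg, hYsum, hYeq⟩ := disc_solve hf hσ ha hε hpos
  have hYs : WS s Y := hYsum
  have ha0 : Summable (fun x => ‖a x‖) := ha.summable hσ.le
  have has : WS s a := ha.mono hsσ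
  -- the reflected solution
  set Yr : ℝ → E →L[ℂ] E := fun r => Y (-r) with hYr
  have hYrs : WS s Yr := hYs.neg
  have hYr0 := hYrs.summable hs0.le
  set X : ℝ → E →L[ℂ] E := fun r => star (Y r) with hX
  have hXs : WS s X := hYs.of_norm_le 1 (fun x => by rw [one_mul]; exact (norm_star _).le)
  have hX0 := hXs.summable hs0.le
  have hXneg : ∀ r, r < 0 → X r = 0 := fun r hr => by simp only [hX]; rw [hYneg r hr, star_zero]
  have hstarX : ∀ ω, star (trd X ω) = trd Yr ω := by
    intro ω
    rw [star_trd]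
    simp only [hX, hYr, star_star]
  -- the product with the symbol
  set z : ℝ → E →L[ℂ] E := dconv Yr a with hz
  have hzs : WS s z := dconv_WS hs0.le hYrs has
  have hz0 := hzs.summable hs0.le
  have hzval : ∀ u, u ≤ 0 → z u = if u = 0 then 1 else 0 := by
    intro u hu
    have h1 := dconv_hasSum hYr0 ha0 u
    have h2 := hYeq (-u) (by linarith)
    have h3 : (fun x => Yr (u - x) * a x) = fun x => Y (-u + x) * a x := by
      funext x
      simp only [hYr]
      congr 2
      ring
    rw [h3] at h1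
    rw [hz, h1.unique h2]
    by_cases h : u = 0
    · simp [h]
    · simp [h]
  have hztr : ∀ ω, trd z ω = star (trd X ω) * trd a ω := fun ω => by
    rw [hz, trd_dconv hYr0 ha0, hstarX]
  -- the full product
  set h : ℝ → E →L[ℂ] E := dconv z X with hh
  have hhs : WS s h := dconv_WS hs0.le hzs hXs
  have hh0 := hhs.summable hs0.le
  have hhtr : ∀ ω, trd h ω = star (trd X ω) * trd a ω * trd X ω := fun ω => by
    rw [hh, trd_dconv hz0 hX0, hztr]
  have hhval : ∀ u, u ≤ 0 → h u = if u = 0 then X 0 else 0 := by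
    intro u hu
    have h1 := dconv_hasSum hz0 hX0 u
    have h2 : (fun x => z (u - x) * X x) = fun x => if x = 0 then (if u = 0 then X 0 else 0) else 0 := by
      funext x
      rcases lt_trichotomy x 0 with hx | hx | hx
      · rw [hXneg x hx, mul_zero, if_neg hx.ne]
      · subst hx
        rw [sub_zero, hzval u hu, if_pos rfl]
        split_ifs
        · rw [one_mul]
        · rw [zero_mul]
      · rw [hzval (u - x) (by linarith), if_neg (by linarith : ¬ (u - x = 0)), zero_mul,
          if_neg hx.ne']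
    rw [h2] at h1
    exact h1.unique (hasSum_ite_eq 0 _)
  have hasym : ∀ ω, star (trd a ω) = trd a ω := by
    intro ω
    rw [star_trd]
    congr 1
    funext x
    rw [hsym, star_star]
  have hhsym : ∀ u, star (h (-u)) = h u := by
    have h1 : (fun u => star (h (-u))) = h := by
      apply trf_coeff_unique (f := fun _ => 0) (g := fun _ => 0) (by simp) _ (by simp) hh0
      · intro ω
        rw [← trd_eq_trf, ← trd_eq_trf, ← star_trd, hhtr, star_mul, star_mul, star_star, hasym]
        simp only [mul_assoc]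
      · have := hh0.comp_injective neg_injective
        simpa [Function.comp_def] using this
    intro u
    exact congrFun h1 u
  set C : E →L[ℂ] E := X 0 with hC
  have hhall : h = fun u => if u = 0 then C else 0 := by
    funext u
    rcases le_or_gt u 0 with hu | hu
    · exact hhval u hu
    · rw [← hhsym u, hhval (-u) (by linarith), if_neg (by linarith : ¬ (-u = 0)),
        if_neg hu.ne', star_zero]
  have hCtr : ∀ ω, star (trd X ω) * trd a ω * trd X ω = C := by
    intro ω
    rw [← hhtr, hhall, trd_single]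
  have hCsym : star C = C := by
    have := hhsym 0
    rw [hhall] at this
    simpa using this
  -- quadratic form of C
  have hquad : ∀ (ω : ℝ) (v : E), (⟪v, C v⟫_ℂ).re
      = (⟪trd X ω v, trf f a ω (trd X ω v)⟫_ℂ).re
        - (⟪trd X ω v, (∫ t, ek ω t • f t) (trd X ω v)⟫_ℂ).re := by
    intro ω v
    rw [trf_eq, add_apply, inner_add_right, Complex.add_re]
    have h1 : ⟪v, C v⟫_ℂ = ⟪trd X ω v, trd a ω (trd X ω v)⟫_ℂ := by
      rw [← hCtr ω]
      change ⟪v, (star (trd X ω)) (trd a ω (trd X ω v))⟫_ℂ = _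
      rw [ContinuousLinearMap.star_eq_adjoint, ContinuousLinearMap.adjoint_inner_right]
    rw [h1]; ring
  set KX : ℝ := ∑' x, ‖X x‖ with hKX
  have hKX0 : 0 ≤ KX := tsum_nonneg (fun _ => norm_nonneg _)
  have hXb : ∀ ω v, ‖trd X ω v‖ ≤ KX * ‖v‖ := fun ω v =>
    (ContinuousLinearMap.le_opNorm _ _).trans
      (mul_le_mul_of_nonneg_right (norm_trd_le hX0 ω) (norm_nonneg _))
  have hFa : ∀ (ω : ℝ) (w : E), |(⟪w, (∫ t, ek ω t • f t) w⟫_ℂ).re| ≤ ‖∫ t, ek ω t • f t‖ * ‖w‖ ^ 2 := by
    intro ω w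
    calc |(⟪w, (∫ t, ek ω t • f t) w⟫_ℂ).re| ≤ ‖⟪w, (∫ t, ek ω t • f t) w⟫_ℂ‖ :=
          Complex.abs_re_le_norm _
      _ ≤ ‖w‖ * ‖(∫ t, ek ω t • f t) w‖ := norm_inner_le_norm _ _
      _ ≤ ‖w‖ * (‖∫ t, ek ω t • f t‖ * ‖w‖) := by
          gcongr; exact ContinuousLinearMap.le_opNorm _ _
      _ = _ := by ring
  have hRL := tendsto_int_ek f
  have hRLn : Tendsto (fun ω : ℝ => ‖∫ t, ek ω t • f t‖) atTop (𝓝 0) := by
    simpa using hRL.norm
  have hCnonneg : ∀ v, 0 ≤ (⟪v, C v⟫_ℂ).re := by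
    intro v
    have h1 : Tendsto (fun ω : ℝ => (⟪v, C v⟫_ℂ).re + ‖∫ t, ek ω t • f t‖ * (KX * ‖v‖) ^ 2) atTop
        (𝓝 ((⟪v, C v⟫_ℂ).re + 0 * (KX * ‖v‖) ^ 2)) :=
      tendsto_const_nhds.add (hRLn.mul_const _)
    rw [zero_mul, add_zero] at h1
    refine ge_of_tendsto h1 (Eventually.of_forall (fun ω => ?_))
    rw [hquad ω v]
    have h2 := hFa ω (trd X ω v)
    have h3 := hpos ω (trd X ω v)
    have h4 : ‖trd X ω v‖ ^ 2 ≤ (KX * ‖v‖) ^ 2 := by
      gcongr; exact hXb ω v
    have h5 : ‖∫ t, ek ω t • f t‖ * ‖trd X ω v‖ ^ 2 ≤ ‖∫ t, ek ω t • f t‖ * (KX * ‖v‖) ^ 2 := by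
      gcongr
    have h6 := (abs_le.mp h2).2
    have h7 : 0 ≤ ε * ‖trd X ω v‖ ^ 2 := by positivity
    linarith
  have hCinj : ∀ v, C v = 0 → v = 0 := by
    intro v hv
    have h1 : ∀ᶠ ω in atTop, trd X ω v = 0 := by
      filter_upwards [hRLn.eventually (gt_mem_nhds hε)] with ω hω
      have h2 := hquad ω v
      rw [hv, inner_zero_right, Complex.zero_re] at h2
      have h3 := hFa ω (trd X ω v)
      have h4 := hpos ω (trd X ω v)
      have h6 := (abs_le.mp h3).2
      have h7 : (ε - ‖∫ t, ek ω t • f t‖) * ‖trd X ω v‖ ^ 2 ≤ 0 := by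
        have : ε * ‖trd X ω v‖ ^ 2 ≤ ‖∫ t, ek ω t • f t‖ * ‖trd X ω v‖ ^ 2 := by linarith
        linarith
      have h8 : ‖trd X ω v‖ ^ 2 ≤ 0 := by
        by_contra hcon
        push Not at hcon
        have := mul_pos (sub_pos.mpr hω) hcon
        linarith
      have h9 : ‖trd X ω v‖ = 0 := by
        have := sq_nonneg ‖trd X ω v‖
        exact pow_eq_zero_iff (two_ne_zero) |>.mp (le_antisymm h8 this)
      exact norm_eq_zero.mp h9
    have hXcont : Continuous (fun ω => trd X ω) := by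
      have := continuous_trf (f := fun _ => (0 : E →L[ℂ] E)) (by simp) hX0
      have e : trf (fun _ => (0 : E →L[ℂ] E)) X = trd X := by
        funext ω; rw [← trd_eq_trf]
      rwa [e] at this
    have h2 : ∀ r, X r v = 0 := by
      intro r
      have h3 := mean_sum hX0 r
      have hc3 : Continuous (fun ω => ek ω (-r) • ∑' x, ek ω x • X x) :=
        (continuous_ek_left _).smul hXcont
      have h4 := h3.comp_clm hc3 (ContinuousLinearMap.apply ℂ E v)
      refine h4.unique ?_
      apply HasMean.zero_of_eventually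
      · exact (ContinuousLinearMap.apply ℂ E v).continuous.comp hc3
      · filter_upwards [h1] with ω hω
        change (ek ω (-r) • trd X ω) v = 0
        rw [smul_apply, hω, smul_zero]
    have h3 := hYeq 0 le_rfl
    rw [if_pos rfl] at h3
    have h4 : HasSum (fun x => star (Y (0 + x) * a x)) (star (1 : E →L[ℂ] E)) := h3.star
    have h5 := h4.mapL (ContinuousLinearMap.apply ℂ E v)
    have h6 : (fun x => (ContinuousLinearMap.apply ℂ E v) (star (Y (0 + x) * a x))) = fun _ => 0 := by
      funext x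
      rw [star_mul, zero_add]
      change (star (a x)) (X x v) = 0
      rw [h2, map_zero]
    rw [h6, star_one] at h5
    exact (h5.unique hasSum_zero)
  -- invertibility and square root
  have hCunit : IsUnit C := by
    rw [ContinuousLinearMap.isUnit_iff_bijective]
    have hinj : Function.Injective C := by
      rw [injective_iff_map_eq_zero]; exact hCinj
    exact ⟨hinj, (LinearMap.injective_iff_surjective (f := (C : E →ₗ[ℂ] E))).mp hinj⟩
  have hCpos : 0 ≤ C := by
    rw [ContinuousLinearMap.nonneg_iff_isPositive, ContinuousLinearMap.isPositive_def]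
    constructor
    · have : IsSelfAdjoint C := hCsym
      exact ContinuousLinearMap.isSelfAdjoint_iff_isSymmetric.mp this
    · intro v
      rw [ContinuousLinearMap.reApplyInnerSelf_apply, inner_re_symm]
      exact hCnonneg v
  set S : E →L[ℂ] E := CFC.sqrt C with hS
  have hSS : S * S = C := CFC.sqrt_mul_sqrt_self C hCpos
  have hSstar : star S = S := (CFC.sqrt_nonneg C).isSelfAdjoint
  have hSunit : IsUnit S := (CFC.isUnit_sqrt_iff C hCpos).mpr hCunit
  obtain ⟨u, hu⟩ := hSunit
  set Si : E →L[ℂ] E := ((u⁻¹ : (E →L[ℂ] E)ˣ) : E →L[ℂ] E) with hSi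
  have hSSi : S * Si = 1 := by rw [← hu]; exact u.mul_inv
  have hSiS : Si * S = 1 := by rw [← hu]; exact u.inv_mul
  have hSistar : star Si = Si := by
    have h1 : star Si * S = 1 := by
      have := congrArg star hSSi
      rwa [star_mul, hSstar, star_one] at this
    calc star Si = star Si * (S * Si) := by rw [hSSi, mul_one]
      _ = (star Si * S) * Si := by rw [mul_assoc]
      _ = Si := by rw [h1, one_mul]
  refine ⟨s, hs0, hsσ, fun r => X r * Si, fun r => Si * z r, ?_, ?_, ?_, ?_, ?_⟩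
  · intro r hr; simp only [hXneg r hr, zero_mul]
  · intro r hr
    simp only [hzval r hr.le, if_neg hr.ne, mul_zero]
  · exact hXs.of_norm_le ‖Si‖ (fun x => by rw [mul_comm]; exact norm_mul_le _ _)
  · exact hzs.of_norm_le ‖Si‖ (fun x => norm_mul_le _ _)
  · intro ω
    rw [trd_mul_const hX0, trd_const_mul hz0, hztr]
    have h1 : Si * (star (trd X ω) * trd a ω) * (trd X ω * Si) = 1 := by
      calc Si * (star (trd X ω) * trd a ω) * (trd X ω * Si)
          = Si * (star (trd X ω) * trd a ω * trd X ω) * Si := by simp only [mul_assoc]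
        _ = Si * (S * S) * Si := by rw [hCtr, hSS]
        _ = (Si * S) * (S * Si) := by simp only [mul_assoc]
        _ = 1 := by rw [hSiS, hSSi, one_mul]
    refine ⟨h1, ?_, ?_⟩
    · have h2 := congrArg (fun T : E →L[ℂ] E => (T : E →ₗ[ℂ] E)) h1
      have h3 : ((Si * (star (trd X ω) * trd a ω) : E →L[ℂ] E) : E →ₗ[ℂ] E) *
          ((trd X ω * Si : E →L[ℂ] E) : E →ₗ[ℂ] E) = 1 := h2
      have h4 := mul_eq_one_comm.mp h3
      ext v
      exact congrArg (fun T : E →ₗ[ℂ] E => T v) h4
    · rw [star_mul, hSistar]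
      calc Si * star (trd X ω) * trd a ω * (trd X ω * Si)
          = Si * (star (trd X ω) * trd a ω * trd X ω) * Si := by simp only [mul_assoc]
        _ = Si * (S * S) * Si := by rw [hCtr, hSS]
        _ = (Si * S) * (S * Si) := by simp only [mul_assoc]
        _ = 1 := by rw [hSiS, hSSi, one_mul]

end Fact

end Pool.Agent.Helper859
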