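import Pool.Agent.Helper859.ContFact
import Pool.Agent.Helper859.Fact

set_option autoImplicit false

namespace Pool.Agent.Helper859

open scoped ENNReal InnerProductSpace FourierTransform SchwartzMap
open Filter Topology MeasureTheory

section Gl
set_option linter.unusedSectionVars false
set_option linter.unusedVariables false

variable {V W : Type*} [NormedAddCommGroup V] [NormedSpace ℂ V] [CompleteSpace V]
  [NormedAddCommGroup W] [NormedSpace ℂ W] [CompleteSpace W]

/-- discrete convolution of an `ℓ¹` operator family with an `L¹` function -/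
noncomputable def gl (L : ℝ → V →L[ℂ] W) (f : ℝ → V) (t : ℝ) : W := ∑' x, L x (f (t - x))

lemma gl_causal {L : ℝ → V →L[ℂ] W} {f : ℝ → V} (hL : ∀ t < 0, L t = 0) (hf : ∀ t < 0, f t = 0)
    {t : ℝ} (ht : t < 0) : gl L f t = 0 := by
  unfold gl
  rw [← tsum_zero (α := W) (β := ℝ)]
  congr 1
  funext u
  rcases lt_or_ge u 0 with hu | hu
  · rw [hL u hu]; rfl
  · rw [hf (t - u) (by linarith), map_zero]

lemma gl_main {s : ℝ} (hs : 0 ≤ s) {L : ℝ → V →L[ℂ] W} (hL : WS s L) {f : ℝ → V}
    (hf : WI s f) : WI s (gl L f) ∧ ∀ ω, lt (gl L f) ω = (trd L ω) (lt f ω) := by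
  have hL0 : Summable (fun x => ‖L x‖) := hL.summable hs
  have hcount : (Function.support L).Countable := countable_supp hL0
  set T := Function.support L with hT
  have : Countable T := hcount.to_subtype
  have hgl : ∀ t, gl L f t = ∑' x : T, L x (f (t - x)) := by
    intro t
    unfold gl
    refine (tsum_subtype_eq_of_support_subset (f := fun x => L x (f (t - x))) ?_).symm
    intro x hx
    rw [Function.mem_support] at hx ⊢
    intro h0
    apply hx
    rw [h0]; rfl
  have hFm : ∀ x : ℝ, AEStronglyMeasurable (fun t => L x (f (t - x))) volume := fun x =>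
    (L x).continuous.comp_aestronglyMeasurable
      (hf.1.comp_quasiMeasurePreserving
        (measurePreserving_sub_right volume x).quasiMeasurePreserving)
  have hexpm : AEStronglyMeasurable (fun t : ℝ => Real.exp (s * |t|)) volume :=
    (by fun_prop : Continuous (fun t : ℝ => Real.exp (s * |t|))).aestronglyMeasurable
  set C := ∫ t, ‖f t‖ * Real.exp (s * |t|) with hC
  have hGle : ∀ x t : ℝ, ‖L x (f (t - x))‖ * Real.exp (s * |t|)
      ≤ (‖L x‖ * Real.exp (s * |x|)) * (‖f (t - x)‖ * Real.exp (s * |t - x|)) := by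
    intro x t
    have h3 : |t| ≤ |x| + |t - x| := by
      have := abs_add_le x (t - x); simpa using this
    calc ‖L x (f (t - x))‖ * Real.exp (s * |t|)
        ≤ (‖L x‖ * ‖f (t - x)‖) * Real.exp (s * (|x| + |t - x|)) := by
          gcongr; exact (L x).le_opNorm _
      _ = _ := by rw [mul_add, Real.exp_add]; ring
  have hGint : ∀ x : ℝ, Integrable (fun t => ‖L x (f (t - x))‖ * Real.exp (s * |t|)) := by
    intro x
    refine ((hf.2.comp_sub_right x).const_mul (‖L x‖ * Real.exp (s * |x|))).mono'
      ((hFm x).norm.mul hexpm) (Eventually.of_forall (fun t => ?_))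
    rw [Real.norm_of_nonneg (by positivity)]
    exact hGle x t
  have hGnorm : ∀ x : ℝ, ∫ t, ‖L x (f (t - x))‖ * Real.exp (s * |t|)
      ≤ (‖L x‖ * Real.exp (s * |x|)) * C := by
    intro x
    calc ∫ t, ‖L x (f (t - x))‖ * Real.exp (s * |t|)
        ≤ ∫ t, (‖L x‖ * Real.exp (s * |x|)) * (‖f (t - x)‖ * Real.exp (s * |t - x|)) :=
          integral_mono (hGint x) ((hf.2.comp_sub_right x).const_mul _) (hGle x)
      _ = _ := by
          rw [integral_const_mul, integral_sub_right_eq_self (fun u => ‖f u‖ * Real.exp (s * |u|)) x]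
  have hGsum : Summable (fun x : T => ∫ t, ‖L x (f (t - x))‖ * Real.exp (s * |t|)) := by
    refine Summable.of_nonneg_of_le (fun x => integral_nonneg (fun t => by positivity))
      (fun x => hGnorm x) ?_
    exact (hL.mul_right C).subtype _
  -- the dominating function
  set H : ℝ → ℝ≥0∞ := fun t => ∑' x : T, ‖‖L x (f (t - x))‖ * Real.exp (s * |t|)‖ₑ with hH
  have hHint : ∫⁻ t, H t ≠ ⊤ := by
    rw [hH, lintegral_tsum (fun x : T => (hGint x).1.enorm)]
    have h1 : ∀ x : T, ∫⁻ t, ‖‖L x (f (t - x))‖ * Real.exp (s * |t|)‖ₑ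
        = ENNReal.ofReal (∫ t, ‖L x (f (t - x))‖ * Real.exp (s * |t|)) := by
      intro x
      rw [ofReal_integral_eq_lintegral_ofReal (hGint x)
        (Eventually.of_forall (fun t => by positivity))]
      congr 1
      funext t
      rw [Real.enorm_eq_ofReal (by positivity)]
    simp only [h1]
    rw [← ENNReal.ofReal_tsum_of_nonneg (fun x => integral_nonneg (fun t => by positivity)) hGsum]
    exact ENNReal.ofReal_ne_top
  have hHm : AEMeasurable H volume := AEMeasurable.tsum (fun x : T => (hGint x).1.enorm)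
  have hHfin : ∀ᵐ t, H t < ⊤ := ae_lt_top' hHm hHint
  have hsumm : ∀ᵐ t, Summable (fun x : T => ‖L x (f (t - x))‖) ∧
      Summable (fun x : T => ‖L x (f (t - x))‖ * Real.exp (s * |t|)) := by
    filter_upwards [hHfin] with t ht
    have h1 : Summable (fun x : T => ‖L x (f (t - x))‖ * Real.exp (s * |t|)) := by
      have h2 : Summable (fun x : T => (‖‖L x (f (t - x))‖ * Real.exp (s * |t|)‖ₑ).toReal) :=
        ENNReal.summable_toReal ht.ne
      refine h2.congr (fun x => ?_)
      rw [Real.enorm_eq_ofReal (by positivity), ENNReal.toReal_ofReal (by positivity)]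
    exact ⟨(summable_mul_right_iff (Real.exp_pos _).ne').mp h1, h1⟩
  have hglm : AEStronglyMeasurable (gl L f) volume := by
    apply aestronglyMeasurable_of_tendsto_ae (atTop : Filter (Finset T))
      (f := fun S t => ∑ x ∈ S, L x (f (t - x)))
    · intro S
      exact Finset.aestronglyMeasurable_fun_sum S (fun x _ => hFm x)
    · filter_upwards [hsumm] with t ht
      rw [hgl t]
      exact (Summable.of_norm ht.1).hasSum
  have hWI : WI s (gl L f) := by
    refine ⟨hglm, hglm.norm.mul hexpm, ?_⟩
    refine lt_of_le_of_lt (lintegral_mono_ae ?_) (lt_top_iff_ne_top.mpr hHint)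
    filter_upwards [hsumm, hHfin] with t ht htH
    have h1 : ‖gl L f t‖ ≤ ∑' x : T, ‖L x (f (t - x))‖ := by
      rw [hgl t]; exact norm_tsum_le_tsum_norm ht.1
    rw [Real.enorm_eq_ofReal (by positivity)]
    calc ENNReal.ofReal (‖gl L f t‖ * Real.exp (s * |t|))
        ≤ ENNReal.ofReal ((∑' x : T, ‖L x (f (t - x))‖) * Real.exp (s * |t|)) := by gcongr
      _ = ENNReal.ofReal (∑' x : T, ‖L x (f (t - x))‖ * Real.exp (s * |t|)) := by
          rw [tsum_mul_right]
      _ = ∑' x : T, ENNReal.ofReal (‖L x (f (t - x))‖ * Real.exp (s * |t|)) :=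
          ENNReal.ofReal_tsum_of_nonneg (fun x => by positivity) ht.2
      _ = H t := by
          rw [hH]
          congr 1
          funext x
          rw [Real.enorm_eq_ofReal (by positivity)]
  refine ⟨hWI, fun ω => ?_⟩
  have hfi : Integrable f := hf.integrable hs
  have hint : ∀ x : T, Integrable (fun t => ek ω t • L x (f (t - x))) := fun x =>
    integrable_ek ((L x).integrable_comp (hfi.comp_sub_right (x : ℝ))) ω
  have hnormle : ∀ x : T, ∫ t, ‖ek ω t • L x (f (t - x))‖ ≤ ‖L x‖ * ∫ t, ‖f t‖ := by
    intro x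
    calc ∫ t, ‖ek ω t • L x (f (t - x))‖ ≤ ∫ t, ‖L x‖ * ‖f (t - x)‖ := by
          apply integral_mono (hint x).norm ((hfi.comp_sub_right (x : ℝ)).norm.const_mul _)
          intro t
          simp only [norm_smul, norm_ek, one_mul]
          exact (L x).le_opNorm _
      _ = _ := by
          rw [integral_const_mul, integral_sub_right_eq_self (fun u => ‖f u‖) (x : ℝ)]
  have h1 := hasSum_integral_of_summable_integral_norm hint
    (Summable.of_nonneg_of_le (fun x => integral_nonneg (fun t => norm_nonneg _)) hnormle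
      ((hL0.mul_right _).subtype _))
  have h2 : ∫ t, ∑' x : T, ek ω t • L x (f (t - x)) = lt (gl L f) ω := by
    unfold lt
    apply integral_congr_ae
    filter_upwards [hsumm] with t ht
    rw [hgl t]
    exact ((Summable.of_norm ht.1).tsum_const_smul _)
  have h3 : ∀ x : T, ∫ t, ek ω t • L x (f (t - x)) = (ek ω x • L x) (lt f ω) := by
    intro x
    rw [← integral_add_right_eq_self _ (x : ℝ)]
    simp only [add_sub_cancel_right]
    have e : ∀ t, ek ω (t + x) • L x (f t) = ek ω x • L x (ek ω t • f t) := by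
      intro t
      rw [ek_add, map_smul, smul_smul, mul_comm]
    simp only [e]
    rw [integral_smul, (L x).integral_comp_comm (integrable_ek hfi ω)]
    rfl
  rw [← h2, ← h1.tsum_eq]
  simp only [h3]
  have h4 : ∑' x : T, (ek ω x • L x) (lt f ω) = ∑' x : ℝ, (ek ω x • L x) (lt f ω) := by
    apply tsum_subtype_eq_of_support_subset (f := fun x : ℝ => (ek ω x • L x) (lt f ω))
    intro x hx
    rw [Function.mem_support] at hx ⊢
    intro h0
    apply hx
    rw [h0, smul_zero]; rfl
  rw [h4]
  unfold trd
  exact (((summable_ek hL0 ω).hasSum.mapL (ContinuousLinearMap.apply ℂ W (lt f ω))).tsum_eq)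

end Gl

end Pool.Agent.Helper859
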