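import Mathlib

set_option autoImplicit false

namespace Pool.Agent.Helper859

open scoped ENNReal

section LpOp

/-- pull a family back along a partial map, with value zero where the map is undefined -/
def pull {ι κ E : Type*} [Zero E] (π : κ → Option ι) (y : ι → E) (k : κ) : E := (π k).elim 0 y

lemma pull_add {ι κ E : Type*} [AddZeroClass E] (π : κ → Option ι) (x y : ι → E) (k : κ) :
    pull π (x + y) k = pull π x k + pull π y k := by
  unfold pull; cases π k <;> simp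

lemma pull_smul {ι κ E : Type*} [NormedAddCommGroup E] [NormedSpace ℂ E] (π : κ → Option ι) (c : ℂ)
    (x : ι → E) (k : κ) : pull π (c • x) k = c • pull π x k := by
  unfold pull; cases π k <;> simp

lemma sum_pull_le {ι κ E : Type*} [NormedAddCommGroup E] {p : ℝ} (hp : 0 < p) (π : κ → Option ι)
    (hπ : ∀ a b i, π a = some i → π b = some i → a = b) (y : ι → E) {C : ℝ}
    (hC : ∀ s : Finset ι, ∑ i ∈ s, ‖y i‖ ^ p ≤ C) (s : Finset κ) :
    ∑ k ∈ s, ‖pull π y k‖ ^ p ≤ C := by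
  classical
  have h1 : ∑ k ∈ s, ‖pull π y k‖ ^ p
      = ∑ k ∈ s.filter (fun k => π k ≠ none), ‖pull π y k‖ ^ p := by
    rw [Finset.sum_filter_of_ne]
    intro k _ hk h0
    apply hk
    simp [pull, h0, Real.zero_rpow hp.ne']
  have h2 : ∑ k ∈ s.filter (fun k => π k ≠ none), ‖pull π y k‖ ^ p
      = ∑ o ∈ (s.filter (fun k => π k ≠ none)).image π, ‖o.elim (0 : E) y‖ ^ p := by
    rw [Finset.sum_image]
    · rfl
    · intro a ha b hb hab
      simp only [Finset.coe_filter, Set.mem_ofPred_eq] at ha hb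
      obtain ⟨i, hi⟩ := Option.ne_none_iff_exists'.mp ha.2
      exact hπ a b i hi (hab ▸ hi)
  have h3 : (s.filter (fun k => π k ≠ none)).image π
      = (Finset.eraseNone ((s.filter (fun k => π k ≠ none)).image π)).map Function.Embedding.some := by
    ext o
    simp only [Finset.mem_image, Finset.mem_filter, Finset.mem_map, Finset.mem_eraseNone,
      Function.Embedding.some_apply]
    constructor
    · rintro ⟨a, ⟨ha, hn⟩, rfl⟩
      obtain ⟨i, hi⟩ := Option.ne_none_iff_exists'.mp hn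
      exact ⟨i, ⟨a, ⟨ha, hn⟩, hi⟩, hi.symm⟩
    · rintro ⟨i, ⟨a, ha, hi⟩, rfl⟩
      exact ⟨a, ha, hi⟩
  rw [h1, h2, h3, Finset.sum_map]
  exact hC _

variable {ι κ : Type*} {E F : Type*} [NormedAddCommGroup E] [NormedSpace ℂ E]
  [NormedAddCommGroup F] [NormedSpace ℂ F]
variable (p : ℝ≥0∞) [Fact (1 ≤ p)]

lemma sum_op_le {p : ℝ} (hp : 0 < p) (π : κ → Option ι)
    (hπ : ∀ a b i, π a = some i → π b = some i → a = b) (φ : κ → E →L[ℂ] F) (C : ℝ) (hC0 : 0 ≤ C)
    (hφ : ∀ k, ‖φ k‖ ≤ C) (y : ι → E) {B : ℝ}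
    (hB : ∀ s : Finset ι, ∑ i ∈ s, ‖y i‖ ^ p ≤ B) (s : Finset κ) :
    ∑ k ∈ s, ‖φ k (pull π y k)‖ ^ p ≤ C ^ p * B := by
  calc ∑ k ∈ s, ‖φ k (pull π y k)‖ ^ p ≤ ∑ k ∈ s, C ^ p * ‖pull π y k‖ ^ p := by
        apply Finset.sum_le_sum
        intro k _
        rw [← Real.mul_rpow hC0 (norm_nonneg _)]
        apply Real.rpow_le_rpow (norm_nonneg _) _ hp.le
        exact (ContinuousLinearMap.le_opNorm _ _).trans
          (mul_le_mul_of_nonneg_right (hφ k) (norm_nonneg _))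
    _ = C ^ p * ∑ k ∈ s, ‖pull π y k‖ ^ p := by rw [Finset.mul_sum]
    _ ≤ C ^ p * B := by
        apply mul_le_mul_of_nonneg_left (sum_pull_le hp π hπ y hB s)
        exact Real.rpow_nonneg hC0 _

/-- the operator `y ↦ (k ↦ φ k (y (π k)))` on `lp` spaces, for a partial injection `π` -/
noncomputable def lpOp (hp : 0 < p.toReal) (π : κ → Option ι)
    (hπ : ∀ a b i, π a = some i → π b = some i → a = b) (φ : κ → E →L[ℂ] F) (C : ℝ) (hC0 : 0 ≤ C)
    (hφ : ∀ k, ‖φ k‖ ≤ C) : lp (fun _ : ι => E) p →L[ℂ] lp (fun _ : κ => F) p :=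
  LinearMap.mkContinuous
    { toFun := fun y => ⟨fun k => φ k (pull π y k),
        memℓp_gen' (C := C ^ p.toReal * ‖y‖ ^ p.toReal)
          (sum_op_le hp π hπ φ C hC0 hφ y (fun s => lp.sum_rpow_le_norm_rpow hp y s))⟩
      map_add' := by
        intro x y
        ext k
        change φ k (pull π (⇑x + ⇑y) k) = φ k (pull π x k) + φ k (pull π y k)
        rw [pull_add, map_add]
      map_smul' := by
        intro c x
        ext k
        change φ k (pull π (c • ⇑x) k) = c • φ k (pull π x k)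
        rw [pull_smul, map_smul] } C (by
      intro y
      apply lp.norm_le_of_forall_sum_le hp (by positivity)
      intro s
      rw [Real.mul_rpow hC0 (norm_nonneg _)]
      exact sum_op_le hp π hπ φ C hC0 hφ y (fun s => lp.sum_rpow_le_norm_rpow hp y s) s)

@[simp] lemma lpOp_apply (hp : 0 < p.toReal) (π : κ → Option ι)
    (hπ : ∀ a b i, π a = some i → π b = some i → a = b) (φ : κ → E →L[ℂ] F) (C : ℝ) (hC0 : 0 ≤ C)
    (hφ : ∀ k, ‖φ k‖ ≤ C) (y : lp (fun _ : ι => E) p) (k : κ) :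
    lpOp p hp π hπ φ C hC0 hφ y k = φ k (pull π y k) := rfl

lemma norm_lpOp_le (hp : 0 < p.toReal) (π : κ → Option ι)
    (hπ : ∀ a b i, π a = some i → π b = some i → a = b) (φ : κ → E →L[ℂ] F) (C : ℝ) (hC0 : 0 ≤ C)
    (hφ : ∀ k, ‖φ k‖ ≤ C) : ‖lpOp p hp π hπ φ C hC0 hφ‖ ≤ C :=
  LinearMap.mkContinuous_norm_le _ hC0 _

end LpOp

end Pool.Agent.Helper859
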