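import Pool.Agent.Helper859.Combine

set_option autoImplicit false

namespace Pool.Agent.Helper859

open scoped ENNReal InnerProductSpace
open Filter Topology MeasureTheory

section Mat
set_option linter.unusedSectionVars false
set_option linter.unusedVariables false

/-- regroup a delay series by the value of the delay -/
lemma coef_in {c : ℕ → ℂ} {τ : ℕ → ℝ} {σ : ℝ} (hσ : 0 ≤ σ)
    (h : Summable (fun k : ℕ => ‖c k‖ * Real.exp (σ * |τ k|))) :
    ∃ α : ℝ → ℂ, WS σ α ∧ ∀ ω, ∑' x, ek ω x • α x = ∑' k, c k * ek ω (τ k) := by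
  have hc : Summable (fun k => ‖c k‖) := by
    refine Summable.of_nonneg_of_le (fun k => norm_nonneg _) (fun k => ?_) h
    have := one_le_exp_abs hσ (τ k)
    nlinarith [norm_nonneg (c k)]
  set e := Equiv.sigmaFiberEquiv τ with he
  refine ⟨fun x => ∑' k : {k // τ k = x}, c k, ?_, ?_⟩
  · have h1 : HasSum ((fun k : ℕ => ‖c k‖ * Real.exp (σ * |τ k|)) ∘ e)
        (∑' k : ℕ, ‖c k‖ * Real.exp (σ * |τ k|)) := e.hasSum_iff.mpr h.hasSum
    have h2 : ∀ x : ℝ, HasSum (fun k : {k // τ k = x} =>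
        ((fun k : ℕ => ‖c k‖ * Real.exp (σ * |τ k|)) ∘ e) ⟨x, k⟩)
        ((∑' k : {k // τ k = x}, ‖c k‖) * Real.exp (σ * |x|)) := by
      intro x
      have h3 : HasSum (fun k : {k // τ k = x} => ‖c k‖ * Real.exp (σ * |x|))
          ((∑' k : {k // τ k = x}, ‖c k‖) * Real.exp (σ * |x|)) :=
        (hc.subtype (fun k => τ k = x)).hasSum.mul_right _
      convert h3 using 2 with k
      rcases k with ⟨k, hk⟩
      change ‖c k‖ * Real.exp (σ * |τ k|) = ‖c k‖ * Real.exp (σ * |x|)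
      rw [hk]
    have h4 := (h1.sigma h2).summable
    refine Summable.of_nonneg_of_le (fun x => by positivity) (fun x => ?_) h4
    gcongr
    exact norm_tsum_le_tsum_norm (hc.subtype (fun k => τ k = x))
  · intro ω
    have hs : Summable (fun k : ℕ => c k * ek ω (τ k)) :=
      Summable.of_norm_bounded hc (fun k => by rw [norm_mul, norm_ek, mul_one])
    have h1 : HasSum ((fun k : ℕ => c k * ek ω (τ k)) ∘ e) (∑' k : ℕ, c k * ek ω (τ k)) :=
      e.hasSum_iff.mpr hs.hasSum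
    have h2 : ∀ x : ℝ, HasSum (fun k : {k // τ k = x} =>
        ((fun k : ℕ => c k * ek ω (τ k)) ∘ e) ⟨x, k⟩)
        (ek ω x • ∑' k : {k // τ k = x}, c k) := by
      intro x
      have h3 : HasSum (fun k : {k // τ k = x} => ek ω x • c k)
          (ek ω x • ∑' k : {k // τ k = x}, c k) :=
        ((Summable.of_norm hc).subtype (fun k => τ k = x)).hasSum.const_smul _
      convert h3 using 2 with k
      rcases k with ⟨k, hk⟩
      change c k * ek ω (τ k) = ek ω x • c k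
      rw [hk, smul_eq_mul, mul_comm]
    exact (h1.sigma h2).tsum_eq

/-- enumerate a causal coefficient function -/
lemma coef_out {π : ℝ → ℂ} {s : ℝ} (hs : 0 ≤ s) (hπ : WS s π) (hneg : ∀ x < 0, π x = 0) :
    ∃ (c : ℕ → ℂ) (τ : ℕ → ℝ), (∀ k, 0 ≤ τ k) ∧
      Summable (fun k : ℕ => ‖c k‖ * Real.exp (s * τ k)) ∧
      ∀ ω : ℝ, ∑' k : ℕ, c k * Complex.exp (-((ω : ℂ) * ((τ k : ℝ) : ℂ) * Complex.I))
        = ∑' x, ek ω x • π x := by
  have hcount : (Function.support π).Countable := countable_supp (hπ.summable hs)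
  set T := Function.support π with hT
  have : Countable T := hcount.to_subtype
  obtain ⟨e, he⟩ := exists_injective_nat T
  set c : ℕ → ℂ := Function.extend e (fun x : T => π x) 0 with hc
  set τ : ℕ → ℝ := Function.extend e (fun x : T => (x : ℝ)) 0 with hτ
  have hTnn : ∀ x : T, 0 ≤ (x : ℝ) := by
    intro x
    by_contra hx
    push Not at hx
    exact x.2 (hneg x hx)
  have hce : ∀ x, c (e x) = π x := fun x => he.extend_apply _ _ _
  have hτe : ∀ x, τ (e x) = x := fun x => he.extend_apply _ _ _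
  have hcn : ∀ k, (¬ ∃ x, e x = k) → c k = 0 := fun k hk => Function.extend_apply' _ _ _ hk
  have hτn : ∀ k, (¬ ∃ x, e x = k) → τ k = 0 := fun k hk => Function.extend_apply' _ _ _ hk
  refine ⟨c, τ, ?_, ?_, ?_⟩
  · intro k
    by_cases hk : ∃ x, e x = k
    · obtain ⟨x, rfl⟩ := hk
      rw [hτe]; exact hTnn x
    · rw [hτn k hk]
  · have h1 : (fun k : ℕ => ‖c k‖ * Real.exp (s * τ k))
        = Function.extend e (fun x : T => ‖π x‖ * Real.exp (s * |(x : ℝ)|)) 0 := by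
      funext k
      by_cases hk : ∃ x, e x = k
      · obtain ⟨x, rfl⟩ := hk
        rw [he.extend_apply, hce, hτe, abs_of_nonneg (hTnn x)]
      · rw [Function.extend_apply' _ _ _ hk, hcn k hk, norm_zero, zero_mul]; rfl
    rw [h1]
    exact ((hasSum_extend_zero he).mpr (hπ.subtype T).hasSum).summable
  · intro ω
    have h1 : (fun k : ℕ => c k * Complex.exp (-((ω : ℂ) * ((τ k : ℝ) : ℂ) * Complex.I)))
        = Function.extend e (fun x : T => ek ω x • π x) 0 := by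
      funext k
      by_cases hk : ∃ x, e x = k
      · obtain ⟨x, rfl⟩ := hk
        rw [he.extend_apply, hce, hτe, smul_eq_mul, mul_comm]; rfl
      · rw [Function.extend_apply' _ _ _ hk, hcn k hk, zero_mul]; rfl
    rw [h1]
    have h2 : Summable (fun x : T => ek ω x • π x) :=
      (summable_ek (hπ.summable hs) ω).subtype T
    rw [((hasSum_extend_zero he).mpr h2.hasSum).tsum_eq]
    apply tsum_subtype_eq_of_support_subset (f := fun x => ek ω x • π x)
    intro x hx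
    rw [Function.mem_support] at hx ⊢
    intro h0
    exact hx (by rw [h0, smul_zero])

/-- output form of a causal transform -/
lemma out_form {γ π : ℝ → ℂ} {s : ℝ} (hs : 0 < s) (hγ : WI s γ) (hγneg : ∀ t < 0, γ t = 0)
    (hπ : WS s π) (hneg : ∀ x < 0, π x = 0) {φ : ℝ → ℂ} (hφ : ∀ ω, φ ω = trf γ π ω) :
    ∃ σ : ℝ, 0 < σ ∧ ∃ (fa : ℝ → ℂ) (c : ℕ → ℂ) (τ : ℕ → ℝ),
      (∀ k : ℕ, 0 ≤ τ k) ∧
      MeasureTheory.Integrable (fun t : ℝ => fa t * ((Real.exp (σ * t) : ℝ) : ℂ))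
        (MeasureTheory.volume.restrict (Set.Ici (0 : ℝ))) ∧
      Summable (fun k : ℕ => ‖c k‖ * Real.exp (σ * τ k)) ∧
      ∀ ω : ℝ, φ ω =
        (∫ t in Set.Ici (0 : ℝ), fa t * Complex.exp (-((ω : ℂ) * (t : ℂ) * Complex.I))) +
          ∑' k : ℕ, c k * Complex.exp (-((ω : ℂ) * ((τ k : ℝ) : ℂ) * Complex.I)) := by
  obtain ⟨c, τ, hτ, hsum, hcτ⟩ := coef_out hs.le hπ hneg
  refine ⟨s, hs, γ, c, τ, hτ, ?_, hsum, fun ω => ?_⟩
  · have h1 : Integrable (fun t => ‖γ t‖ * Real.exp (s * |t|))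
        (volume.restrict (Set.Ici (0 : ℝ))) := hγ.2.restrict
    refine h1.mono' ?_ ?_
    · apply AEStronglyMeasurable.mul hγ.1.restrict
      exact (by fun_prop : Continuous (fun t : ℝ => ((Real.exp (s * t) : ℝ) : ℂ))).aestronglyMeasurable
    · refine (ae_restrict_iff' measurableSet_Ici).mpr (Eventually.of_forall (fun t ht => ?_))
      have ht0 : 0 ≤ t := ht
      rw [norm_mul, Complex.norm_real, Real.norm_of_nonneg (Real.exp_pos _).le, abs_of_nonneg ht0]
  · rw [hφ, hcτ]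
    unfold trf
    congr 1
    rw [setIntegral_eq_integral_of_forall_compl_eq_zero]
    · congr 1
      funext t
      rw [smul_eq_mul, mul_comm]; rfl
    · intro t ht
      rw [hγneg t (by simpa using ht), zero_mul]

lemma trf_clm {V W : Type*} [NormedAddCommGroup V] [NormedSpace ℂ V] [CompleteSpace V]
    [NormedAddCommGroup W] [NormedSpace ℂ W] [CompleteSpace W] {f a : ℝ → V}
    (hf : Integrable f) (ha : Summable (fun x => ‖a x‖)) (T : V →L[ℂ] W) (ω : ℝ) :
    trf (fun t => T (f t)) (fun x => T (a x)) ω = T (trf f a ω) := by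
  rw [trf_eq, trf_eq, map_add]
  congr 1
  · exact lt_clm hf T ω
  · unfold trd
    have h := (summable_ek ha ω).hasSum.mapL T
    rw [← h.tsum_eq]
    congr 1
    funext x
    rw [map_smul]

lemma norm_trf_le {V : Type*} [NormedAddCommGroup V] [NormedSpace ℂ V] {f a : ℝ → V}
    (ha : Summable (fun x => ‖a x‖)) (ω : ℝ) : ‖trf f a ω‖ ≤ (∫ t, ‖f t‖) + ∑' x, ‖a x‖ := by
  rw [trf_eq]
  exact (norm_add_le _ _).trans (add_le_add (norm_lt_le f ω) (norm_trd_le ha ω))

variable {n : ℕ}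

/-- matrix entry functional -/
noncomputable def ent (i j : Fin n) :
    (EuclideanSpace ℂ (Fin n) →L[ℂ] EuclideanSpace ℂ (Fin n)) →L[ℂ] ℂ :=
  (EuclideanSpace.proj i : EuclideanSpace ℂ (Fin n) →L[ℂ] ℂ).comp
    (ContinuousLinearMap.apply ℂ (EuclideanSpace ℂ (Fin n)) (EuclideanSpace.single j 1))

lemma ent_toCLM (A : Matrix (Fin n) (Fin n) ℂ) (i j : Fin n) :
    ent i j (Matrix.toEuclideanCLM (n := Fin n) (𝕜 := ℂ) A) = A i j := by
  unfold ent
  simp [EuclideanSpace.single]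

lemma ent_eq (S : EuclideanSpace ℂ (Fin n) →L[ℂ] EuclideanSpace ℂ (Fin n)) (i j : Fin n) :
    (Matrix.toEuclideanCLM (n := Fin n) (𝕜 := ℂ)).symm S i j = ent i j S := by
  have h := ent_toCLM ((Matrix.toEuclideanCLM (n := Fin n) (𝕜 := ℂ)).symm S) i j
  rw [StarAlgEquiv.apply_symm_apply] at h
  exact h.symm

lemma inner_tclm (A : Matrix (Fin n) (Fin n) ℂ) (v : EuclideanSpace ℂ (Fin n)) :
    ⟪v, Matrix.toEuclideanCLM (n := Fin n) (𝕜 := ℂ) A v⟫_ℂ = dotProduct (star v.ofLp) (A.mulVec v.ofLp) := by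
  rw [EuclideanSpace.inner_eq_star_dotProduct, dotProduct_comm]
  rfl

lemma psd_lower {A : Matrix (Fin n) (Fin n) ℂ} (hA : A.IsHermitian)
    (hpos : ∀ x : Fin n → ℂ, 0 ≤ (dotProduct (star x) (A.mulVec x)).re) {M δ : ℝ} (hδ : 0 < δ)
    (hM : 1 ≤ M) (hnorm : ‖Matrix.toEuclideanCLM (n := Fin n) (𝕜 := ℂ) A‖ ≤ M) (hdet : δ ≤ (A.det).re) (v : EuclideanSpace ℂ (Fin n)) :
    δ / M ^ n * ‖v‖ ^ 2 ≤ (⟪v, Matrix.toEuclideanCLM (n := Fin n) (𝕜 := ℂ) A v⟫_ℂ).re := by
  have hM0 : 0 < M := by linarith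
  set b := hA.eigenvectorBasis with hb
  set lam := hA.eigenvalues with hlam
  have hTb : ∀ j, Matrix.toEuclideanCLM (n := Fin n) (𝕜 := ℂ) A (b j) = (lam j : ℂ) • b j := by
    intro j
    have h1 : Matrix.toEuclideanCLM (n := Fin n) (𝕜 := ℂ) A (b j) = WithLp.toLp 2 (A.mulVec (b j).ofLp) := rfl
    rw [h1, hb, hA.mulVec_eigenvectorBasis]
    ext i
    simp [hlam]
  have hinner : ∀ j, ⟪b j, Matrix.toEuclideanCLM (n := Fin n) (𝕜 := ℂ) A (b j)⟫_ℂ = (lam j : ℂ) := by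
    intro j
    rw [hTb, inner_smul_right, inner_self_eq_norm_sq_to_K, b.orthonormal.1 j]
    simp
  have hlam0 : ∀ j, 0 ≤ lam j := by
    intro j
    have h1 := hpos (b j).ofLp
    rw [← inner_tclm, hinner] at h1
    simpa using h1
  have hlamM : ∀ j, lam j ≤ M := by
    intro j
    have h1 : ‖(lam j : ℂ)‖ ≤ M := by
      rw [← hinner]
      calc ‖⟪b j, Matrix.toEuclideanCLM (n := Fin n) (𝕜 := ℂ) A (b j)⟫_ℂ‖ ≤ ‖b j‖ * ‖Matrix.toEuclideanCLM (n := Fin n) (𝕜 := ℂ) A (b j)‖ := norm_inner_le_norm _ _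
        _ ≤ ‖b j‖ * (‖Matrix.toEuclideanCLM (n := Fin n) (𝕜 := ℂ) A‖ * ‖b j‖) := by gcongr; exact ContinuousLinearMap.le_opNorm _ _
        _ = ‖Matrix.toEuclideanCLM (n := Fin n) (𝕜 := ℂ) A‖ := by rw [b.orthonormal.1 j]; ring
        _ ≤ M := hnorm
    rw [Complex.norm_real, Real.norm_of_nonneg (hlam0 j)] at h1
    exact h1
  have hdet' : δ ≤ ∏ j, lam j := by
    rw [hA.det_eq_prod_eigenvalues] at hdet
    have e : (∏ i, (hA.eigenvalues i : ℂ)) = ((∏ i, lam i : ℝ) : ℂ) := by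
      push_cast; rfl
    have e2 : (∏ i, ((hA.eigenvalues i : ℝ) : ℂ)).re = ∏ i, lam i := by
      rw [e, Complex.ofReal_re]
    exact hdet.trans (le_of_eq e2)
  have hlow : ∀ j, δ / M ^ n ≤ lam j := by
    intro j
    rw [div_le_iff₀ (by positivity)]
    calc δ ≤ ∏ i, lam i := hdet'
      _ = lam j * ∏ i ∈ Finset.univ.erase j, lam i :=
          (Finset.mul_prod_erase _ _ (Finset.mem_univ j)).symm
      _ ≤ lam j * M ^ (Finset.univ.erase j).card := by
          apply mul_le_mul_of_nonneg_left _ (hlam0 j)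
          rw [← Finset.prod_const]
          exact Finset.prod_le_prod (fun i _ => hlam0 i) (fun i _ => hlamM i)
      _ ≤ lam j * M ^ n := by
          apply mul_le_mul_of_nonneg_left _ (hlam0 j)
          apply pow_le_pow_right₀ hM
          exact (Finset.card_le_univ _).trans (by simp)
  have hsa : star (Matrix.toEuclideanCLM (n := Fin n) (𝕜 := ℂ) A) = Matrix.toEuclideanCLM (n := Fin n) (𝕜 := ℂ) A := by
    rw [← map_star]
    congr 1
  have hsum : (⟪v, Matrix.toEuclideanCLM (n := Fin n) (𝕜 := ℂ) A v⟫_ℂ).re = ∑ i, lam i * ‖⟪b i, v⟫_ℂ‖ ^ 2 := by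
    rw [← b.sum_inner_mul_inner v (Matrix.toEuclideanCLM (n := Fin n) (𝕜 := ℂ) A v), Complex.re_sum]
    congr 1
    funext i
    have h1 : ⟪b i, Matrix.toEuclideanCLM (n := Fin n) (𝕜 := ℂ) A v⟫_ℂ = (lam i : ℂ) * ⟪b i, v⟫_ℂ := by
      rw [← ContinuousLinearMap.adjoint_inner_left, ← ContinuousLinearMap.star_eq_adjoint, hsa,
        hTb, inner_smul_left, Complex.conj_ofReal]
    rw [h1]
    have h2 : ⟪v, b i⟫_ℂ * ((lam i : ℂ) * ⟪b i, v⟫_ℂ) = (lam i : ℂ) * (‖⟪b i, v⟫_ℂ‖ ^ 2 : ℝ) := by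
      have h3 : ⟪v, b i⟫_ℂ * ⟪b i, v⟫_ℂ = ((‖⟪b i, v⟫_ℂ‖ ^ 2 : ℝ) : ℂ) := by
        rw [← inner_conj_symm v (b i), Complex.conj_mul']
        push_cast; rfl
      rw [← h3]; ring
    rw [h2, ← Complex.ofReal_mul, Complex.ofReal_re]
  rw [hsum, ← b.sum_sq_norm_inner_right v, Finset.mul_sum]
  gcongr with i
  exact hlow i

end Mat

end Pool.Agent.Helper859
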