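import Pool.Agent.Helper859.Mat

set_option autoImplicit false

namespace Pool.Agent.Helper859

open scoped ENNReal InnerProductSpace
open Filter Topology MeasureTheory

section MatMain
set_option linter.unusedSectionVars false
set_option linter.unusedVariables false

lemma WS.finset_sum {V ι : Type*} [NormedAddCommGroup V] {s : ℝ} (S : Finset ι) {a : ι → ℝ → V}
    (ha : ∀ i ∈ S, WS s (a i)) : WS s (fun x => ∑ i ∈ S, a i x) := by
  refine Summable.of_nonneg_of_le (fun x => by positivity) (fun x => ?_) (summable_sum ha)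
  rw [← Finset.sum_mul]
  gcongr
  exact norm_sum_le _ _

variable {n : ℕ}

lemma sum_tclm (A : Matrix (Fin n) (Fin n) ℂ) :
    ∑ i, ∑ j, A i j • Matrix.toEuclideanCLM (n := Fin n) (𝕜 := ℂ) (Matrix.single i j 1) = Matrix.toEuclideanCLM (n := Fin n) (𝕜 := ℂ) A := by
  conv_rhs => rw [Matrix.matrix_eq_sum_single A]
  rw [map_sum]
  congr 1
  funext i
  rw [map_sum]
  congr 1
  funext j
  rw [← map_smul, Matrix.smul_single, smul_eq_mul, mul_one]

lemma WI_of_input {fa : ℝ → ℂ} {σ : ℝ}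
    (h : Integrable (fun t : ℝ => fa t * ((Real.exp (σ * |t|) : ℝ) : ℂ))) : WI σ fa := by
  refine ⟨?_, ?_⟩
  · have h1 : fa = fun t => (fa t * ((Real.exp (σ * |t|) : ℝ) : ℂ))
        * ((Real.exp (-(σ * |t|)) : ℝ) : ℂ) := by
      funext t
      rw [mul_assoc, ← Complex.ofReal_mul, ← Real.exp_add]
      simp
    rw [h1]
    apply h.1.mul
    exact (by fun_prop : Continuous (fun t : ℝ => ((Real.exp (-(σ * |t|)) : ℝ) : ℂ))).aestronglyMeasurable
  · refine h.norm.congr (Eventually.of_forall (fun t => ?_))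
    simp only
    rw [norm_mul, Complex.norm_real, Real.norm_of_nonneg (Real.exp_pos _).le]

theorem mat_factor (hn : 0 < n) (F : ℝ → Matrix (Fin n) (Fin n) ℂ)
    (hrep : ∀ i j : Fin n, ∃ σ : ℝ, 0 < σ ∧ ∃ (fa : ℝ → ℂ) (c : ℕ → ℂ) (τ : ℕ → ℝ),
      Integrable (fun t : ℝ => fa t * ((Real.exp (σ * |t|) : ℝ) : ℂ)) ∧
      Summable (fun k : ℕ => ‖c k‖ * Real.exp (σ * |τ k|)) ∧
      ∀ ω : ℝ, F ω i j =
        (∫ t : ℝ, fa t * Complex.exp (-((ω : ℂ) * (t : ℂ) * Complex.I))) +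
          ∑' k : ℕ, c k * Complex.exp (-((ω : ℂ) * ((τ k : ℝ) : ℂ) * Complex.I)))
    (hpsd : ∀ ω : ℝ, (F ω).IsHermitian ∧
      ∀ x : Fin n → ℂ, 0 ≤ (dotProduct (star x) ((F ω).mulVec x)).re)
    {δ : ℝ} (hδ : 0 < δ) (hdet : ∀ ω : ℝ, δ ≤ ((F ω).det).re) :
    ∃ s : ℝ, 0 < s ∧ ∃ g p g' p' : ℝ → EuclideanSpace ℂ (Fin n) →L[ℂ] EuclideanSpace ℂ (Fin n),
      WI s g ∧ WS s p ∧ (∀ t < 0, g t = 0) ∧ (∀ t < 0, p t = 0) ∧
      WI s g' ∧ WS s p' ∧ (∀ t < 0, g' t = 0) ∧ (∀ t < 0, p' t = 0) ∧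
      ∀ ω, trf g p ω * trf g' p' ω = 1 ∧ trf g' p' ω * trf g p ω = 1 ∧
        Matrix.toEuclideanCLM (n := Fin n) (𝕜 := ℂ) (F ω) = star (trf g p ω) * trf g p ω := by
  have : NeZero n := ⟨hn.ne'⟩
  have : Nontrivial (EuclideanSpace ℂ (Fin n)) := by
    apply Module.nontrivial_of_finrank_pos (R := ℂ)
    rw [finrank_euclideanSpace_fin]; exact hn
  choose σ hσ fa c τ hfa hsum hF using hrep
  have hα := fun i j => coef_in (hσ i j).le (hsum i j)
  choose α hαW hαt using hα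
  obtain ⟨q, hq⟩ := Finite.exists_min (fun p : Fin n × Fin n => σ p.1 p.2)
  set σ0 := σ q.1 q.2 with hσ0
  have hσ0pos : 0 < σ0 := hσ _ _
  have hmin : ∀ i j, σ0 ≤ σ i j := fun i j => hq (i, j)
  set f : ℝ → EuclideanSpace ℂ (Fin n) →L[ℂ] EuclideanSpace ℂ (Fin n) :=
    fun t => ∑ i, ∑ j, fa i j t • Matrix.toEuclideanCLM (n := Fin n) (𝕜 := ℂ) (Matrix.single i j 1) with hf
  set a : ℝ → EuclideanSpace ℂ (Fin n) →L[ℂ] EuclideanSpace ℂ (Fin n) :=
    fun x => ∑ i, ∑ j, α i j x • Matrix.toEuclideanCLM (n := Fin n) (𝕜 := ℂ) (Matrix.single i j 1) with ha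
  have hfW : WI σ0 f := by
    apply WI.finset_sum; intro i _
    apply WI.finset_sum; intro j _
    exact ((WI_of_input (hfa i j)).mono (hmin i j)).clm
      (ContinuousLinearMap.toSpanSingleton ℂ (Matrix.toEuclideanCLM (n := Fin n) (𝕜 := ℂ) (Matrix.single i j 1)))
  have haW : WS σ0 a := by
    apply WS.finset_sum; intro i _
    apply WS.finset_sum; intro j _
    exact ((hαW i j).mono (hmin i j)).clm
      (ContinuousLinearMap.toSpanSingleton ℂ (Matrix.toEuclideanCLM (n := Fin n) (𝕜 := ℂ) (Matrix.single i j 1)))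
  have hfi := hfW.integrable hσ0pos.le
  have ha0 := haW.summable hσ0pos.le
  have hfe : ∀ i j t, ent i j (f t) = fa i j t := by
    intro i j t
    have : f t = Matrix.toEuclideanCLM (n := Fin n) (𝕜 := ℂ) (Matrix.of fun i j => fa i j t) := by
      rw [← sum_tclm]; rfl
    rw [this, ent_toCLM]; rfl
  have hae : ∀ i j x, ent i j (a x) = α i j x := by
    intro i j t
    have : a t = Matrix.toEuclideanCLM (n := Fin n) (𝕜 := ℂ) (Matrix.of fun i j => α i j t) := by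
      rw [← sum_tclm]; rfl
    rw [this, ent_toCLM]; rfl
  have htrf : ∀ ω, trf f a ω = Matrix.toEuclideanCLM (n := Fin n) (𝕜 := ℂ) (F ω) := by
    intro ω
    have h1 : (Matrix.toEuclideanCLM (n := Fin n) (𝕜 := ℂ)).symm (trf f a ω) = F ω := by
      ext i j
      rw [ent_eq, ← trf_clm hfi ha0]
      simp only [hfe, hae]
      rw [hF]
      unfold trf
      rw [hαt]
      congr 1
      congr 1
      funext t
      rw [smul_eq_mul, mul_comm]; rfl
    rw [← h1, StarAlgEquiv.apply_symm_apply]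
  set M := ((∫ t, ‖f t‖) + ∑' x, ‖a x‖) + 1 with hM
  have hM1 : 1 ≤ M := by
    have h1 : 0 ≤ ∫ t, ‖f t‖ := integral_nonneg (fun t => norm_nonneg _)
    have h2 : 0 ≤ ∑' x, ‖a x‖ := tsum_nonneg (fun t => norm_nonneg _)
    linarith
  have hnorm : ∀ ω, ‖Matrix.toEuclideanCLM (n := Fin n) (𝕜 := ℂ) (F ω)‖ ≤ M := by
    intro ω
    rw [← htrf]
    exact (norm_trf_le ha0 ω).trans (by linarith)
  have hpos : ∀ (ω : ℝ) (v : EuclideanSpace ℂ (Fin n)),
      δ / M ^ n * ‖v‖ ^ 2 ≤ (⟪v, trf f a ω v⟫_ℂ).re := by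
    intro ω v
    rw [htrf]
    exact psd_lower (hpsd ω).1 (hpsd ω).2 hδ hM1 (hnorm ω) (hdet ω) v
  have hsa : ∀ ω, star (trf f a ω) = trf f a ω := by
    intro ω
    rw [htrf, ← map_star]
    congr 1
    exact (hpsd ω).1
  obtain ⟨s, hs, hss, g, p, g', p', h1, h2, h3, h4, h5, h6, h7, h8, h9⟩ :=
    op_factor hσ0pos (by positivity : 0 < δ / M ^ n) hfW haW hsa hpos
  refine ⟨s, hs, g, p, g', p', h1, h2, h3, h4, h5, h6, h7, h8, fun ω => ?_⟩
  obtain ⟨e1, e2, e3⟩ := h9 ω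
  exact ⟨e1, e2, by rw [← htrf]; exact e3⟩

end MatMain

end Pool.Agent.Helper859
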