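import Pool.Agent.Helper859.WH

set_option autoImplicit false

namespace Pool.Agent.Helper859

open scoped ENNReal InnerProductSpace FourierTransform SchwartzMap
open Filter Topology MeasureTheory

section Pos
set_option linter.unusedSectionVars false
set_option linter.unusedVariables false

variable {E : Type} [NormedAddCommGroup E] [InnerProductSpace ℂ E] [CompleteSpace E]

lemma fourier_eq_ek {V : Type*} [NormedAddCommGroup V] [NormedSpace ℂ V] (f : ℝ → V) (ξ : ℝ) :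
    𝓕 f ξ = ∫ t, ek (2 * Real.pi * ξ) t • f t := by
  rw [Real.fourier_eq]
  congr 1
  funext t
  rw [Circle.smul_def]
  congr 1
  rw [Real.fourierChar_apply, ek_def]
  congr 1
  simp only [RCLike.inner_apply, conj_trivial]
  push_cast
  ring

/-- positivity on Schwartz functions -/
lemma pos_schwartz {K : ℝ → E →L[ℂ] E} (hK : Integrable K) {ε : ℝ}
    (hpos : ∀ (ω : ℝ) (v : E), ε * ‖v‖ ^ 2 ≤ ‖v‖ ^ 2 + (⟪(∫ t, ek ω t • K t) v, v⟫_ℂ).re)
    (φ : 𝓢(ℝ, E)) :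
    ε * ∫ t, ‖φ t‖ ^ 2 ≤ (∫ t, ‖φ t‖ ^ 2) + (∫ t, ⟪cv K φ t, φ t⟫_ℂ).re := by
  have hφ : Integrable (φ : ℝ → E) := φ.integrable
  have hcv : Integrable (cv K φ) := by
    have := (young_one hK (memLp_one_iff_integrable.mpr hφ)).2.1
    exact memLp_one_iff_integrable.mp this
  set ψ : 𝓢(ℝ, E) := 𝓕 φ with hψ
  have hF : Integrable (ψ : ℝ → E) := ψ.integrable
  have h1 : ∫ ξ, ⟪𝓕 (cv K φ) ξ, ψ ξ⟫_ℂ = ∫ x, ⟪cv K φ x, φ x⟫_ℂ := by
    have h := VectorFourier.integral_sesq_fourierIntegral_eq_neg_flip (innerSL ℂ : E →L⋆[ℂ] E →L[ℂ] ℂ)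
      (L := innerₗ ℝ) (μ := volume) (ν := volume) (e := Real.fourierChar)
      Real.continuous_fourierChar continuous_inner hcv hF
    have h2 : ∀ x, VectorFourier.fourierIntegral Real.fourierChar volume (-(innerₗ ℝ).flip)
        (ψ : ℝ → E) x = φ x := by
      intro x
      have h3 : (𝓕⁻ ψ : 𝓢(ℝ, E)) x = φ x := by rw [hψ, FourierTransform.fourierInv_fourier_eq]
      rw [← h3, SchwartzMap.fourierInv_coe, Real.fourierInv_eq]
      unfold VectorFourier.fourierIntegral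
      congr 1
      funext t
      simp
    simp only [h2] at h
    exact h
  have h2 : ∀ ξ, 𝓕 (cv K φ) ξ = (𝓕 K ξ) (ψ ξ) := by
    intro ξ
    have := Real.fourier_bilin_convolution_eq (ContinuousLinearMap.id ℂ (E →L[ℂ] E)) hK hφ ξ
    exact this
  have hKb : ∀ ξ, ‖𝓕 K ξ‖ ≤ ∫ t, ‖K t‖ := by
    intro ξ
    rw [fourier_eq_ek]
    refine (norm_integral_le_integral_norm _).trans (le_of_eq ?_)
    congr 1
    funext t
    rw [norm_smul, norm_ek, one_mul]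
  have hKc : Continuous (𝓕 K) := by
    have h := continuous_trf hK (a := fun _ => (0 : E →L[ℂ] E)) (by simp)
    unfold trf at h
    simp only [smul_zero, tsum_zero, add_zero] at h
    have e : 𝓕 K = (fun ω => ∫ t, ek ω t • K t) ∘ (fun ξ : ℝ => 2 * Real.pi * ξ) := by
      funext ξ; exact fourier_eq_ek K ξ
    rw [e]
    exact h.comp (by fun_prop)
  have hsq : Integrable (fun ξ => ‖ψ ξ‖ ^ 2) := by
    have := ψ.memLp 2 volume
    exact this.integrable_norm_pow (by norm_num)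
  have hint : Integrable (fun ξ => ⟪(𝓕 K ξ) (ψ ξ), ψ ξ⟫_ℂ) := by
    refine (hsq.const_mul (∫ t, ‖K t‖)).mono' ?_ ?_
    · apply Continuous.aestronglyMeasurable
      exact (hKc.clm_apply ψ.continuous).inner ψ.continuous
    · refine Eventually.of_forall (fun ξ => ?_)
      calc ‖⟪(𝓕 K ξ) (ψ ξ), ψ ξ⟫_ℂ‖ ≤ ‖(𝓕 K ξ) (ψ ξ)‖ * ‖ψ ξ‖ := norm_inner_le_norm _ _
        _ ≤ (‖𝓕 K ξ‖ * ‖ψ ξ‖) * ‖ψ ξ‖ := by
            gcongr; exact ContinuousLinearMap.le_opNorm _ _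
        _ ≤ ((∫ t, ‖K t‖) * ‖ψ ξ‖) * ‖ψ ξ‖ := by gcongr; exact hKb ξ
        _ = _ := by ring
  have h3 : (∫ x, ⟪cv K φ x, φ x⟫_ℂ).re = ∫ ξ, (⟪(𝓕 K ξ) (ψ ξ), ψ ξ⟫_ℂ).re := by
    rw [← h1]
    simp only [h2]
    exact (integral_re hint).symm
  have h4 : ∫ x, ‖φ x‖ ^ 2 = ∫ ξ, ‖ψ ξ‖ ^ 2 := (SchwartzMap.integral_norm_sq_fourier φ).symm
  have hre : Integrable (fun ξ => (⟪(𝓕 K ξ) (ψ ξ), ψ ξ⟫_ℂ).re) := hint.re
  rw [h3, h4, ← integral_add hsq hre, ← integral_const_mul]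
  apply integral_mono (hsq.const_mul ε) (hsq.add hre)
  intro ξ
  have h5 := hpos (2 * Real.pi * ξ) (ψ ξ)
  rw [← fourier_eq_ek] at h5
  exact h5

/-- positivity on all of `L²` -/
lemma pos_L2 {K : ℝ → E →L[ℂ] E} (hK : Integrable K) {ε : ℝ}
    (hpos : ∀ (ω : ℝ) (v : E), ε * ‖v‖ ^ 2 ≤ ‖v‖ ^ 2 + (⟪(∫ t, ek ω t • K t) v, v⟫_ℂ).re)
    (y : Lp E 2 (volume : Measure ℝ)) :
    ε * ‖y‖ ^ 2 ≤ ‖y‖ ^ 2 + (⟪whop 2 youngP_two MeasurableSet.univ hK y, y⟫_ℂ).re := by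
  have hdense := SchwartzMap.denseRange_toLpCLM (E := ℝ) (F := E) (p := 2) (μ := volume)
    ENNReal.ofNat_ne_top
  refine hdense.induction_on (p := fun y : Lp E 2 (volume : Measure ℝ) => ε * ‖y‖ ^ 2 ≤ ‖y‖ ^ 2
    + (⟪whop 2 youngP_two MeasurableSet.univ hK y, y⟫_ℂ).re) y ?_ ?_
  · apply isClosed_le
    · fun_prop
    · apply Continuous.add (by fun_prop)
      apply Complex.continuous_re.comp
      exact ((whop 2 youngP_two MeasurableSet.univ hK).continuous).inner continuous_id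
  · intro φ
    have hφ : (SchwartzMap.toLpCLM ℝ E 2 volume φ : Lp E 2 (volume : Measure ℝ))
        =ᵐ[volume] φ := φ.coeFn_toLp 2 volume
    set y := (SchwartzMap.toLpCLM ℝ E 2 volume φ : Lp E 2 (volume : Measure ℝ)) with hy
    have h1 : ‖y‖ ^ 2 = ∫ t, ‖φ t‖ ^ 2 := by
      have h2 : (⟪y, y⟫_ℂ) = ((‖y‖ : ℂ)) ^ 2 := inner_self_eq_norm_sq_to_K y
      have h3 : (⟪y, y⟫_ℂ) = ∫ t, ((‖φ t‖ ^ 2 : ℝ) : ℂ) := by
        rw [L2.inner_def]
        apply integral_congr_ae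
        filter_upwards [hφ] with t ht
        rw [ht, inner_self_eq_norm_sq_to_K]
        norm_cast
      rw [h3, integral_complex_ofReal] at h2
      exact_mod_cast h2.symm
    have h2 : ⟪whop 2 youngP_two MeasurableSet.univ hK y, y⟫_ℂ = ∫ t, ⟪cv K φ t, φ t⟫_ℂ := by
      rw [L2.inner_def]
      apply integral_congr_ae
      filter_upwards [hφ, whop_coe 2 youngP_two MeasurableSet.univ hK y] with t ht h3
      rw [ht, h3]
      simp only [Set.indicator_univ]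
      rw [cv_congr hφ]
    rw [h1, h2]
    exact pos_schwartz hK hpos φ

end Pos

end Pool.Agent.Helper859
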