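import Pool.Agent.Helper859.WInt

set_option autoImplicit false

namespace Pool.Agent.Helper859

open scoped ENNReal InnerProductSpace FourierTransform SchwartzMap
open Filter Topology MeasureTheory

section Solve
set_option linter.unusedSectionVars false
set_option linter.unusedVariables false

variable {E : Type} [NormedAddCommGroup E] [InnerProductSpace ℂ E] [CompleteSpace E]

/-- exponentially weighted kernel -/
noncomputable def wk {V : Type*} [NormedAddCommGroup V] [NormedSpace ℂ V] (s : ℝ) (K : ℝ → V)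
    (t : ℝ) : V := ((Real.exp (s * t) : ℝ) : ℂ) • K t

lemma abs_exp_sub_one_le' (x : ℝ) : |Real.exp x - 1| ≤ |x| * Real.exp |x| := by
  rcases le_or_gt 0 x with hx | hx
  · rw [abs_of_nonneg hx, abs_of_nonneg (by linarith [Real.one_le_exp hx])]
    have h := Real.add_one_le_exp (-x)
    have h2 : Real.exp x * Real.exp (-x) = 1 := by rw [← Real.exp_add]; simp
    have h3 := Real.exp_pos x
    nlinarith
  · have h1 : Real.exp x ≤ 1 := Real.exp_le_one_iff.mpr hx.le
    rw [abs_of_nonpos (by linarith), abs_of_neg hx]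
    have h := Real.add_one_le_exp x
    have h3 := Real.one_le_exp (by linarith : 0 ≤ -x)
    nlinarith

lemma exp_diff_bound {s0 s : ℝ} (hs0 : 0 < s0) (hs : 0 ≤ s) (hs2 : s ≤ s0 / 2) (t : ℝ) :
    |Real.exp (s * t) - 1| ≤ (2 * s / s0) * Real.exp (s0 * |t|) := by
  have h1 := abs_exp_sub_one_le' (s * t)
  rw [abs_mul, abs_of_nonneg hs] at h1
  have h2 : (s0 / 2) * |t| ≤ Real.exp ((s0 / 2) * |t|) := by
    have := Real.add_one_le_exp ((s0 / 2) * |t|); linarith
  have h3 : Real.exp (s * |t|) ≤ Real.exp ((s0 / 2) * |t|) := by gcongr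
  have h4 : Real.exp (s0 * |t|) = Real.exp ((s0 / 2) * |t|) * Real.exp ((s0 / 2) * |t|) := by
    rw [← Real.exp_add]; ring_nf
  calc |Real.exp (s * t) - 1| ≤ s * |t| * Real.exp (s * |t|) := h1
    _ ≤ s * |t| * Real.exp ((s0 / 2) * |t|) := by gcongr
    _ = (2 * s / s0) * ((s0 / 2) * |t|) * Real.exp ((s0 / 2) * |t|) := by field_simp
    _ ≤ (2 * s / s0) * Real.exp ((s0 / 2) * |t|) * Real.exp ((s0 / 2) * |t|) := by gcongr
    _ = _ := by rw [h4]; ring

lemma wk_meas {V : Type*} [NormedAddCommGroup V] [NormedSpace ℂ V] {s : ℝ} {K : ℝ → V}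
    (hK : AEStronglyMeasurable K volume) : AEStronglyMeasurable (wk s K) volume := by
  unfold wk
  apply AEStronglyMeasurable.smul _ hK
  exact (by fun_prop : Continuous (fun t : ℝ => ((Real.exp (s * t) : ℝ) : ℂ))).aestronglyMeasurable

lemma wk_integrable {V : Type*} [NormedAddCommGroup V] [NormedSpace ℂ V] {s0 s : ℝ} {K : ℝ → V}
    (hs : 0 ≤ s) (hs2 : s ≤ s0) (hK : WI s0 K) : Integrable (wk s K) := by
  refine hK.2.mono' (wk_meas hK.1) (Eventually.of_forall (fun t => ?_))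
  unfold wk
  rw [norm_smul, Complex.norm_real, Real.norm_of_nonneg (Real.exp_pos _).le, mul_comm]
  have h1 : s * t ≤ s0 * |t| := by
    calc s * t ≤ s * |t| := by gcongr; exact le_abs_self t
      _ ≤ s0 * |t| := by gcongr
  gcongr

/-- the weighted kernel converges in `L¹` -/
lemma wk_close {V : Type*} [NormedAddCommGroup V] [NormedSpace ℂ V] {s0 η : ℝ} {K : ℝ → V}
    (hs0 : 0 < s0) (hη : 0 < η) (hK : WI s0 K) :
    ∃ s, 0 < s ∧ s ≤ s0 / 2 ∧ ∫ t, ‖wk s K t - K t‖ ≤ η := by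
  set C := ∫ t, ‖K t‖ * Real.exp (s0 * |t|) with hC
  have hC0 : 0 ≤ C := integral_nonneg (fun t => by positivity)
  set s := min (s0 / 2) (s0 * η / (2 * (C + 1))) with hs
  have hs_pos : 0 < s := lt_min (by positivity) (by positivity)
  refine ⟨s, hs_pos, min_le_left _ _, ?_⟩
  have h1 : ∀ t, ‖wk s K t - K t‖ ≤ (2 * s / s0) * (‖K t‖ * Real.exp (s0 * |t|)) := by
    intro t
    have e : wk s K t - K t = ((Real.exp (s * t) - 1 : ℝ) : ℂ) • K t := by
      unfold wk; push_cast; rw [sub_smul, one_smul]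
    rw [e, norm_smul, Complex.norm_real, Real.norm_eq_abs]
    have := exp_diff_bound hs0 hs_pos.le (min_le_left _ _) t
    calc |Real.exp (s * t) - 1| * ‖K t‖ ≤ ((2 * s / s0) * Real.exp (s0 * |t|)) * ‖K t‖ := by gcongr
      _ = _ := by ring
  calc ∫ t, ‖wk s K t - K t‖ ≤ ∫ t, (2 * s / s0) * (‖K t‖ * Real.exp (s0 * |t|)) := by
        apply integral_mono_of_nonneg (Eventually.of_forall (fun t => norm_nonneg _))
          (hK.2.const_mul _) (Eventually.of_forall h1)
    _ = (2 * s / s0) * C := by rw [integral_const_mul]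
    _ ≤ (2 * (s0 * η / (2 * (C + 1))) / s0) * C := by
        gcongr; exact min_le_right _ _
    _ = η * (C / (C + 1)) := by field_simp
    _ ≤ η * 1 := by
        gcongr
        rw [div_le_one (by linarith)]; linarith
    _ = η := mul_one _

/-- `1_S y` as an element of `L²` -/
noncomputable def ind2 {S : Set ℝ} (hS : MeasurableSet S) (y : Lp E 2 (volume : Measure ℝ)) :
    Lp E 2 (volume : Measure ℝ) := MemLp.toLp (S.indicator y) ((Lp.memLp y).indicator hS)

lemma ind2_coe {S : Set ℝ} (hS : MeasurableSet S) (y : Lp E 2 (volume : Measure ℝ)) :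
    ind2 hS y =ᵐ[volume] S.indicator y := MemLp.coeFn_toLp _

lemma norm_ind2_le {S : Set ℝ} (hS : MeasurableSet S) (y : Lp E 2 (volume : Measure ℝ)) :
    ‖ind2 hS y‖ ≤ ‖y‖ := by
  unfold ind2
  rw [Lp.norm_toLp, Lp.norm_def]
  exact ENNReal.toReal_mono (Lp.memLp y).2.ne (eLpNorm_indicator_le _)

lemma inner_whop_S {K : ℝ → E →L[ℂ] E} (hK : Integrable K) {S : Set ℝ} (hS : MeasurableSet S)
    (y : Lp E 2 (volume : Measure ℝ)) :
    ⟪whop 2 youngP_two hS hK y, y⟫_ℂ
      = ⟪whop 2 youngP_two MeasurableSet.univ hK (ind2 hS y), ind2 hS y⟫_ℂ := by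
  rw [L2.inner_def, L2.inner_def]
  apply integral_congr_ae
  filter_upwards [whop_coe 2 youngP_two hS hK y,
    whop_coe 2 youngP_two MeasurableSet.univ hK (ind2 hS y), ind2_coe hS y] with t h1 h2 h3
  rw [h1, h2, h3]
  simp only [Set.indicator_univ]
  rw [cv_congr (ind2_coe hS y)]
  by_cases ht : t ∈ S
  · simp only [Set.indicator_of_mem ht]
  · simp only [Set.indicator_of_notMem ht, inner_zero_left, inner_zero_right]

/-- coercivity of the truncated operator with nearby kernel -/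
lemma coercive_whop {K K' : ℝ → E →L[ℂ] E} (hK : Integrable K) (hK' : Integrable K') {ε : ℝ}
    (hε : 0 < ε) (hε1 : ε ≤ 1)
    (hpos : ∀ (ω : ℝ) (v : E), ε * ‖v‖ ^ 2 ≤ ‖v‖ ^ 2 + (⟪(∫ t, ek ω t • K t) v, v⟫_ℂ).re)
    (hclose : ∫ t, ‖K' t - K t‖ ≤ ε / 2) {S : Set ℝ} (hS : MeasurableSet S) :
    IsUnit (1 + whop 2 youngP_two hS hK' : Lp E 2 (volume : Measure ℝ) →L[ℂ]
      Lp E 2 (volume : Measure ℝ)) := by
  apply ContinuousLinearMap.isUnit_of_forall_le_norm_inner_map _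
    (c := ⟨ε / 2, by positivity⟩) (NNReal.coe_pos.mp (by change (0 : ℝ) < ε / 2; positivity))
  intro y
  have h1 := pos_L2 hK hpos (ind2 hS y)
  rw [← inner_whop_S hK hS y] at h1
  have h2 : ‖whop 2 youngP_two hS hK' y - whop 2 youngP_two hS hK y‖ ≤ ε / 2 * ‖y‖ := by
    rw [whop_sub]
    refine (ContinuousLinearMap.le_opNorm _ _).trans ?_
    gcongr
    exact (norm_whop_le _ _ _ _).trans hclose
  have h3 : (⟪(1 + whop 2 youngP_two hS hK' : Lp E 2 (volume : Measure ℝ) →L[ℂ]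
      Lp E 2 (volume : Measure ℝ)) y, y⟫_ℂ).re
      = ‖y‖ ^ 2 + (⟪whop 2 youngP_two hS hK y, y⟫_ℂ).re
        + (⟪whop 2 youngP_two hS hK' y - whop 2 youngP_two hS hK y, y⟫_ℂ).re := by
    rw [add_apply, one_apply_eq_self, inner_add_left, inner_sub_left, Complex.add_re, Complex.sub_re]
    have : (⟪y, y⟫_ℂ).re = ‖y‖ ^ 2 := by
      rw [inner_self_eq_norm_sq_to_K]; norm_cast
    rw [this]; ring
  have h4 : |(⟪whop 2 youngP_two hS hK' y - whop 2 youngP_two hS hK y, y⟫_ℂ).re|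
      ≤ ε / 2 * ‖y‖ * ‖y‖ := by
    refine (Complex.abs_re_le_norm _).trans ((norm_inner_le_norm _ _).trans ?_)
    gcongr
  have h5 := norm_ind2_le hS y
  have h6 : ‖ind2 hS y‖ ^ 2 ≤ ‖y‖ ^ 2 := by gcongr
  have h7 := abs_le.mp h4
  have h8 : ε / 2 * ‖y‖ ^ 2 ≤ (⟪(1 + whop 2 youngP_two hS hK' : Lp E 2 (volume : Measure ℝ) →L[ℂ]
      Lp E 2 (volume : Measure ℝ)) y, y⟫_ℂ).re := by
    rw [h3]
    nlinarith
  calc ‖y‖ ^ 2 * ((⟨ε / 2, by positivity⟩ : NNReal) : ℝ) = ε / 2 * ‖y‖ ^ 2 := by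
        rw [mul_comm]
    _ ≤ _ := h8
    _ ≤ _ := (le_abs_self _).trans (Complex.abs_re_le_norm _)

end Solve

end Pool.Agent.Helper859
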