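import Pool.Agent.Helper859.Solve

set_option autoImplicit false

namespace Pool.Agent.Helper859

open scoped ENNReal InnerProductSpace FourierTransform SchwartzMap
open Filter Topology MeasureTheory

section Solve
set_option linter.unusedSectionVars false
set_option linter.unusedVariables false

variable {E : Type} [NormedAddCommGroup E] [InnerProductSpace ℂ E] [CompleteSpace E]

lemma isUnit_one_add_clm {X : Type*} [NormedAddCommGroup X] [NormedSpace ℂ X] [CompleteSpace X]
    {T : X →L[ℂ] X} (h : ‖T‖ < 1) : IsUnit (1 + T) := by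
  have h1 : ‖-T‖ < 1 := by rwa [norm_neg]
  have h2 := isUnit_one_sub_of_norm_lt_one h1
  rwa [sub_neg_eq_add] at h2

lemma memLp_two_of_bounded {b : ℝ → E} (hb : Integrable b) {M : ℝ} (hM : ∀ t, ‖b t‖ ≤ M) :
    MemLp b 2 (volume : Measure ℝ) := by
  rw [memLp_two_iff_integrable_sq_norm hb.1]
  refine (hb.norm.const_mul M).mono' (hb.1.norm.pow 2) (Eventually.of_forall (fun t => ?_))
  rw [Real.norm_of_nonneg (by positivity), sq]
  gcongr
  exact hM t

lemma norm_cv_le {g : ℝ → E →L[ℂ] E} {y : ℝ → E} (hy : Integrable y) {M : ℝ}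
    (hM : ∀ t, ‖g t‖ ≤ M) (t : ℝ) : ‖cv g y t‖ ≤ M * ∫ u, ‖y u‖ := by
  unfold cv
  have hM0 : 0 ≤ M := (norm_nonneg _).trans (hM 0)
  calc ‖∫ u, g u (y (t - u))‖ ≤ ∫ u, ‖g u (y (t - u))‖ := norm_integral_le_integral_norm _
    _ ≤ ∫ u, M * ‖y (t - u)‖ := by
        apply integral_mono_of_nonneg (Eventually.of_forall (fun u => norm_nonneg _))
        · exact (hy.norm.comp_sub_left t).const_mul M
        · refine Eventually.of_forall (fun u => ?_)
          refine ((g u).le_opNorm _).trans ?_
          exact mul_le_mul_of_nonneg_right (hM u) (norm_nonneg _)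
    _ = M * ∫ u, ‖y u‖ := by
        rw [integral_const_mul, integral_sub_left_eq_self (fun u => ‖y u‖) volume t]

lemma exp_ind_memLp {r : ℝ} (hr : 0 < r) :
    MemLp ((Set.Ici (0 : ℝ)).indicator (fun t => Real.exp (-r * t))) 2 (volume : Measure ℝ) := by
  have hm : AEStronglyMeasurable ((Set.Ici (0 : ℝ)).indicator (fun t => Real.exp (-r * t)))
      volume := (by fun_prop : Continuous (fun t : ℝ => Real.exp (-r * t))).aestronglyMeasurable.indicator
        measurableSet_Ici
  rw [memLp_two_iff_integrable_sq_norm hm]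
  have h1 : IntegrableOn (fun t : ℝ => Real.exp (-(2 * r) * t)) (Set.Ici 0) :=
    (integrableOn_Ici_iff_integrableOn_Ioi).mpr (exp_neg_integrableOn_Ioi 0 (by positivity))
  have h2 := (integrable_indicator_iff measurableSet_Ici).mpr h1
  refine h2.congr (Eventually.of_forall (fun t => ?_))
  by_cases ht : t ∈ Set.Ici (0 : ℝ)
  · simp only [Set.indicator_of_mem ht]
    rw [Real.norm_of_nonneg (Real.exp_pos _).le, ← Real.exp_nat_mul]
    congr 1
    push_cast
    ring
  · simp only [Set.indicator_of_notMem ht]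
    simp

/-- solution of the half line convolution equation -/
theorem wh_solve {K : ℝ → E →L[ℂ] E} {s0 ε : ℝ} (hs0 : 0 < s0) (hε : 0 < ε) (hK : WI s0 K)
    (hpos : ∀ (ω : ℝ) (v : E), ε * ‖v‖ ^ 2 ≤ ‖v‖ ^ 2 + (⟪(∫ t, ek ω t • K t) v, v⟫_ℂ).re) :
    ∃ s : ℝ, 0 < s ∧ s ≤ s0 ∧ ∀ v : E, ∃ n : ℝ → E, WI s n ∧ (∀ t < 0, n t = 0) ∧
      ∀ᵐ t, 0 ≤ t → n t + cv K n t + K t v = 0 := by
  wlog hε1 : ε ≤ 1 generalizing ε with H
  · push Not at hε1
    apply H one_pos _ le_rfl
    intro ω v
    refine le_trans ?_ (hpos ω v)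
    gcongr
  obtain ⟨s, hs, hs2, hclose⟩ := wk_close hs0 (half_pos hε) hK
  have hss : s / 2 ≤ s0 := by linarith
  refine ⟨s / 2, half_pos hs, hss, fun v => ?_⟩
  have hKi : Integrable K := hK.integrable hs0.le
  set Ks := wk s K with hKs
  have hKsi : Integrable Ks := wk_integrable hs.le (by linarith) hK
  have hS : MeasurableSet (Set.Ici (0 : ℝ)) := measurableSet_Ici
  set S := Set.Ici (0 : ℝ) with hSdef
  have hunit := coercive_whop hKi hKsi hε hε1 hpos hclose hS
  -- splitting of the kernel
  obtain ⟨g, hgc, hge, hgcont, hgi⟩ :=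
    hKsi.exists_hasCompactSupport_integral_sub_le (ε := 1 / 2) (by norm_num)
  obtain ⟨M, hM⟩ := hgc.exists_bound_of_continuous hgcont
  have hei : Integrable (Ks - g) := hKsi.sub hgi
  have hunit1 : IsUnit (1 + whop 1 youngP_one hS hei : Lp E 1 (volume : Measure ℝ) →L[ℂ]
      Lp E 1 (volume : Measure ℝ)) := by
    apply isUnit_one_add_clm
    refine (norm_whop_le _ _ _ _).trans_lt ?_
    have : ∫ u, ‖(Ks - g) u‖ ≤ 1 / 2 := hge
    linarith
  -- first step: `L¹`
  have hrhs1 : MemLp (S.indicator (fun t => Ks t v)) 1 (volume : Measure ℝ) :=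
    (memLp_one_iff_integrable.mpr
      ((ContinuousLinearMap.apply ℂ E v).integrable_comp hKsi)).indicator hS
  obtain ⟨n1, hn1⟩ : ∃ n1 : Lp E 1 (volume : Measure ℝ),
      (1 + whop 1 youngP_one hS hei : Lp E 1 (volume : Measure ℝ) →L[ℂ]
      Lp E 1 (volume : Measure ℝ)) n1 = -MemLp.toLp _ hrhs1 := by
    rw [ContinuousLinearMap.isUnit_iff_bijective] at hunit1
    exact hunit1.2 _
  have hn1S : Integrable (S.indicator n1) := (L1.integrable_coeFn n1).indicator hS
  have hn1M : MemLp (S.indicator n1) 1 (volume : Measure ℝ) := memLp_one_iff_integrable.mpr hn1S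
  have hy1e := young_one hei hn1M
  have hy1g := young_one hgi hn1M
  have hy1K := young_one hKsi hn1M
  have e1 : ∀ᵐ t, t ∈ S → n1 t + cv (Ks - g) (S.indicator n1) t = -(Ks t v) := by
    have h := Lp.ext_iff.mp hn1
    filter_upwards [h, Lp.coeFn_add n1 (whop 1 youngP_one hS hei n1),
      whop_coe 1 youngP_one hS hei n1, Lp.coeFn_neg (MemLp.toLp _ hrhs1),
      MemLp.coeFn_toLp hrhs1] with t h1 h2 h3 h4 h5 ht
    rw [add_apply, one_apply_eq_self, h2, h4, Pi.add_apply, Pi.neg_apply, h3, h5,
      Set.indicator_of_mem ht, Set.indicator_of_mem ht] at h1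
    exact h1
  -- second step: `L²`
  set b : ℝ → E := S.indicator (cv g (S.indicator n1)) with hb
  have hbM : MemLp b 2 (volume : Measure ℝ) := by
    apply memLp_two_of_bounded (M := M * ∫ u, ‖S.indicator n1 u‖)
    · exact (memLp_one_iff_integrable.mp hy1g.2.1).indicator hS
    · intro t
      have h1 := norm_cv_le hn1S hM t
      by_cases ht : t ∈ S
      · rw [hb, Set.indicator_of_mem ht]; exact h1
      · rw [hb, Set.indicator_of_notMem ht, norm_zero]
        exact (norm_nonneg _).trans h1
  obtain ⟨y, hy⟩ : ∃ y : Lp E 2 (volume : Measure ℝ),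
      (1 + whop 2 youngP_two hS hKsi : Lp E 2 (volume : Measure ℝ) →L[ℂ]
      Lp E 2 (volume : Measure ℝ)) y = -MemLp.toLp _ hbM := by
    rw [ContinuousLinearMap.isUnit_iff_bijective] at hunit
    exact hunit.2 _
  have hyM : MemLp (S.indicator y) 2 (volume : Measure ℝ) := (Lp.memLp y).indicator hS
  have hy2 := young_two hKsi hyM
  have e2 : ∀ᵐ t, t ∈ S → y t + cv Ks (S.indicator y) t = -(cv g (S.indicator n1) t) := by
    have h := Lp.ext_iff.mp hy
    filter_upwards [h, Lp.coeFn_add y (whop 2 youngP_two hS hKsi y),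
      whop_coe 2 youngP_two hS hKsi y, Lp.coeFn_neg (MemLp.toLp _ hbM),
      MemLp.coeFn_toLp hbM] with t h1 h2 h3 h4 h5 ht
    rw [add_apply, one_apply_eq_self, h2, h4, Pi.add_apply, Pi.neg_apply, h3, h5, hb,
      Set.indicator_of_mem ht, Set.indicator_of_mem ht] at h1
    exact h1
  -- combination
  set n' : ℝ → E := fun t => S.indicator n1 t + S.indicator y t with hn'
  have e3 : ∀ᵐ t, t ∈ S → n' t + cv Ks n' t = -(Ks t v) := by
    filter_upwards [e1, e2, hy1e.1, hy1g.1, hy1K.1, hy2.1] with t h1 h2 h3 h4 h5 h6 ht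
    have h7 : cv Ks n' t = cv Ks (S.indicator n1) t + cv Ks (S.indicator y) t := by
      unfold cv
      rw [← integral_add h5 h6]
      simp only [hn', map_add]
    have h8 : cv (Ks - g) (S.indicator n1) t
        = cv Ks (S.indicator n1) t - cv g (S.indicator n1) t := cv_sub_kernel h5 h4
    have h9 : n' t = n1 t + y t := by
      simp only [hn', Set.indicator_of_mem ht]
    rw [h7, h9]
    have h1' := h1 ht
    have h2' := h2 ht
    rw [h8] at h1'
    rw [← h1']
    have : cv g (S.indicator n1) t = -(y t + cv Ks (S.indicator y) t) := by rw [h2', neg_neg]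
    rw [this]
    abel
  set n : ℝ → E := fun t => ((Real.exp (-s * t) : ℝ) : ℂ) • n' t with hn
  have hn'neg : ∀ t < 0, n' t = 0 := by
    intro t ht
    have : t ∉ S := by simp only [hSdef, Set.mem_Ici, not_le]; exact ht
    simp only [hn', Set.indicator_of_notMem this, add_zero]
  have hn'm : AEStronglyMeasurable n' volume := hn1S.1.add hyM.1
  have hexpm : ∀ r : ℝ, AEStronglyMeasurable (fun t : ℝ => Real.exp (r * |t|)) volume := fun r =>
    (by fun_prop : Continuous (fun t : ℝ => Real.exp (r * |t|))).aestronglyMeasurable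
  refine ⟨n, ⟨?_, ?_⟩, ?_, ?_⟩
  · apply AEStronglyMeasurable.smul _ hn'm
    exact (by fun_prop : Continuous (fun t : ℝ => ((Real.exp (-s * t) : ℝ) : ℂ))).aestronglyMeasurable
  · have hint : Integrable (fun t => ‖S.indicator n1 t‖
        + S.indicator (fun t => Real.exp (-(s / 2) * t)) t * ‖S.indicator y t‖) := by
      apply hn1S.norm.add
      exact (exp_ind_memLp (half_pos hs)).integrable_mul hyM.norm
    refine hint.mono' ?_ (Eventually.of_forall (fun t => ?_))
    · apply AEStronglyMeasurable.mul _ (hexpm _)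
      apply AEStronglyMeasurable.norm
      apply AEStronglyMeasurable.smul _ hn'm
      exact (by fun_prop : Continuous (fun t : ℝ => ((Real.exp (-s * t) : ℝ) : ℂ))).aestronglyMeasurable
    · rw [Real.norm_of_nonneg (by positivity)]
      by_cases ht : t ∈ S
      · have ht0 : 0 ≤ t := ht
        simp only [hn, hn', Set.indicator_of_mem ht]
        rw [norm_smul, Complex.norm_real, Real.norm_of_nonneg (Real.exp_pos _).le,
          abs_of_nonneg ht0]
        have h1 : Real.exp (-s * t) * Real.exp (s / 2 * t) = Real.exp (-(s / 2) * t) := by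
          rw [← Real.exp_add]; congr 1; ring
        have h2 : Real.exp (-(s / 2) * t) ≤ 1 := by
          rw [Real.exp_le_one_iff]; nlinarith
        calc Real.exp (-s * t) * ‖n1 t + y t‖ * Real.exp (s / 2 * t)
            = Real.exp (-(s / 2) * t) * ‖n1 t + y t‖ := by rw [← h1]; ring
          _ ≤ Real.exp (-(s / 2) * t) * (‖n1 t‖ + ‖y t‖) := by
              gcongr; exact norm_add_le _ _
          _ = Real.exp (-(s / 2) * t) * ‖n1 t‖ + Real.exp (-(s / 2) * t) * ‖y t‖ := by ring
          _ ≤ 1 * ‖n1 t‖ + Real.exp (-(s / 2) * t) * ‖y t‖ := by gcongr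
          _ = _ := by rw [one_mul]
      · simp only [hn, hn', Set.indicator_of_notMem ht, add_zero, smul_zero, norm_zero, zero_mul,
          le_refl]
  · intro t ht
    simp only [hn]
    rw [hn'neg t ht, smul_zero]
  · have h4 : ∀ t, cv K n t = ((Real.exp (-s * t) : ℝ) : ℂ) • cv Ks n' t := by
      intro t
      unfold cv
      rw [← integral_smul]
      congr 1
      funext u
      simp only [hn, hKs, wk, smul_apply, map_smul, smul_smul]
      congr 1
      rw [← Complex.ofReal_mul, ← Real.exp_add]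
      congr 2
      ring
    filter_upwards [e3] with t h1 ht
    rw [h4]
    have h5 := h1 ht
    have h6 : K t v = ((Real.exp (-s * t) : ℝ) : ℂ) • Ks t v := by
      simp only [hKs, wk, smul_apply, smul_smul]
      rw [← Complex.ofReal_mul, ← Real.exp_add]
      simp
    rw [h6]
    simp only [hn]
    rw [← smul_add, h5, ← smul_add, neg_add_cancel, smul_zero]

end Solve

end Pool.Agent.Helper859
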