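import Pool.Agent.Helper859.Young

set_option autoImplicit false

namespace Pool.Agent.Helper859

open scoped ENNReal InnerProductSpace
open Filter Topology MeasureTheory

section WH
set_option linter.unusedSectionVars false
set_option linter.unusedVariables false

variable {E : Type} [NormedAddCommGroup E] [InnerProductSpace ℂ E] [CompleteSpace E]

/-- Young's inequality at exponent `p` -/
def YoungP (E : Type) [NormedAddCommGroup E] [InnerProductSpace ℂ E] (p : ℝ≥0∞) : Prop :=
  ∀ (k : ℝ → E →L[ℂ] E) (y : ℝ → E), Integrable k → MemLp y p →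
    (∀ᵐ t, Integrable (fun u => k u (y (t - u)))) ∧ MemLp (cv k y) p ∧
      eLpNorm (cv k y) p volume ≤ (∫⁻ u, ‖k u‖ₑ) * eLpNorm y p volume

lemma youngP_one : YoungP E 1 := fun k y hk hy => young_one hk hy
lemma youngP_two : YoungP E 2 := fun k y hk hy => young_two hk hy

lemma cv_congr {k : ℝ → E →L[ℂ] E} {y y' : ℝ → E} (h : y =ᵐ[volume] y') (t : ℝ) :
    cv k y t = cv k y' t := by
  unfold cv
  apply integral_congr_ae
  have h1 := (quasiMeasurePreserving_sub_left_of_right_invariant (volume : Measure ℝ) t).ae_eq_comp h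
  filter_upwards [h1] with u hu
  exact congrArg (k u) hu

lemma cv_sub_kernel {k k' : ℝ → E →L[ℂ] E} {y : ℝ → E} {t : ℝ}
    (h : Integrable (fun u => k u (y (t - u)))) (h' : Integrable (fun u => k' u (y (t - u)))) :
    cv (fun u => k u - k' u) y t = cv k y t - cv k' y t := by
  unfold cv
  rw [← integral_sub h h']
  rfl

variable (p : ℝ≥0∞) [Fact (1 ≤ p)]

lemma wh_memLp (hY : YoungP E p) {S : Set ℝ} (hS : MeasurableSet S)
    {k : ℝ → E →L[ℂ] E} (hk : Integrable k) (y : Lp E p (volume : Measure ℝ)) :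
    MemLp (S.indicator (cv k (S.indicator y))) p (volume : Measure ℝ) :=
  ((hY k (S.indicator y) hk ((Lp.memLp y).indicator hS)).2.1).indicator hS

/-- underlying map of the truncated convolution operator -/
noncomputable def whf (hY : YoungP E p) {S : Set ℝ} (hS : MeasurableSet S)
    {k : ℝ → E →L[ℂ] E} (hk : Integrable k) (y : Lp E p (volume : Measure ℝ)) :
    Lp E p (volume : Measure ℝ) :=
  MemLp.toLp (S.indicator (cv k (S.indicator y))) (wh_memLp p hY hS hk y)

lemma whf_coe (hY : YoungP E p) {S : Set ℝ} (hS : MeasurableSet S)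
    {k : ℝ → E →L[ℂ] E} (hk : Integrable k) (y : Lp E p (volume : Measure ℝ)) :
    whf p hY hS hk y =ᵐ[volume] S.indicator (cv k (S.indicator y)) :=
  MemLp.coeFn_toLp _

lemma whf_add (hY : YoungP E p) {S : Set ℝ} (hS : MeasurableSet S)
    {k : ℝ → E →L[ℂ] E} (hk : Integrable k) (y z : Lp E p (volume : Measure ℝ)) :
    whf p hY hS hk (y + z) = whf p hY hS hk y + whf p hY hS hk z := by
  apply Lp.ext
  have hy := hY k (S.indicator y) hk ((Lp.memLp y).indicator hS)
  have hz := hY k (S.indicator z) hk ((Lp.memLp z).indicator hS)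
  filter_upwards [whf_coe p hY hS hk y, whf_coe p hY hS hk z, whf_coe p hY hS hk (y + z),
    Lp.coeFn_add (whf p hY hS hk y) (whf p hY hS hk z), hy.1, hz.1] with t h1 h2 h0 h6 h3 h4
  rw [h0, h6, Pi.add_apply, h1, h2]
  by_cases ht : t ∈ S
  · simp only [Set.indicator_of_mem ht]
    have h5 : S.indicator (⇑(y + z)) =ᵐ[volume] fun t => S.indicator y t + S.indicator z t := by
      filter_upwards [Lp.coeFn_add y z] with u hu
      by_cases hus : u ∈ S
      · simp only [Set.indicator_of_mem hus]; rw [hu]; rfl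
      · simp only [Set.indicator_of_notMem hus]; rw [add_zero]
    rw [cv_congr h5]
    unfold cv
    rw [← integral_add h3 h4]
    simp only [map_add]
  · simp only [Set.indicator_of_notMem ht, add_zero]

lemma whf_smul (hY : YoungP E p) {S : Set ℝ} (hS : MeasurableSet S)
    {k : ℝ → E →L[ℂ] E} (hk : Integrable k) (c : ℂ) (y : Lp E p (volume : Measure ℝ)) :
    whf p hY hS hk (c • y) = c • whf p hY hS hk y := by
  apply Lp.ext
  filter_upwards [whf_coe p hY hS hk y, whf_coe p hY hS hk (c • y),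
    Lp.coeFn_smul c (whf p hY hS hk y)] with t h1 h2 h3
  rw [h2, h3, Pi.smul_apply, h1]
  by_cases ht : t ∈ S
  · simp only [Set.indicator_of_mem ht]
    have h5 : S.indicator (⇑(c • y)) =ᵐ[volume] fun t => c • S.indicator y t := by
      filter_upwards [Lp.coeFn_smul c y] with u hu
      by_cases hus : u ∈ S
      · simp only [Set.indicator_of_mem hus]; rw [hu]; rfl
      · simp only [Set.indicator_of_notMem hus]; rw [smul_zero]
    rw [cv_congr h5]
    unfold cv
    rw [← integral_smul]
    simp only [map_smul]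
  · simp only [Set.indicator_of_notMem ht, smul_zero]

lemma norm_whf_le (hY : YoungP E p) {S : Set ℝ} (hS : MeasurableSet S)
    {k : ℝ → E →L[ℂ] E} (hk : Integrable k) (y : Lp E p (volume : Measure ℝ)) :
    ‖whf p hY hS hk y‖ ≤ (∫ u, ‖k u‖) * ‖y‖ := by
  have hy := hY k (S.indicator y) hk ((Lp.memLp y).indicator hS)
  unfold whf
  rw [Lp.norm_toLp]
  have h1 : eLpNorm (S.indicator (cv k (S.indicator y))) p volume
      ≤ (∫⁻ u, ‖k u‖ₑ) * eLpNorm y p volume :=
    (eLpNorm_indicator_le _).trans (hy.2.2.trans (by gcongr; exact eLpNorm_indicator_le _))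
  have h2 : (∫⁻ u, ‖k u‖ₑ) * eLpNorm y p volume ≠ ⊤ :=
    ENNReal.mul_ne_top hk.2.ne (Lp.memLp y).2.ne
  have h3 := ENNReal.toReal_mono h2 h1
  rw [ENNReal.toReal_mul] at h3
  rw [Lp.norm_def, integral_norm_eq_lintegral_enorm hk.1]
  exact h3

/-- truncated convolution operator -/
noncomputable def whop (hY : YoungP E p) {S : Set ℝ} (hS : MeasurableSet S)
    {k : ℝ → E →L[ℂ] E} (hk : Integrable k) :
    Lp E p (volume : Measure ℝ) →L[ℂ] Lp E p (volume : Measure ℝ) :=
  LinearMap.mkContinuous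
    { toFun := whf p hY hS hk
      map_add' := whf_add p hY hS hk
      map_smul' := whf_smul p hY hS hk }
    (∫ u, ‖k u‖) (norm_whf_le p hY hS hk)

lemma whop_coe (hY : YoungP E p) {S : Set ℝ} (hS : MeasurableSet S)
    {k : ℝ → E →L[ℂ] E} (hk : Integrable k) (y : Lp E p (volume : Measure ℝ)) :
    whop p hY hS hk y =ᵐ[volume] S.indicator (cv k (S.indicator y)) :=
  whf_coe p hY hS hk y

lemma norm_whop_le (hY : YoungP E p) {S : Set ℝ} (hS : MeasurableSet S)
    {k : ℝ → E →L[ℂ] E} (hk : Integrable k) : ‖whop p hY hS hk‖ ≤ ∫ u, ‖k u‖ :=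
  LinearMap.mkContinuous_norm_le _ (integral_nonneg (fun _ => norm_nonneg _)) _

lemma whop_sub (hY : YoungP E p) {S : Set ℝ} (hS : MeasurableSet S)
    {k k' : ℝ → E →L[ℂ] E} (hk : Integrable k) (hk' : Integrable k')
    (y : Lp E p (volume : Measure ℝ)) :
    whop p hY hS hk y - whop p hY hS hk' y = whop p hY hS (hk.sub hk') y := by
  apply Lp.ext
  have hy := hY k (S.indicator y) hk ((Lp.memLp y).indicator hS)
  have hy' := hY k' (S.indicator y) hk' ((Lp.memLp y).indicator hS)
  filter_upwards [whop_coe p hY hS hk y, whop_coe p hY hS hk' y, hy.1, hy'.1,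
    whop_coe p hY hS (hk.sub hk') y, Lp.coeFn_sub (whop p hY hS hk y) (whop p hY hS hk' y)]
    with t h1 h2 h3 h4 h5 h6
  rw [h5, h6, Pi.sub_apply, h1, h2]
  by_cases ht : t ∈ S
  · simp only [Set.indicator_of_mem ht]
    exact (cv_sub_kernel h3 h4).symm
  · simp only [Set.indicator_of_notMem ht, sub_zero]

end WH

end Pool.Agent.Helper859
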