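import Pool.Agent.Helper859.Pos

set_option autoImplicit false

namespace Pool.Agent.Helper859

open scoped ENNReal InnerProductSpace FourierTransform SchwartzMap
open Filter Topology MeasureTheory

section WInt
set_option linter.unusedSectionVars false
set_option linter.unusedVariables false

variable {V W : Type*} [NormedAddCommGroup V] [NormedSpace ℂ V] [NormedAddCommGroup W]
  [NormedSpace ℂ W]

/-- exponentially weighted integrability -/
def WI (s : ℝ) (f : ℝ → V) : Prop :=
  AEStronglyMeasurable f volume ∧ Integrable (fun t => ‖f t‖ * Real.exp (s * |t|))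

lemma one_le_exp_abs {s : ℝ} (hs : 0 ≤ s) (t : ℝ) : 1 ≤ Real.exp (s * |t|) :=
  Real.one_le_exp (by positivity)

lemma WI.integrable {s : ℝ} (hs : 0 ≤ s) {f : ℝ → V} (h : WI s f) : Integrable f :=
  h.2.mono' h.1 (Eventually.of_forall (fun t => by
    have := one_le_exp_abs hs t
    nlinarith [norm_nonneg (f t)]))

lemma WI.of_norm_le {s : ℝ} {f : ℝ → V} {g : ℝ → W} (h : WI s f)
    (hg : AEStronglyMeasurable g volume) {C : ℝ} (hle : ∀ᵐ t, ‖g t‖ ≤ C * ‖f t‖) : WI s g := by
  refine ⟨hg, (h.2.const_mul C).mono' ?_ ?_⟩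
  · exact hg.norm.mul (by fun_prop : Continuous (fun t : ℝ => Real.exp (s * |t|))).aestronglyMeasurable
  · filter_upwards [hle] with t ht
    rw [Real.norm_of_nonneg (by positivity), ← mul_assoc]
    gcongr

lemma WI.mono {s s' : ℝ} (hs : s' ≤ s) {f : ℝ → V} (h : WI s f) : WI s' f := by
  refine ⟨h.1, h.2.mono' ?_ ?_⟩
  · exact h.1.norm.mul (by fun_prop : Continuous (fun t : ℝ => Real.exp (s' * |t|))).aestronglyMeasurable
  · refine Eventually.of_forall (fun t => ?_)
    rw [Real.norm_of_nonneg (by positivity)]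
    gcongr

lemma WI.add {s : ℝ} {f g : ℝ → V} (hf : WI s f) (hg : WI s g) : WI s (fun t => f t + g t) := by
  refine ⟨hf.1.add hg.1, (hf.2.add hg.2).mono' ?_ ?_⟩
  · exact (hf.1.add hg.1).norm.mul
      (by fun_prop : Continuous (fun t : ℝ => Real.exp (s * |t|))).aestronglyMeasurable
  · refine Eventually.of_forall (fun t => ?_)
    rw [Real.norm_of_nonneg (by positivity)]
    have := norm_add_le (f t) (g t)
    have h2 := Real.exp_pos (s * |t|)
    simp only [Pi.add_apply]
    nlinarith

lemma WI.clm {s : ℝ} {f : ℝ → V} (hf : WI s f) (T : V →L[ℂ] W) : WI s (fun t => T (f t)) :=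
  hf.of_norm_le (T.continuous.comp_aestronglyMeasurable hf.1) (C := ‖T‖)
    (Eventually.of_forall (fun t => T.le_opNorm _))

lemma WI.finset_sum {s : ℝ} {ι : Type*} (S : Finset ι) {f : ι → ℝ → V}
    (hf : ∀ i ∈ S, WI s (f i)) : WI s (fun t => ∑ i ∈ S, f i t) := by
  classical
  induction S using Finset.induction_on with
  | empty =>
    refine ⟨by simpa using aestronglyMeasurable_const, by simp⟩
  | insert i S hi ih =>
    simp only [Finset.sum_insert hi]
    exact (hf i (Finset.mem_insert_self _ _)).add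
      (ih (fun j hj => hf j (Finset.mem_insert_of_mem hj)))

lemma WI.congr {s : ℝ} {f g : ℝ → V} (hf : WI s f) (h : f =ᵐ[volume] g) : WI s g :=
  ⟨hf.1.congr h, hf.2.congr (by filter_upwards [h] with t ht; rw [ht])⟩

/-- Young's inequality with weights -/
lemma WI.cv {s : ℝ} (hs : 0 ≤ s) {k : ℝ → V →L[ℂ] W} {y : ℝ → V} (hk : WI s k) (hy : WI s y) :
    WI s (cv k y) := by
  refine ⟨cv_meas' hk.1 hy.1, ?_⟩
  have h1 := hk.2.integrable_convolution (ContinuousLinearMap.mul ℝ ℝ) hy.2
  refine h1.mono' ?_ ?_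
  · exact (cv_meas' hk.1 hy.1).norm.mul
      (by fun_prop : Continuous (fun t : ℝ => Real.exp (s * |t|))).aestronglyMeasurable
  · have h2 := hk.2.ae_convolution_exists (ContinuousLinearMap.mul ℝ ℝ) hy.2
    filter_upwards [h2] with t ht
    rw [Real.norm_of_nonneg (by positivity)]
    unfold Helper859.cv MeasureTheory.convolution
    calc ‖∫ u, k u (y (t - u))‖ * Real.exp (s * |t|)
        ≤ (∫ u, ‖k u (y (t - u))‖) * Real.exp (s * |t|) := by
          gcongr; exact norm_integral_le_integral_norm _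
      _ = ∫ u, ‖k u (y (t - u))‖ * Real.exp (s * |t|) := (integral_mul_const _ _).symm
      _ ≤ _ := by
          apply integral_mono_of_nonneg (Eventually.of_forall (fun u => by positivity)) ht
          refine Eventually.of_forall (fun u => ?_)
          simp only [ContinuousLinearMap.mul_apply']
          have h3 : |t| ≤ |u| + |t - u| := by
            have := abs_add_le u (t - u); simpa using this
          calc ‖k u (y (t - u))‖ * Real.exp (s * |t|)
              ≤ (‖k u‖ * ‖y (t - u)‖) * Real.exp (s * (|u| + |t - u|)) := by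
                gcongr; exact (k u).le_opNorm _
            _ = _ := by rw [mul_add, Real.exp_add]; ring

/-- Fourier transform in the normalisation of the problem -/
noncomputable def lt (f : ℝ → V) (ω : ℝ) : V := ∫ t, ek ω t • f t

lemma lt_fourier (f : ℝ → V) (ω : ℝ) : lt f ω = 𝓕 f (ω / (2 * Real.pi)) := by
  rw [fourier_eq_ek]
  unfold lt
  rw [mul_div_cancel₀ _ (by positivity)]

lemma lt_congr {f g : ℝ → V} (h : f =ᵐ[volume] g) (ω : ℝ) : lt f ω = lt g ω := by
  unfold lt
  apply integral_congr_ae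
  filter_upwards [h] with t ht
  rw [ht]

lemma lt_add [CompleteSpace V] {f g : ℝ → V} (hf : Integrable f) (hg : Integrable g) (ω : ℝ) :
    lt (fun t => f t + g t) ω = lt f ω + lt g ω := by
  unfold lt
  rw [← integral_add (integrable_ek hf ω) (integrable_ek hg ω)]
  congr 1
  funext t
  rw [smul_add]

lemma lt_cv [CompleteSpace V] [CompleteSpace W] {k : ℝ → V →L[ℂ] W} {y : ℝ → V}
    (hk : Integrable k) (hy : Integrable y) (ω : ℝ) : lt (cv k y) ω = lt k ω (lt y ω) := by
  simp only [lt_fourier]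
  exact Real.fourier_bilin_convolution_eq (ContinuousLinearMap.id ℂ (V →L[ℂ] W)) hk hy _

lemma lt_clm [CompleteSpace V] [CompleteSpace W] {y : ℝ → V} (hy : Integrable y) (T : V →L[ℂ] W)
    (ω : ℝ) : lt (fun t => T (y t)) ω = T (lt y ω) := by
  unfold lt
  rw [← T.integral_comp_comm (integrable_ek hy ω)]
  simp only [map_smul]

lemma norm_lt_le (f : ℝ → V) (ω : ℝ) : ‖lt f ω‖ ≤ ∫ t, ‖f t‖ := by
  unfold lt
  refine (norm_integral_le_integral_norm _).trans (le_of_eq ?_)
  congr 1
  funext t
  rw [norm_smul, norm_ek, one_mul]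

/-- injectivity of the Fourier transform on `L¹` -/
lemma lt_injective [CompleteSpace V] {m : ℝ → V} (hm : Integrable m) (h : ∀ ω, lt m ω = 0) :
    m =ᵐ[volume] 0 := by
  have h0 : ∀ ξ, 𝓕 m ξ = 0 := by
    intro ξ
    have := h (2 * Real.pi * ξ)
    rw [lt_fourier] at this
    rwa [mul_div_cancel_left₀ _ (by positivity)] at this
  apply ae_eq_zero_of_integral_contDiff_smul_eq_zero hm.locallyIntegrable
  intro g hg hgc
  -- `g` as a complex Schwartz function
  set gc : ℝ → ℂ := fun t => (g t : ℂ) with hgc_def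
  have hgC : ContDiff ℝ (⊤ : ℕ∞) gc := Complex.ofRealCLM.contDiff.comp hg
  have hgcs : HasCompactSupport gc := hgc.comp_left (g := fun r : ℝ => (r : ℂ)) Complex.ofReal_zero
  set φ : 𝓢(ℝ, ℂ) := hgcs.toSchwartzMap hgC with hφ
  have hφc : ∀ x, φ x = gc x := fun x => rfl
  set ψ : 𝓢(ℝ, ℂ) := 𝓕⁻ φ with hψ
  have h1 : (𝓕 (ψ : ℝ → ℂ)) = φ := by
    have : 𝓕 ψ = φ := by rw [hψ, FourierTransform.fourier_fourierInv_eq]
    rw [← this, SchwartzMap.fourier_coe]
  have h2 := VectorFourier.integral_fourierIntegral_smul_eq_flip (L := innerₗ ℝ) (μ := volume)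
    (ν := volume) (e := Real.fourierChar) (f := (ψ : ℝ → ℂ)) (g := m)
    Real.continuous_fourierChar continuous_inner ψ.integrable hm
  have h3 : ∀ ξ, VectorFourier.fourierIntegral Real.fourierChar volume (innerₗ ℝ).flip m ξ = 0 := by
    intro ξ
    rw [← h0 ξ, Real.fourier_eq]
    unfold VectorFourier.fourierIntegral
    congr 1
    funext t
    simp
  simp only [h3, smul_zero, integral_zero] at h2
  have h4 : ∀ ξ, VectorFourier.fourierIntegral Real.fourierChar volume (innerₗ ℝ) (ψ : ℝ → ℂ) ξ
      = gc ξ := by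
    intro ξ
    rw [← hφc, ← h1, Real.fourier_eq]
    unfold VectorFourier.fourierIntegral
    congr 1
  simp only [h4] at h2
  rw [← h2]
  congr 1

end WInt

end Pool.Agent.Helper859
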