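import Pool.Agent.Helper859.Mean

set_option autoImplicit false

namespace Pool.Agent.Helper859

open scoped ENNReal InnerProductSpace
open Filter Topology MeasureTheory

section Young
set_option linter.unusedSectionVars false
set_option linter.unusedVariables false

lemma cs_aux {α : Type*} [MeasurableSpace α] {μ : Measure α} {k η : α → ℝ≥0∞}
    (hk : AEMeasurable k μ) (hη : AEMeasurable η μ) :
    (∫⁻ u, k u * η u ∂μ) ^ 2 ≤ (∫⁻ u, k u ∂μ) * ∫⁻ u, k u * η u ^ 2 ∂μ := by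
  have h1 := ENNReal.lintegral_mul_norm_pow_le (μ := μ) (f := k) (g := fun u => k u * η u ^ 2)
    hk (hk.mul (hη.pow_const 2)) (p := 1 / 2) (q := 1 / 2) (by norm_num) (by norm_num) (by norm_num)
  have h2 : ∀ u, k u ^ (1 / 2 : ℝ) * (k u * η u ^ 2) ^ (1 / 2 : ℝ) = k u * η u := by
    intro u
    rw [ENNReal.mul_rpow_of_nonneg _ _ (by norm_num : (0 : ℝ) ≤ 1 / 2), ← mul_assoc,
      ← ENNReal.rpow_add_of_nonneg _ _ (by norm_num) (by norm_num), ← ENNReal.rpow_natCast,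
      ← ENNReal.rpow_mul]
    norm_num
  simp only [h2] at h1
  calc (∫⁻ u, k u * η u ∂μ) ^ 2
      ≤ ((∫⁻ u, k u ∂μ) ^ (1 / 2 : ℝ) * (∫⁻ u, k u * η u ^ 2 ∂μ) ^ (1 / 2 : ℝ)) ^ 2 := by gcongr
    _ = (∫⁻ u, k u ∂μ) * ∫⁻ u, k u * η u ^ 2 ∂μ := by
        rw [mul_pow, ← ENNReal.rpow_natCast, ← ENNReal.rpow_natCast, ← ENNReal.rpow_mul,
          ← ENNReal.rpow_mul]
        norm_num

variable {V W : Type*} [NormedAddCommGroup V] [NormedSpace ℂ V] [NormedAddCommGroup W]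
  [NormedSpace ℂ W]

/-- convolution of an operator valued kernel with a vector valued function -/
noncomputable def cv (k : ℝ → V →L[ℂ] W) (y : ℝ → V) (t : ℝ) : W := ∫ u, k u (y (t - u))

lemma cv_meas {k : ℝ → V →L[ℂ] W} {y : ℝ → V} (hk : AEStronglyMeasurable k)
    (hy : AEStronglyMeasurable y) :
    AEStronglyMeasurable (fun p : ℝ × ℝ => k p.2 (y (p.1 - p.2))) (volume.prod volume) :=
  hk.convolution_integrand (ContinuousLinearMap.id ℂ (V →L[ℂ] W)) hy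

lemma cv_meas' {k : ℝ → V →L[ℂ] W} {y : ℝ → V} (hk : AEStronglyMeasurable k)
    (hy : AEStronglyMeasurable y) : AEStronglyMeasurable (cv k y) :=
  (cv_meas hk hy).integral_prod_right'

lemma cv_meas_snd {k : ℝ → V →L[ℂ] W} {y : ℝ → V} (hk : AEStronglyMeasurable k)
    (hy : AEStronglyMeasurable y) (t : ℝ) : AEStronglyMeasurable (fun u => k u (y (t - u))) :=
  hk.convolution_integrand_snd (ContinuousLinearMap.id ℂ (V →L[ℂ] W)) hy t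

/-- `L²` Young inequality in `lintegral` form -/
lemma young_lintegral {k : ℝ → V →L[ℂ] W} {y : ℝ → V} (hk : AEStronglyMeasurable k)
    (hy : AEStronglyMeasurable y) :
    ∫⁻ t, (∫⁻ u, ‖k u‖ₑ * ‖y (t - u)‖ₑ) ^ 2 ≤ (∫⁻ u, ‖k u‖ₑ) ^ 2 * ∫⁻ t, ‖y t‖ₑ ^ 2 := by
  have hyp : AEStronglyMeasurable (fun p : ℝ × ℝ => y (p.1 - p.2)) (volume.prod volume) :=
    hy.comp_quasiMeasurePreserving (quasiMeasurePreserving_sub_of_right_invariant volume volume)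
  have hys : ∀ t : ℝ, AEStronglyMeasurable (fun u => y (t - u)) := fun t =>
    hy.comp_quasiMeasurePreserving (quasiMeasurePreserving_sub_left_of_right_invariant volume t)
  calc ∫⁻ t, (∫⁻ u, ‖k u‖ₑ * ‖y (t - u)‖ₑ) ^ 2
      ≤ ∫⁻ t, (∫⁻ u, ‖k u‖ₑ) * ∫⁻ u, ‖k u‖ₑ * ‖y (t - u)‖ₑ ^ 2 := by
        apply lintegral_mono
        intro t
        exact cs_aux hk.enorm (hys t).enorm
    _ = (∫⁻ u, ‖k u‖ₑ) * ∫⁻ t, ∫⁻ u, ‖k u‖ₑ * ‖y (t - u)‖ₑ ^ 2 := by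
        rw [lintegral_const_mul'']
        apply AEMeasurable.lintegral_prod_right'
          (f := fun p : ℝ × ℝ => ‖k p.2‖ₑ * ‖y (p.1 - p.2)‖ₑ ^ 2)
        exact (hk.comp_snd.enorm).mul (hyp.enorm.pow_const 2)
    _ = (∫⁻ u, ‖k u‖ₑ) * ∫⁻ u, ∫⁻ t, ‖k u‖ₑ * ‖y (t - u)‖ₑ ^ 2 := by
        rw [lintegral_lintegral_swap]
        exact (hk.comp_snd.enorm).mul (hyp.enorm.pow_const 2)
    _ = (∫⁻ u, ‖k u‖ₑ) * ∫⁻ u, ‖k u‖ₑ * ∫⁻ t, ‖y t‖ₑ ^ 2 := by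
        congr 1
        apply lintegral_congr
        intro u
        rw [lintegral_const_mul' _ _ enorm_ne_top]
        congr 1
        exact lintegral_sub_right_eq_self (fun t => ‖y t‖ₑ ^ 2) u
    _ = (∫⁻ u, ‖k u‖ₑ) ^ 2 * ∫⁻ t, ‖y t‖ₑ ^ 2 := by
        rw [lintegral_mul_const'' _ hk.enorm]
        ring

lemma eLpNorm_two_sq {y : ℝ → V} : eLpNorm y 2 volume ^ 2 = ∫⁻ t, ‖y t‖ₑ ^ 2 := by
  rw [eLpNorm_eq_lintegral_rpow_enorm_toReal (by norm_num) (by norm_num)]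
  simp only [ENNReal.toReal_ofNat]
  rw [← ENNReal.rpow_natCast, ← ENNReal.rpow_mul]
  norm_num

lemma young_two {k : ℝ → V →L[ℂ] W} {y : ℝ → V} (hk : Integrable k) (hy : MemLp y 2) :
    (∀ᵐ t, Integrable (fun u => k u (y (t - u)))) ∧ MemLp (cv k y) 2 ∧
      eLpNorm (cv k y) 2 volume ≤ (∫⁻ u, ‖k u‖ₑ) * eLpNorm y 2 volume := by
  have hY := young_lintegral hk.1 hy.1
  have hkfin : ∫⁻ u, ‖k u‖ₑ ≠ ⊤ := hk.2.ne
  have hyfin : ∫⁻ t, ‖y t‖ₑ ^ 2 ≠ ⊤ := by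
    rw [← eLpNorm_two_sq]; exact ENNReal.pow_ne_top hy.2.ne
  have hfin : ∫⁻ t, (∫⁻ u, ‖k u‖ₑ * ‖y (t - u)‖ₑ) ^ 2 ≠ ⊤ :=
    ne_top_of_le_ne_top (ENNReal.mul_ne_top (ENNReal.pow_ne_top hkfin) hyfin) hY
  have hyp : AEStronglyMeasurable (fun p : ℝ × ℝ => y (p.1 - p.2)) (volume.prod volume) :=
    hy.1.comp_quasiMeasurePreserving (quasiMeasurePreserving_sub_of_right_invariant volume volume)
  have hJm : AEMeasurable (fun t => ∫⁻ u, ‖k u‖ₑ * ‖y (t - u)‖ₑ) volume := by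
    apply AEMeasurable.lintegral_prod_right' (f := fun p : ℝ × ℝ => ‖k p.2‖ₑ * ‖y (p.1 - p.2)‖ₑ)
    exact (hk.1.comp_snd.enorm).mul hyp.enorm
  have hae : ∀ᵐ t : ℝ, (∫⁻ u, ‖k u‖ₑ * ‖y (t - u)‖ₑ) ^ 2 < ⊤ :=
    ae_lt_top' (hJm.pow_const 2) hfin
  have hle : ∀ t u, ‖k u (y (t - u))‖ₑ ≤ ‖k u‖ₑ * ‖y (t - u)‖ₑ := fun t u => by
    have := (k u).le_opNorm (y (t - u))
    rw [← ofReal_norm, ← ofReal_norm, ← ofReal_norm, ← ENNReal.ofReal_mul (norm_nonneg _)]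
    exact ENNReal.ofReal_le_ofReal this
  have hint : ∀ᵐ t, Integrable (fun u => k u (y (t - u))) := by
    filter_upwards [hae] with t ht
    refine ⟨cv_meas_snd hk.1 hy.1 t, ?_⟩
    have h1 : ∫⁻ u, ‖k u‖ₑ * ‖y (t - u)‖ₑ < ⊤ := by
      by_contra hcon
      push Not at hcon
      rw [top_le_iff] at hcon
      rw [hcon] at ht
      simp at ht
    exact (lintegral_mono (hle t)).trans_lt h1
  have hnorm : ∀ t, ‖cv k y t‖ₑ ≤ ∫⁻ u, ‖k u‖ₑ * ‖y (t - u)‖ₑ := fun t =>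
    (enorm_integral_le_lintegral_enorm _).trans (lintegral_mono (hle t))
  have hsq : ∫⁻ t, ‖cv k y t‖ₑ ^ 2 ≤ (∫⁻ u, ‖k u‖ₑ) ^ 2 * ∫⁻ t, ‖y t‖ₑ ^ 2 :=
    (lintegral_mono (fun t => by gcongr; exact hnorm t)).trans hY
  have hfinal : eLpNorm (cv k y) 2 volume ≤ (∫⁻ u, ‖k u‖ₑ) * eLpNorm y 2 volume := by
    have h2 : eLpNorm (cv k y) 2 volume ^ 2 ≤ ((∫⁻ u, ‖k u‖ₑ) * eLpNorm y 2 volume) ^ 2 := by
      rw [mul_pow, eLpNorm_two_sq, eLpNorm_two_sq]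
      exact hsq
    exact (ENNReal.pow_le_pow_left_iff (by norm_num)).mp h2
  refine ⟨hint, ⟨cv_meas' hk.1 hy.1, hfinal.trans_lt ?_⟩, hfinal⟩
  exact ENNReal.mul_lt_top hk.2 hy.2

lemma young_one {k : ℝ → V →L[ℂ] W} {y : ℝ → V} (hk : Integrable k) (hy : MemLp y 1) :
    (∀ᵐ t, Integrable (fun u => k u (y (t - u)))) ∧ MemLp (cv k y) 1 ∧
      eLpNorm (cv k y) 1 volume ≤ (∫⁻ u, ‖k u‖ₑ) * eLpNorm y 1 volume := by
  have hyi : Integrable y := memLp_one_iff_integrable.mp hy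
  have hle : ∀ t u, ‖k u (y (t - u))‖ₑ ≤ ‖k u‖ₑ * ‖y (t - u)‖ₑ := fun t u => by
    have := (k u).le_opNorm (y (t - u))
    rw [← ofReal_norm, ← ofReal_norm, ← ofReal_norm, ← ENNReal.ofReal_mul (norm_nonneg _)]
    exact ENNReal.ofReal_le_ofReal this
  have hyp : AEStronglyMeasurable (fun p : ℝ × ℝ => y (p.1 - p.2)) (volume.prod volume) :=
    hy.1.comp_quasiMeasurePreserving (quasiMeasurePreserving_sub_of_right_invariant volume volume)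
  have hfinal : eLpNorm (cv k y) 1 volume ≤ (∫⁻ u, ‖k u‖ₑ) * eLpNorm y 1 volume := by
    rw [eLpNorm_one_eq_lintegral_enorm, eLpNorm_one_eq_lintegral_enorm]
    calc ∫⁻ t, ‖cv k y t‖ₑ ≤ ∫⁻ t, ∫⁻ u, ‖k u‖ₑ * ‖y (t - u)‖ₑ :=
          lintegral_mono (fun t => (enorm_integral_le_lintegral_enorm _).trans
            (lintegral_mono (hle t)))
      _ = ∫⁻ u, ∫⁻ t, ‖k u‖ₑ * ‖y (t - u)‖ₑ := by
          rw [lintegral_lintegral_swap]
          exact (hk.1.comp_snd.enorm).mul hyp.enorm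
      _ = ∫⁻ u, ‖k u‖ₑ * ∫⁻ t, ‖y t‖ₑ := by
          apply lintegral_congr
          intro u
          rw [lintegral_const_mul' _ _ enorm_ne_top]
          congr 1
          exact lintegral_sub_right_eq_self (fun t => ‖y t‖ₑ) u
      _ = _ := by rw [lintegral_mul_const'' _ hk.1.enorm]
  refine ⟨?_, ⟨cv_meas' hk.1 hy.1, hfinal.trans_lt (ENNReal.mul_lt_top hk.2 hy.2)⟩, hfinal⟩
  exact hk.ae_convolution_exists (ContinuousLinearMap.id ℂ (V →L[ℂ] W)) hyi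

end Young

end Pool.Agent.Helper859
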